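import Pool.Agent.Work.MP_39d092_co.NL.Fourier

set_option autoImplicit false
open scoped BigOperators

namespace Pool.Agent.Work.MP_39d092_co.NL

lemma z2_prod_eq_one {V : Type} (l : List (V → ZMod 2)) (x : V) :
    (l.map (fun g => g x)).prod = 1 ↔ ∀ g ∈ l, g x = 1 := by
  induction l with
  | nil => simp
  | cons g l ih =>
    simp only [List.map_cons, List.prod_cons, List.mem_cons, forall_eq_or_imp]
    rw [← ih]
    constructor
    · intro h
      rcases z2 (g x) with h0 | h1
      · rw [h0, zero_mul] at h; exact absurd h (by decide)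
      · rw [h1, one_mul] at h; exact ⟨h1, h⟩
    · rintro ⟨h1, h2⟩; rw [h1, h2, one_mul]

section
variable {V : Type} [AddCommGroup V] [Module (ZMod 2) V] [Fintype V]

/-- a nonempty flat given by a list of affine functions -/
lemma flat_param (l : List (V → ZMod 2)) (hl : ∀ g ∈ l, IsAff g) (x0 : V) (hx0 : ∀ g ∈ l, g x0 = 1) :
    ∃ K : Submodule (ZMod 2) V, Module.finrank (ZMod 2) V ≤ Module.finrank (ZMod 2) K + l.length ∧
      ∀ x, (∀ g ∈ l, g x = 1) ↔ x + x0 ∈ K := by
  classical
  choose! φ c hφ using hl
  let L : V →ₗ[ZMod 2] (Fin l.length → ZMod 2) := LinearMap.pi (fun i => φ (l.get i))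
  refine ⟨LinearMap.ker L, ?_, ?_⟩
  · have h1 := LinearMap.finrank_range_add_finrank_ker L
    have h2 : Module.finrank (ZMod 2) (LinearMap.range L) ≤ l.length := by
      have := Submodule.finrank_le (LinearMap.range L)
      simpa using this
    omega
  · intro x
    rw [LinearMap.mem_ker]
    constructor
    · intro h
      ext i
      simp only [L, LinearMap.pi_apply, Pi.zero_apply]
      have hm : l.get i ∈ l := List.get_mem l i
      have h1 := h _ hm
      have h2 := hx0 _ hm
      rw [hφ _ hm] at h1 h2
      rw [map_add]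
      have : φ (l.get i) x + φ (l.get i) x0 = (φ (l.get i) x + c (l.get i)) + (φ (l.get i) x0 + c (l.get i)) := by
        have := add_self_z (c (l.get i))
        linear_combination -this
      rw [this, h1, h2]; exact (by decide : (1 : ZMod 2) + 1 = 0)
    · intro h g hg
      obtain ⟨i, rfl⟩ := List.get_of_mem hg
      have h1 := congrFun h i
      simp only [L, LinearMap.pi_apply, Pi.zero_apply, map_add] at h1
      have h2 := hx0 _ hg
      rw [hφ _ hg] at h2 ⊢
      have h3 := add_self_z (φ (l.get i) x0)
      calc φ (l.get i) x + c (l.get i) = (φ (l.get i) x + φ (l.get i) x0) + (φ (l.get i) x0 + c (l.get i)) := by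
            linear_combination -h3
        _ = 1 := by rw [h1, h2, zero_add]

lemma sum_flat (K : Submodule (ZMod 2) V) (x0 : V) (G : V → ℤ) (P : V → Prop) [DecidablePred P]
    (hP : ∀ x, P x ↔ x + x0 ∈ K) [Fintype K] :
    ∑ x ∈ Finset.univ.filter P, G x = ∑ y : K, G (y.1 + x0) := by
  symm
  refine Finset.sum_bij (fun (y : K) _ => y.1 + x0) ?_ ?_ ?_ ?_
  · intro y _
    simp only [Finset.mem_filter, Finset.mem_univ, true_and]
    rw [hP, add_assoc, add_self2, add_zero]; exact y.2
  · intro y _ z _ h
    exact Subtype.ext (add_right_cancel h)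
  · intro x hx
    simp only [Finset.mem_filter, Finset.mem_univ, true_and] at hx
    refine ⟨⟨x + x0, (hP x).1 hx⟩, Finset.mem_univ _, ?_⟩
    simp only
    rw [add_assoc, add_self2, add_zero]
  · intro y _; rfl

end

/-- Ax / McEliece divisibility over `F_2`. -/
theorem ax (d : ℕ) (hd : 0 < d) : ∀ (n : ℕ) (V : Type) [AddCommGroup V] [Module (ZMod 2) V] [Fintype V],
    Module.finrank (ZMod 2) V = n → ∀ f : V → ZMod 2, Deg d f →
      (2 : ℤ) ^ ((n + d - 1) / d) ∣ ∑ x : V, sg (f x) := by
  intro n
  induction n using Nat.strong_induction_on with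
  | _ n IH =>
    intro V _ _ _ hn f hf
    classical
    set k := (n + d - 1) / d with hk
    have key : ∀ f : V → ZMod 2, Deg d f → ∀ g : V → ZMod 2, Deg d g → (2 : ℤ) ^ k ∣ ∑ x : V, sg (g x) →
        (2 : ℤ) ^ k ∣ ∑ x : V, sg (g x + f x) := by
      intro f hf
      induction hf with
      | zero => intro g _ h; simpa using h
      | @add f1 f2 h1 h2 ih1 ih2 =>
        intro g hg h
        have h3 := ih2 (fun x => g x + f1 x) (Deg.add hg h1) (ih1 g hg h)
        have : (fun x => sg (g x + (f1 x + f2 x))) = fun x => sg (g x + f1 x + f2 x) := by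
          funext x; rw [add_assoc]
        simpa only [this] using h3
      | prod l hl hlen =>
        intro g hg h
        have h1 : ∑ x : V, sg (g x + (l.map (fun g => g x)).prod) = ∑ x : V, sg (g x) -
            2 * ∑ x ∈ Finset.univ.filter (fun x : V => ∀ g ∈ l, g x = 1), sg (g x) := by
          rw [Finset.sum_filter, Finset.mul_sum, ← Finset.sum_sub_distrib]
          refine Finset.sum_congr rfl fun x _ => ?_
          by_cases hx : ∀ g ∈ l, g x = 1
          · rw [if_pos hx, (z2_prod_eq_one l x).2 hx, sg_add, sg_one]; ring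
          · rw [if_neg hx]
            have : (l.map (fun g => g x)).prod = 0 := by
              rcases z2 ((l.map (fun g => g x)).prod) with h0 | h0
              · exact h0
              · exact absurd ((z2_prod_eq_one l x).1 h0) hx
            rw [this, add_zero]; ring
        rw [h1]
        by_cases hne : ∃ x0 : V, ∀ g ∈ l, g x0 = 1
        · obtain ⟨x0, hx0⟩ := hne
          obtain ⟨K, hK, hKx⟩ := flat_param l hl x0 hx0
          rw [sum_flat K x0 (fun x => sg (g x)) (fun x => ∀ g ∈ l, g x = 1) hKx]
          by_cases hlt : Module.finrank (ZMod 2) K < n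
          · have h2 := IH _ hlt K rfl (fun y : K => g (K.subtype y + x0)) (hg.comp K.subtype x0)
            have h3 : k ≤ (Module.finrank (ZMod 2) K + d - 1) / d + 1 := by
              rw [hk]
              have h4 : n ≤ Module.finrank (ZMod 2) K + d := by omega
              calc (n + d - 1) / d ≤ (Module.finrank (ZMod 2) K + d - 1 + d) / d := Nat.div_le_div_right (by omega)
                _ = (Module.finrank (ZMod 2) K + d - 1) / d + 1 := Nat.add_div_right _ hd
            refine dvd_sub h ?_
            calc (2 : ℤ) ^ k ∣ 2 ^ ((Module.finrank (ZMod 2) K + d - 1) / d + 1) := pow_dvd_pow _ h3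
              _ = 2 * 2 ^ ((Module.finrank (ZMod 2) K + d - 1) / d) := by rw [pow_succ]; ring
              _ ∣ _ := mul_dvd_mul_left 2 h2
          · have hKtop : K = ⊤ := by
              apply Submodule.eq_top_of_finrank_eq
              have := Submodule.finrank_le K
              omega
            have h5 : ∑ y : K, sg (g (y.1 + x0)) = ∑ x : V, sg (g x) := by
              rw [← sum_flat K x0 (fun x => sg (g x)) (fun _ => True) (by intro x; simp [hKtop])]
              simp
            rw [h5]
            have : ∑ x : V, sg (g x) - 2 * ∑ x : V, sg (g x) = - ∑ x : V, sg (g x) := by ring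
            rw [this]; exact (dvd_neg).2 h
        · have : Finset.univ.filter (fun x : V => ∀ g ∈ l, g x = 1) = ∅ := by
            apply Finset.filter_eq_empty_iff.2
            intro x _ hx
            exact hne ⟨x, hx⟩
          rw [this]; simpa using h
    have h0 : (2 : ℤ) ^ k ∣ ∑ x : V, sg ((fun _ : V => (0 : ZMod 2)) x) := by
      simp only [sg_zero, Finset.sum_const, Finset.card_univ, nsmul_eq_mul, mul_one]
      rw [card_V, hn]
      push_cast
      apply pow_dvd_pow
      rw [hk]
      calc (n + d - 1) / d ≤ (n * d + (d - 1)) / d := Nat.div_le_div_right (by have := Nat.le_mul_of_pos_right n hd; omega)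
        _ = n := by
          rw [Nat.mul_comm, Nat.mul_add_div hd, Nat.div_eq_of_lt (by omega), add_zero]
    have h1 := key f hf (fun _ => 0) Deg.zero h0
    simpa using h1

end Pool.Agent.Work.MP_39d092_co.NL
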