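import Pool.Agent.Work.MP_39d092_co.NL.Piece

set_option autoImplicit false
open scoped BigOperators

namespace Pool.Agent.Work.MP_39d092_co.NL

/-- a quadratic function plus a cubic function of `c` linear forms -/
def Core (c : ℕ) {V : Type} [AddCommGroup V] [Module (ZMod 2) V] (g : V → ZMod 2) : Prop :=
  ∃ (q : V → ZMod 2) (L : V →ₗ[ZMod 2] (Fin c → ZMod 2)) (h : (Fin c → ZMod 2) → ZMod 2),
    Deg 2 q ∧ Deg 3 h ∧ ∀ x, g x = q x + h (L x)

lemma Core.comp {c : ℕ} {V V' : Type} [AddCommGroup V] [Module (ZMod 2) V] [AddCommGroup V']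
    [Module (ZMod 2) V'] {g : V → ZMod 2} (hg : Core c g) (ι : V' →ₗ[ZMod 2] V) (b : V) :
    Core c (fun x => g (ι x + b)) := by
  obtain ⟨q, L, h, hq, hh, hgx⟩ := hg
  refine ⟨fun x => q (ι x + b), L.comp ι, fun y => h (y + L b), hq.comp ι b, ?_, ?_⟩
  · exact hh.comp LinearMap.id (L b)
  · intro x; simp [hgx]

lemma Core.addLin {c : ℕ} {V : Type} [AddCommGroup V] [Module (ZMod 2) V] {g : V → ZMod 2} (hg : Core c g)
    (φ : Du V) : Core c (fun x => g x + φ x) := by
  obtain ⟨q, L, h, hq, hh, hgx⟩ := hg
  refine ⟨fun x => q x + φ x, L, h, Deg.add hq (Deg.aff (by norm_num) ⟨φ, 0, by simp⟩), hh, ?_⟩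
  intro x; simp only [hgx]; ring

lemma Core.deg {c : ℕ} {V : Type} [AddCommGroup V] [Module (ZMod 2) V] {g : V → ZMod 2} (hg : Core c g) :
    Deg 3 g := by
  obtain ⟨q, L, h, hq, hh, hgx⟩ := hg
  have h1 : Deg 3 (fun x => q x + h (L x + 0)) := Deg.add (hq.mono (by norm_num)) (hh.comp L 0)
  have h2 : g = fun x => q x + h (L x + 0) := by funext x; rw [hgx, add_zero]
  rw [h2]; exact h1

/-- divisibility of the complete sums of a quadratic function plus a cubic function of `3s+2` linear forms -/
theorem core_sum (c s : ℕ) (hcs : c = 3 * s + 2) (hs : s ≤ 3) : ∀ (n : ℕ) (V : Type) [AddCommGroup V]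
    [Module (ZMod 2) V] [Fintype V], Module.finrank (ZMod 2) V = n → ∀ g : V → ZMod 2, Core c g →
      (2 : ℤ) ^ ((n - s + 1) / 2) ∣ ∑ x : V, sg (g x) := by
  intro n
  induction n using Nat.strong_induction_on with
  | _ n IH =>
    intro V _ _ _ hn g hg
    classical
    have hgd := hg.deg
    obtain ⟨q, L, h, hq, hh, hgx⟩ := hg
    by_cases hker : LinearMap.ker L = ⊥
    · have hfr : n ≤ c := by
        have h1 := LinearMap.finrank_range_add_finrank_ker L
        have h2 : Module.finrank (ZMod 2) (LinearMap.range L) ≤ c := by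
          have := Submodule.finrank_le (LinearMap.range L)
          simpa using this
        rw [hker, finrank_bot] at h1
        omega
      refine (pow_dvd_pow 2 ?_).trans (ax 3 (by norm_num) n V hn g hgd)
      omega
    · obtain ⟨a, haL, ha⟩ := (Submodule.ne_bot_iff _).1 hker
      rw [LinearMap.mem_ker] at haL
      have hDg : Dv a g = Dv a q := by
        funext x
        simp only [Dv, hgx, map_add, haL, add_zero]
        have := add_self_z (h (L x))
        linear_combination this
      obtain ⟨l, c0, hl⟩ := (hq.dv a).isAff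
      have hDg' : ∀ x, Dv a g x = l x + c0 := by intro x; rw [hDg]; exact hl x
      have hla : l a = 0 := by
        have h1 := hDg' a
        have h2 := hDg' 0
        rw [map_zero, zero_add, Dv] at h2
        rw [Dv, add_self2] at h1
        rw [zero_add] at h2
        have h3 : l a + c0 = c0 := by rw [← h1, ← h2]; ring
        simpa using h3
      obtain ⟨μ, hμ⟩ := exists_dual_one ha
      have hga : ∀ x, g (x + a) = g x + (l x + c0) := by
        intro x
        rw [← hDg' x, Dv]
        have := add_self_z (g x)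
        linear_combination -this
      -- the part where the derivative is one cancels
      have hcancel : ∑ x ∈ Finset.univ.filter (fun x : V => ¬ l x = c0), sg (g x) = 0 := by
        have h1 : ∑ x ∈ Finset.univ.filter (fun x : V => ¬ l x = c0), sg (g x) =
            ∑ x ∈ Finset.univ.filter (fun x : V => ¬ l x = c0), sg (g (x + a)) := by
          refine Finset.sum_bij' (fun x _ => x + a) (fun x _ => x + a) ?_ ?_ ?_ ?_ ?_
          · intro x hx
            simp only [Finset.mem_filter, Finset.mem_univ, true_and] at hx ⊢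
            rw [map_add, hla, add_zero]; exact hx
          · intro x hx
            simp only [Finset.mem_filter, Finset.mem_univ, true_and] at hx ⊢
            rw [map_add, hla, add_zero]; exact hx
          · intro x _; rw [add_assoc, add_self2, add_zero]
          · intro x _; rw [add_assoc, add_self2, add_zero]
          · intro x _; rw [add_assoc, add_self2, add_zero]
        have h2 : ∑ x ∈ Finset.univ.filter (fun x : V => ¬ l x = c0), sg (g (x + a)) =
            - ∑ x ∈ Finset.univ.filter (fun x : V => ¬ l x = c0), sg (g x) := by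
          rw [← Finset.sum_neg_distrib]
          refine Finset.sum_congr rfl fun x hx => ?_
          simp only [Finset.mem_filter, Finset.mem_univ, true_and] at hx
          have key : ∀ u v : ZMod 2, ¬ u = v → u + v = 1 := by decide
          rw [hga, key _ _ hx, sg_add]; simp
        linarith
      have hsplit : ∑ x : V, sg (g x) =
          2 * ∑ x ∈ Finset.univ.filter (fun x : V => l x = c0 ∧ μ x = 0), sg (g x) := by
        have h1 := Finset.sum_filter_add_sum_filter_not (s := (Finset.univ : Finset V)) (fun x => l x = c0)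
          (fun x => sg (g x))
        rw [hcancel, add_zero] at h1
        rw [← h1]
        exact fold_sum (fun x : V => l x = c0) (fun x => sg (g x)) a μ hμ
          (fun x hx => by rw [map_add, hla, add_zero]; exact hx)
          (fun x hx => by
            rw [hga, hx, add_self_z, add_zero])
      rw [hsplit]
      by_cases hne : ∃ x0 : V, l x0 = c0 ∧ μ x0 = 0
      · obtain ⟨x0, hx0, hx0'⟩ := hne
        -- flat of codimension at most two
        set LL : List (V → ZMod 2) := [fun x => l x + (c0 + 1), fun x => μ x + 1] with hLL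
        have hkey : ∀ u v : ZMod 2, u = v ↔ u + (v + 1) = 1 := by decide
        have hkey0 : ∀ u : ZMod 2, u = 0 ↔ u + 1 = 1 := by decide
        have hLLaff : ∀ g ∈ LL, IsAff g := by
          intro g' hg'
          simp only [hLL, List.mem_cons, List.not_mem_nil, or_false] at hg'
          rcases hg' with rfl | rfl
          · exact ⟨l, c0 + 1, fun x => rfl⟩
          · exact ⟨μ, 1, fun x => rfl⟩
        have hiff : ∀ x, (l x = c0 ∧ μ x = 0) ↔ ∀ g ∈ LL, g x = 1 := by
          intro x
          simp only [hLL, List.mem_cons, List.not_mem_nil, or_false, forall_eq_or_imp, forall_eq]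
          rw [hkey (l x), hkey0 (μ x)]
        obtain ⟨K, hK, hKx⟩ := flat_param LL hLLaff x0 ((hiff x0).1 ⟨hx0, hx0'⟩)
        have hsum := sum_flat K x0 (fun x => sg (g x)) (fun x => l x = c0 ∧ μ x = 0)
          (fun x => (hiff x).trans (hKx x))
        rw [hsum]
        have hKn : Module.finrank (ZMod 2) K < n := by
          have h1 : a ∉ K := by
            intro haK
            have h2 : x0 + a + x0 ∈ K := by
              have : x0 + a + x0 = a := by
                calc x0 + a + x0 = a + (x0 + x0) := by abel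
                  _ = a := by rw [add_self2, add_zero]
              rw [this]; exact haK
            have h3 := ((hiff _).trans (hKx _)).2 h2
            have h4 := h3.2
            rw [map_add, hμ, hx0', zero_add] at h4
            exact absurd h4 (by decide)
          have h5 : K < ⊤ := lt_of_le_of_ne le_top (fun h => h1 (h ▸ Submodule.mem_top))
          have h6 := Submodule.finrank_lt_finrank_of_lt h5
          rw [finrank_top, hn] at h6
          exact h6
        have hlen : LL.length = 2 := by simp [hLL]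
        rw [hlen, hn] at hK
        have h7 := IH _ hKn K rfl (fun y : K => g (K.subtype y + x0)) (Core.comp ⟨q, L, h, hq, hh, hgx⟩ K.subtype x0)
        have h8 : (2 : ℤ) ^ ((n - s + 1) / 2) ∣ 2 * 2 ^ ((Module.finrank (ZMod 2) K - s + 1) / 2) := by
          rw [← pow_succ']
          apply pow_dvd_pow
          omega
        exact h8.trans (mul_dvd_mul_left 2 h7)
      · have : Finset.univ.filter (fun x : V => l x = c0 ∧ μ x = 0) = ∅ := by
          apply Finset.filter_eq_empty_iff.2
          intro x _ hx
          exact hne ⟨x, hx⟩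
        rw [this]; simp

section
variable {V : Type} [AddCommGroup V] [Module (ZMod 2) V] [Fintype V]

lemma core_flat {c s : ℕ} (hcs : c = 3 * s + 2) (hs : s ≤ 3) {g : V → ZMod 2} (hg : Core c g)
    (l : List (V → ZMod 2)) (hl : ∀ g ∈ l, IsAff g) (k n : ℕ)
    (hlen : l.length ≤ k) (hn : n ≤ Module.finrank (ZMod 2) V) (P : V → Prop) [DecidablePred P]
    (hP : ∀ x, P x ↔ ∀ g ∈ l, g x = 1) :
    (2 : ℤ) ^ ((n - (k + s) + 1) / 2) ∣ ∑ x ∈ Finset.univ.filter P, sg (g x) := by
  classical
  by_cases hne : ∃ x0 : V, ∀ g ∈ l, g x0 = 1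
  · obtain ⟨x0, hx0⟩ := hne
    obtain ⟨K, hK, hKx⟩ := flat_param l hl x0 hx0
    rw [sum_flat K x0 (fun x => sg (g x)) P (fun x => (hP x).trans (hKx x))]
    have h2 := core_sum c s hcs hs _ K rfl (fun y : K => g (K.subtype y + x0)) (hg.comp K.subtype x0)
    refine (pow_dvd_pow 2 ?_).trans h2
    omega
  · have : Finset.univ.filter P = ∅ := by
      apply Finset.filter_eq_empty_iff.2
      intro x _ hx
      exact hne ⟨x, (hP x).1 hx⟩
    rw [this]; simp

/-- the `j` affine conditions `L x = c` -/
def condList {j : ℕ} (L : V →ₗ[ZMod 2] (Fin j → ZMod 2)) (c : Fin j → ZMod 2) : List (V → ZMod 2) :=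
  List.ofFn (fun i => fun x : V => L x i + (c i + 1))

lemma condList_length {j : ℕ} (L : V →ₗ[ZMod 2] (Fin j → ZMod 2)) (c : Fin j → ZMod 2) :
    (condList L c).length = j := by simp [condList]

lemma condList_iff {j : ℕ} (L : V →ₗ[ZMod 2] (Fin j → ZMod 2)) (c : Fin j → ZMod 2) (x : V) :
    L x = c ↔ ∀ g ∈ condList L c, g x = 1 := by
  have key : ∀ a b : ZMod 2, a = b ↔ a + (b + 1) = 1 := by decide
  simp only [condList, List.mem_ofFn, forall_exists_index, forall_apply_eq_imp_iff]
  constructor
  · rintro rfl i; exact (key _ _).1 rfl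
  · intro h; funext i; exact (key _ _).2 (h i)

lemma condList_aff {j : ℕ} (L : V →ₗ[ZMod 2] (Fin j → ZMod 2)) (c : Fin j → ZMod 2) :
    ∀ g ∈ condList L c, IsAff g := by
  intro g hg
  simp only [condList, List.mem_ofFn] at hg
  obtain ⟨i, rfl⟩ := hg
  exact ⟨(LinearMap.proj i).comp L, c i + 1, fun x => rfl⟩

/-- sums over the pieces inside a flat given by a list `l'` of further affine conditions -/
lemma piece_sumC {j s c0 : ℕ} (hjs : j + s = 3) (hcs : c0 = 3 * s + 2) {f : V → ZMod 2}
    (L : V →ₗ[ZMod 2] (Fin j → ZMod 2)) (q : (Fin j → ZMod 2) → V → ZMod 2)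
    (hq : ∀ c, Core c0 (q c)) (hf : ∀ x, f x = q (L x) x) (φ : Du V) (l' : List (V → ZMod 2))
    (hl' : ∀ g ∈ l', IsAff g) (R : (Fin j → ZMod 2) → Prop) [DecidablePred R] (P : V → Prop) [DecidablePred P]
    (hP : ∀ x, P x ↔ R (L x) ∧ ∀ g ∈ l', g x = 1) (n k e : ℕ) (hn : n ≤ Module.finrank (ZMod 2) V)
    (hk : l'.length ≤ k) (he : e ≤ (n - (k + 3) + 1) / 2) :
    (2 : ℤ) ^ e ∣ ∑ x ∈ Finset.univ.filter P, sg (f x + φ x) := by
  classical
  have h1 : ∑ x ∈ Finset.univ.filter P, sg (f x + φ x) =
      ∑ c : Fin j → ZMod 2, ∑ x ∈ (Finset.univ.filter P).filter (fun x => L x = c), sg (f x + φ x) :=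
    (Finset.sum_fiberwise _ _ _).symm
  rw [h1]
  apply Finset.dvd_sum
  intro c _
  by_cases hR : R c
  · have h2 : ∑ x ∈ (Finset.univ.filter P).filter (fun x => L x = c), sg (f x + φ x) =
        ∑ x ∈ (Finset.univ.filter P).filter (fun x => L x = c), sg ((fun x => q c x + φ x) x) := by
      refine Finset.sum_congr rfl fun x hx => ?_
      rw [Finset.mem_filter] at hx
      rw [hf x, hx.2]
    rw [h2, Finset.filter_filter]
    refine (pow_dvd_pow 2 ?_).trans (core_flat hcs (by omega) ((hq c).addLin φ)
      (condList L c ++ l') ?_ (k + j) n ?_ hn _ ?_)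
    · have : k + j + s = k + 3 := by omega
      rw [this]; exact he
    · intro g hg
      rcases List.mem_append.1 hg with h | h
      · exact condList_aff L c g h
      · exact hl' g h
    · rw [List.length_append, condList_length]; omega
    · intro x
      rw [List.forall_mem_append, ← condList_iff, hP]
      constructor
      · rintro ⟨⟨_, h3⟩, h4⟩; exact ⟨h4, h3⟩
      · rintro ⟨h3, h4⟩; exact ⟨⟨by rw [h3]; exact hR, h4⟩, h3⟩
  · have h2 : (Finset.univ.filter P).filter (fun x => L x = c) = ∅ := by
      apply Finset.filter_eq_empty_iff.2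
      intro x hx h3
      rw [Finset.mem_filter] at hx
      have h4 := ((hP x).1 hx.2).1
      rw [h3] at h4
      exact hR h4
    rw [h2]; simp

end

/-- piecewise (quadratic plus cubic core): on each coset of a subspace of codimension `j`, a quadratic function
plus a cubic function of `3(3-j)+2` linear forms -/
def InQ {V : Type} [AddCommGroup V] [Module (ZMod 2) V] (f : V → ZMod 2) : Prop :=
  ∃ (j s : ℕ) (L : V →ₗ[ZMod 2] (Fin j → ZMod 2)) (q : (Fin j → ZMod 2) → V → ZMod 2),
    1 ≤ j ∧ 1 ≤ s ∧ j + s = 3 ∧ Function.Surjective L ∧ (∀ c, Core (3 * s + 2) (q c)) ∧ ∀ x, f x = q (L x) x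

section
variable {V : Type} [AddCommGroup V] [Module (ZMod 2) V] [Fintype V]

lemma InQ.HD {f : V → ZMod 2} (hf : InQ f) : HD f := by
  classical
  obtain ⟨j, s, L, q, _, _, hjs, _, hq, hfx⟩ := hf
  intro K φ
  have h3 : ∑ x ∈ Finset.univ.filter (fun x : V => x ∈ K), sg (f x + φ x) =
      ∑ y : K, sg (f (y.1 + 0) + φ (y.1 + 0)) :=
    sum_flat K 0 (fun x => sg (f x + φ x)) (fun x => x ∈ K) (by intro x; simp)
  have h4 : (2 : ℤ) ^ kap (Module.finrank (ZMod 2) K) ∣
      ∑ x ∈ Finset.univ.filter (fun x : V => x ∈ K), sg (f x + φ x) := by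
    rw [h3]
    have h5 := piece_sumC (V := K) hjs rfl (f := fun y : K => f (K.subtype y + 0)) (L.comp K.subtype)
      (fun c y => q c (K.subtype y + 0)) (fun c => (hq c).comp K.subtype 0)
      (by intro x; simp [hfx]) (φ.comp K.subtype) [] (by simp) (fun _ => True) (fun _ => True) (by simp)
      (Module.finrank (ZMod 2) K) 0 (kap (Module.finrank (ZMod 2) K)) le_rfl (by simp) (by unfold kap; omega)
    simpa using h5
  convert h4

/-- a quadratic function on a flat: the number of points where it is different from `δ` is zero or at least a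
quarter -/
lemma flat_weight {g : V → ZMod 2} (hg : Deg 2 g) (δ : ZMod 2) (l : List (V → ZMod 2)) (hl : ∀ g ∈ l, IsAff g)
    (j n : ℕ) (hlen : l.length ≤ j) (hn : Module.finrank (ZMod 2) V = n) (P : V → Prop)
    [DecidablePred P] (hP : ∀ x, P x ↔ ∀ g ∈ l, g x = 1)
    (hne : (Finset.univ.filter (fun x : V => g x ≠ δ ∧ P x)).card ≠ 0) :
    2 ^ n ≤ 2 ^ (j + 2) * (Finset.univ.filter (fun x : V => g x ≠ δ ∧ P x)).card := by
  classical
  obtain ⟨x0, hx0⟩ := Finset.card_pos.1 (Nat.pos_of_ne_zero hne)
  simp only [Finset.mem_filter, Finset.mem_univ, true_and] at hx0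
  obtain ⟨K, hK, hKx⟩ := flat_param l hl x0 ((hP x0).1 hx0.2)
  have h1 : (((Finset.univ.filter (fun x : V => g x ≠ δ ∧ P x)).card : ℕ) : ℤ) =
      ∑ x ∈ Finset.univ.filter P, (if g x ≠ δ then (1 : ℤ) else 0) := by
    rw [Finset.card_filter, Finset.sum_filter]
    push_cast
    refine Finset.sum_congr rfl fun x _ => ?_
    by_cases h2 : P x <;> by_cases h3 : g x ≠ δ <;> simp [h2, h3]
  rw [sum_flat K x0 (fun x => if g x ≠ δ then (1 : ℤ) else 0) P (fun x => (hP x).trans (hKx x))] at h1
  have h2 : (((Finset.univ.filter (fun y : K => (fun y : K => g (K.subtype y + x0)) y ≠ δ)).card : ℕ) : ℤ) =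
      ∑ y : K, (if g (y.1 + x0) ≠ δ then (1 : ℤ) else 0) := by
    rw [Finset.card_filter]
    push_cast
    rfl
  have h3 := weight2 (V := K) (hg.comp K.subtype x0) δ ⟨0, by simpa using hx0.1⟩
  have htot : (Finset.univ.filter (fun y : K => (fun y : K => g (K.subtype y + x0)) y = δ)).card +
      (Finset.univ.filter (fun y : K => (fun y : K => g (K.subtype y + x0)) y ≠ δ)).card = Fintype.card K := by
    rw [Finset.card_filter_add_card_filter_not]; rfl
  have h4 : (Finset.univ.filter (fun x : V => g x ≠ δ ∧ P x)).card =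
      (Finset.univ.filter (fun y : K => (fun y : K => g (K.subtype y + x0)) y ≠ δ)).card := by
    have : (((Finset.univ.filter (fun x : V => g x ≠ δ ∧ P x)).card : ℕ) : ℤ) =
        (((Finset.univ.filter (fun y : K => (fun y : K => g (K.subtype y + x0)) y ≠ δ)).card : ℕ) : ℤ) := by
      rw [h1, h2]
    exact_mod_cast this
  rw [h4]
  have h5 : 2 ^ n ≤ 2 ^ j * Fintype.card K := by
    rw [card_V, ← pow_add]
    apply Nat.pow_le_pow_right (by norm_num)
    omega
  have h6 : Fintype.card K ≤ 4 * (Finset.univ.filter (fun y : K => (fun y : K => g (K.subtype y + x0)) y ≠ δ)).card := by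
    have h3' : 4 * (Finset.univ.filter (fun y : K => (fun y : K => g (K.subtype y + x0)) y = δ)).card ≤
      3 * Fintype.card K := h3
    omega
  calc 2 ^ n ≤ 2 ^ j * Fintype.card K := h5
    _ ≤ 2 ^ j * (4 * _) := Nat.mul_le_mul_left _ h6
    _ = _ := by rw [pow_add]; ring

end

end Pool.Agent.Work.MP_39d092_co.NL
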