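import Mathlib

/-!
# Fourth moments and the nonlinearity of (n,n)-functions: definitions and elementary facts (helper5)
-/

set_option autoImplicit false
open scoped BigOperators

namespace Pool.Agent.Work.MP_39d092_co.NL

/-- the sign `(-1)^a` -/
def sg (a : ZMod 2) : ℤ := if a = 0 then 1 else -1

section
variable {V : Type} [AddCommGroup V] [Module (ZMod 2) V]

/-- linear functionals -/
abbrev Du (V : Type) [AddCommGroup V] [Module (ZMod 2) V] : Type := V →ₗ[ZMod 2] ZMod 2

/-- affine functions -/
def IsAff (g : V → ZMod 2) : Prop := ∃ (φ : Du V) (c : ZMod 2), ∀ x, g x = φ x + c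

/-- algebraic degree at most `d`: sums of products of at most `d` affine functions -/
inductive Deg (d : ℕ) : (V → ZMod 2) → Prop
  | zero : Deg d (fun _ => 0)
  | add {f g : V → ZMod 2} : Deg d f → Deg d g → Deg d (fun x => f x + g x)
  | prod (l : List (V → ZMod 2)) : (∀ g ∈ l, IsAff g) → l.length ≤ d →
      Deg d (fun x => (l.map (fun g => g x)).prod)

/-- derivative of `f` in direction `a` -/
def Dv (a : V) (f : V → ZMod 2) : V → ZMod 2 := fun x => f (x + a) + f x

/-- the exponent `max 0 ⌈(m-3)/2⌉` -/
def kap (m : ℕ) : ℕ := (m - 2) / 2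

variable [Fintype V]

noncomputable instance instFintypeDu : Fintype (Du V) := @Fintype.ofFinite _ (DFunLike.finite _)

/-- Walsh transform -/
noncomputable def W (f : V → ZMod 2) (φ : Du V) : ℤ := ∑ x : V, sg (f x + φ x)

open Classical in
/-- hereditary divisibility: all sums over linear subspaces `K` of `(-1)^(f+φ)` are divisible by `2^⌈(dim K - 3)/2⌉`. -/
def HD (f : V → ZMod 2) : Prop :=
  ∀ (K : Submodule (ZMod 2) V) (φ : Du V),
    (2 : ℤ) ^ kap (Module.finrank (ZMod 2) K) ∣
      ∑ x ∈ Finset.univ.filter (fun x : V => x ∈ K), sg (f x + φ x)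

end

/-! ### signs -/

lemma z2 (a : ZMod 2) : a = 0 ∨ a = 1 := by revert a; decide

@[simp] lemma sg_zero : sg 0 = 1 := by simp [sg]
@[simp] lemma sg_one : sg 1 = -1 := by simp [sg]

lemma sg_add (a b : ZMod 2) : sg (a + b) = sg a * sg b := by
  have h : ∀ a b : ZMod 2, (if a + b = 0 then (1 : ℤ) else -1) =
    (if a = 0 then 1 else -1) * (if b = 0 then 1 else -1) := by decide
  exact h a b

lemma sg_sq (a : ZMod 2) : sg a * sg a = 1 := by
  rcases z2 a with rfl | rfl <;> simp

lemma sg_abs (a : ZMod 2) : |sg a| = 1 := by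
  rcases z2 a with rfl | rfl <;> simp

lemma add_self2 {V : Type} [AddCommGroup V] [Module (ZMod 2) V] (x : V) : x + x = 0 := by
  have : (2 : ZMod 2) • x = 0 := by
    have h : (2 : ZMod 2) = 0 := by decide
    rw [h, zero_smul]
  rw [two_smul] at this
  exact this

lemma add_self_z (a : ZMod 2) : a + a = 0 := by rcases z2 a with rfl | rfl <;> decide

/-! ### degree calculus -/
section
variable {V : Type} [AddCommGroup V] [Module (ZMod 2) V]

lemma IsAff.const (c : ZMod 2) : IsAff (fun _ : V => c) := ⟨0, c, by simp⟩

lemma IsAff.add {f g : V → ZMod 2} (hf : IsAff f) (hg : IsAff g) : IsAff (fun x => f x + g x) := by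
  obtain ⟨φ, c, h⟩ := hf
  obtain ⟨ψ, d, h'⟩ := hg
  exact ⟨φ + ψ, c + d, fun x => by simp only [h, h', LinearMap.add_apply]; ring⟩

lemma IsAff.comp {V' : Type} [AddCommGroup V'] [Module (ZMod 2) V'] {f : V → ZMod 2} (hf : IsAff f)
    (ι : V' →ₗ[ZMod 2] V) (b : V) : IsAff (fun x => f (ι x + b)) := by
  obtain ⟨φ, c, h⟩ := hf
  exact ⟨φ.comp ι, φ b + c, fun x => by simp [h, add_assoc]⟩

lemma Deg.mono {d e : ℕ} (hde : d ≤ e) {f : V → ZMod 2} (hf : Deg d f) : Deg e f := by
  induction hf with
  | zero => exact Deg.zero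
  | add _ _ ih1 ih2 => exact Deg.add ih1 ih2
  | prod l hl hlen => exact Deg.prod l hl (hlen.trans hde)

lemma Deg.comp {V' : Type} [AddCommGroup V'] [Module (ZMod 2) V'] {d : ℕ} {f : V → ZMod 2} (hf : Deg d f)
    (ι : V' →ₗ[ZMod 2] V) (b : V) : Deg d (fun x => f (ι x + b)) := by
  induction hf with
  | zero => exact Deg.zero
  | add _ _ ih1 ih2 => exact Deg.add ih1 ih2
  | prod l hl hlen =>
    have := Deg.prod (V := V') (d := d) (l.map (fun g => fun x => g (ι x + b)))
      (by
        intro g hg
        obtain ⟨g', hg', rfl⟩ := List.mem_map.1 hg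
        exact (hl g' hg').comp ι b) (by simpa using hlen)
    simpa [List.map_map, Function.comp_def] using this

lemma Deg.aff {d : ℕ} (hd : 1 ≤ d) {f : V → ZMod 2} (hf : IsAff f) : Deg d f := by
  have := Deg.prod (V := V) (d := d) [f] (by simpa using hf) (by simpa using hd)
  simpa using this

lemma Deg.const (d : ℕ) (c : ZMod 2) : Deg d (fun _ : V => c) := by
  rcases z2 c with rfl | rfl
  · exact Deg.zero
  · have := Deg.prod (V := V) (d := d) [] (by simp) (by simp)
    simpa using this

/-- multiplying by an affine function raises the degree by at most one -/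
lemma Deg.mulAff {d : ℕ} {f : V → ZMod 2} (hf : Deg d f) {g : V → ZMod 2} (hg : IsAff g) :
    Deg (d + 1) (fun x => g x * f x) := by
  induction hf with
  | zero => simpa using Deg.zero (V := V) (d := d + 1)
  | add _ _ ih1 ih2 =>
    have := Deg.add ih1 ih2
    simpa [mul_add] using this
  | prod l hl hlen =>
    have := Deg.prod (V := V) (d := d + 1) (g :: l) (by
      intro g' hg'
      rcases List.mem_cons.1 hg' with rfl | h
      · exact hg
      · exact hl _ h) (by simpa using hlen)
    simpa using this

lemma Deg.dv_prod (a : V) : ∀ l : List (V → ZMod 2), (∀ g ∈ l, IsAff g) → ∀ e, l.length ≤ e + 1 →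
    Deg e (Dv a (fun x => (l.map (fun g => g x)).prod)) := by
  intro l
  induction l with
  | nil =>
    intro _ e _
    have : (Dv a (fun x : V => (([] : List (V → ZMod 2)).map (fun g => g x)).prod)) = fun _ => 0 := by
      funext x; simp only [Dv, List.map_nil, List.prod_nil]; decide
    rw [this]; exact Deg.zero
  | cons g l ih =>
    intro hl e hlen
    have hg : IsAff g := hl g (by simp)
    have hl' : ∀ g' ∈ l, IsAff g' := fun g' h => hl g' (by simp [h])
    have hg0 := hg
    obtain ⟨φ, c, hφ⟩ := hg
    have hp : Deg e (fun x => (l.map (fun g => g x)).prod) :=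
      Deg.prod l hl' (by simpa using hlen)
    have h2 : Dv a (fun x => ((g :: l).map (fun g => g x)).prod) =
        fun x => (g x + φ a) * (Dv a (fun x => (l.map (fun g => g x)).prod) x) +
          φ a * (l.map (fun g => g x)).prod := by
      funext x
      have hga : g (x + a) = g x + φ a := by rw [hφ, hφ]; simp [map_add]; ring
      simp only [Dv, List.map_cons, List.prod_cons]
      rw [hga]
      have h4 : (2 : ZMod 2) = 0 := by decide
      linear_combination (-(φ a) * (l.map (fun g => g x)).prod) * h4
    rw [h2]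
    refine Deg.add ?_ ?_
    · cases e with
      | zero =>
        have h0 : l = [] := by
          have : l.length ≤ 0 := by simpa using hlen
          exact List.length_eq_zero_iff.1 (Nat.le_zero.1 this)
        subst h0
        have h5 : (fun x => (g x + φ a) * (Dv a (fun x => (([] : List (V → ZMod 2)).map (fun g => g x)).prod) x)) =
            fun _ => 0 := by
          funext x
          have : Dv a (fun x => (([] : List (V → ZMod 2)).map (fun g => g x)).prod) x = 0 := by
            simp only [Dv, List.map_nil, List.prod_nil]; decide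
          rw [this, mul_zero]
        rw [h5]; exact Deg.zero
      | succ e =>
        have h6 := ih hl' e (by simpa using hlen)
        exact Deg.mulAff h6 (IsAff.add hg0 (IsAff.const _))
    · rcases z2 (φ a) with h | h
      · simp only [h, zero_mul]; exact Deg.zero
      · simpa only [h, one_mul] using hp

lemma Deg.dv {e : ℕ} {f : V → ZMod 2} (hf : Deg (e + 1) f) (a : V) : Deg e (Dv a f) := by
  induction hf with
  | zero =>
    have : (Dv a (fun _ : V => (0 : ZMod 2))) = fun _ => 0 := by funext x; simp [Dv]
    rw [this]; exact Deg.zero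
  | @add f g _ _ ih1 ih2 =>
    have := Deg.add ih1 ih2
    have h2 : Dv a (fun x => f x + g x) = fun x => Dv a f x + Dv a g x := by
      funext x; simp only [Dv]; ring
    rw [h2]; exact this
  | prod l hl hlen => exact Deg.dv_prod a l hl e hlen

lemma Deg.isAff {f : V → ZMod 2} (hf : Deg 1 f) : IsAff f := by
  induction hf with
  | zero => exact IsAff.const 0
  | add _ _ ih1 ih2 => exact IsAff.add ih1 ih2
  | prod l hl hlen =>
    match l, hl, hlen with
    | [], _, _ => simpa using IsAff.const (V := V) 1
    | [g], hl, _ => simpa using hl g (by simp)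

lemma Deg.isConst {f : V → ZMod 2} (hf : Deg 0 f) : ∃ c, ∀ x, f x = c := by
  induction hf with
  | zero => exact ⟨0, fun _ => rfl⟩
  | add _ _ ih1 ih2 =>
    obtain ⟨c, h⟩ := ih1
    obtain ⟨d, h'⟩ := ih2
    exact ⟨c + d, fun x => by simp only [h, h']⟩
  | prod l hl hlen =>
    have h0 : l = [] := List.length_eq_zero_iff.1 (Nat.le_zero.1 hlen)
    subst h0
    exact ⟨1, fun x => by simp⟩

end

end Pool.Agent.Work.MP_39d092_co.NL
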