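import Pool.Agent.Work.MP_39d092_co.NL.Fourier

set_option autoImplicit false
open scoped BigOperators

namespace Pool.Agent.Work.MP_39d092_co.NL

section
variable {V : Type} [AddCommGroup V] [Module (ZMod 2) V] [Fintype V]

lemma one_add_sg (a : ZMod 2) : 1 + sg a = if a = 0 then 2 else 0 := by
  rcases z2 a with rfl | rfl
  · simp
  · simp

lemma W_add1 (f : V → ZMod 2) (φ α : Du V) :
    W f φ + W f (φ + α) = 2 * ∑ x ∈ Finset.univ.filter (fun x : V => α x = 0), sg (f x + φ x) := by
  unfold W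
  rw [← Finset.sum_add_distrib, Finset.sum_filter, Finset.mul_sum]
  refine Finset.sum_congr rfl fun x _ => ?_
  simp only [LinearMap.add_apply]
  rw [show f x + (φ x + α x) = (f x + φ x) + α x by ring, sg_add _ (α x)]
  rcases z2 (α x) with h | h <;> simp [h] <;> ring

lemma W_add2 (f : V → ZMod 2) (φ α β : Du V) :
    W f φ + W f (φ + α) + W f (φ + β) + W f (φ + α + β) =
      4 * ∑ x ∈ Finset.univ.filter (fun x : V => α x = 0 ∧ β x = 0), sg (f x + φ x) := by
  unfold W
  rw [← Finset.sum_add_distrib, ← Finset.sum_add_distrib, ← Finset.sum_add_distrib, Finset.sum_filter,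
    Finset.mul_sum]
  refine Finset.sum_congr rfl fun x _ => ?_
  simp only [LinearMap.add_apply]
  rw [show f x + (φ x + α x) = (f x + φ x) + α x by ring,
    show f x + (φ x + β x) = (f x + φ x) + β x by ring,
    show f x + (φ x + α x + β x) = (f x + φ x) + α x + β x by ring,
    sg_add _ (β x), sg_add _ (β x), sg_add _ (α x)]
  rcases z2 (α x) with h | h <;> rcases z2 (β x) with h' | h' <;> simp [h, h'] <;> ring

lemma W_add3 (f : V → ZMod 2) (φ α β γ : Du V) :
    W f φ + W f (φ + α) + W f (φ + β) + W f (φ + α + β) +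
      W f (φ + γ) + W f (φ + α + γ) + W f (φ + β + γ) + W f (φ + α + β + γ) =
      8 * ∑ x ∈ Finset.univ.filter (fun x : V => α x = 0 ∧ β x = 0 ∧ γ x = 0), sg (f x + φ x) := by
  unfold W
  simp only [← Finset.sum_add_distrib]
  rw [Finset.sum_filter, Finset.mul_sum]
  refine Finset.sum_congr rfl fun x _ => ?_
  simp only [LinearMap.add_apply]
  rw [show f x + (φ x + α x) = (f x + φ x) + α x by ring,
    show f x + (φ x + β x) = (f x + φ x) + β x by ring,
    show f x + (φ x + α x + β x) = (f x + φ x) + α x + β x by ring,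
    show f x + (φ x + γ x) = (f x + φ x) + γ x by ring,
    show f x + (φ x + α x + γ x) = (f x + φ x) + α x + γ x by ring,
    show f x + (φ x + β x + γ x) = (f x + φ x) + β x + γ x by ring,
    show f x + (φ x + α x + β x + γ x) = (f x + φ x) + α x + β x + γ x by ring]
  simp only [sg_add _ (γ x), sg_add _ (β x), sg_add _ (α x)]
  rcases z2 (α x) with h | h <;> rcases z2 (β x) with h' | h' <;> rcases z2 (γ x) with h'' | h'' <;>
    simp [h, h', h''] <;> ring

lemma finrank_inf_ker (K : Submodule (ZMod 2) V) (α : Du V) :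
    Module.finrank (ZMod 2) K ≤ Module.finrank (ZMod 2) ↥(K ⊓ LinearMap.ker α) + 1 := by
  have h1 := Submodule.finrank_sup_add_finrank_inf_eq K (LinearMap.ker α)
  have h2 := Submodule.finrank_le (K ⊔ LinearMap.ker α)
  have h3 := LinearMap.finrank_range_add_finrank_ker α
  have h4 : Module.finrank (ZMod 2) (LinearMap.range α) ≤ 1 := by
    have := Submodule.finrank_le (LinearMap.range α)
    simpa using this
  omega

lemma finrank_ker1 (α : Du V) :
    Module.finrank (ZMod 2) V ≤ Module.finrank (ZMod 2) ↥(LinearMap.ker α) + 1 := by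
  have h3 := LinearMap.finrank_range_add_finrank_ker α
  have h4 : Module.finrank (ZMod 2) (LinearMap.range α) ≤ 1 := by
    have := Submodule.finrank_le (LinearMap.range α)
    simpa using this
  omega

lemma kap_mono {a b : ℕ} (h : a ≤ b) : kap a ≤ kap b := by unfold kap; omega

lemma HD.dvd {f : V → ZMod 2} (hf : HD f) (K : Submodule (ZMod 2) V) (φ : Du V) (P : V → Prop)
    [DecidablePred P] (hP : ∀ x, P x ↔ x ∈ K) {k m : ℕ} (hm : m ≤ Module.finrank (ZMod 2) K) (hk : k ≤ kap m) :
    (2 : ℤ) ^ k ∣ ∑ x ∈ Finset.univ.filter P, sg (f x + φ x) := by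
  classical
  have h := hf K φ
  have h2 : ∑ x ∈ Finset.univ.filter P, sg (f x + φ x) =
      ∑ x ∈ Finset.univ.filter (fun x : V => x ∈ K), sg (f x + φ x) := by
    apply Finset.sum_congr _ (fun _ _ => rfl)
    ext x; simp [hP]
  rw [h2]
  refine (pow_dvd_pow 2 (hk.trans (kap_mono hm))).trans ?_
  convert h

lemma HD.w0 {f : V → ZMod 2} (hf : HD f) (φ : Du V) :
    (2 : ℤ) ^ kap (Module.finrank (ZMod 2) V) ∣ W f φ := by
  have h := hf.dvd ⊤ φ (fun _ => True) (by simp) (k := kap (Module.finrank (ZMod 2) V))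
    (m := Module.finrank (ZMod 2) V) (by simp) le_rfl
  simpa [W] using h

lemma HD.w1 {f : V → ZMod 2} (hf : HD f) (φ α : Du V) :
    (2 : ℤ) * 2 ^ kap (Module.finrank (ZMod 2) V - 1) ∣ W f φ + W f (φ + α) := by
  rw [W_add1]
  apply mul_dvd_mul_left
  refine hf.dvd (LinearMap.ker α) φ _ (by simp) (m := Module.finrank (ZMod 2) V - 1) ?_ le_rfl
  have := finrank_ker1 α
  omega

lemma HD.w2 {f : V → ZMod 2} (hf : HD f) (φ α β : Du V) :
    (4 : ℤ) * 2 ^ kap (Module.finrank (ZMod 2) V - 2) ∣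
      W f φ + W f (φ + α) + W f (φ + β) + W f (φ + α + β) := by
  rw [W_add2]
  apply mul_dvd_mul_left
  refine hf.dvd (LinearMap.ker α ⊓ LinearMap.ker β) φ _ (by simp) (m := Module.finrank (ZMod 2) V - 2) ?_ le_rfl
  have h1 := finrank_ker1 α
  have h2 := finrank_inf_ker (LinearMap.ker α) β
  omega

lemma HD.w3 {f : V → ZMod 2} (hf : HD f) (φ α β γ : Du V) :
    (8 : ℤ) * 2 ^ kap (Module.finrank (ZMod 2) V - 3) ∣
      W f φ + W f (φ + α) + W f (φ + β) + W f (φ + α + β) +
      W f (φ + γ) + W f (φ + α + γ) + W f (φ + β + γ) + W f (φ + α + β + γ) := by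
  rw [W_add3]
  apply mul_dvd_mul_left
  refine hf.dvd (LinearMap.ker α ⊓ LinearMap.ker β ⊓ LinearMap.ker γ) φ _ (by simp [and_assoc])
    (m := Module.finrank (ZMod 2) V - 3) ?_ le_rfl
  have h1 := finrank_ker1 α
  have h2 := finrank_inf_ker (LinearMap.ker α) β
  have h3 := finrank_inf_ker (LinearMap.ker α ⊓ LinearMap.ker β) γ
  omega

end

end Pool.Agent.Work.MP_39d092_co.NL
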