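import Pool.Agent.Work.MP_39d092_co.NL.Odd

set_option autoImplicit false
open scoped BigOperators

namespace Pool.Agent.Work.MP_39d092_co.NL

section
variable {V : Type} [AddCommGroup V] [Module (ZMod 2) V] [Fintype V]

lemma affine_repr (c : Du V → ZMod 2)
    (h : ∀ φ β γ, c φ + c (φ + β) + c (φ + γ) + c (φ + β + γ) = 0) :
    ∃ e : V, ∀ φ, c φ = φ e + c 0 := by
  let ℓ : Du V →+ ZMod 2 :=
    { toFun := fun φ => c φ + c 0
      map_zero' := add_self_z _
      map_add' := by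
        intro φ ψ
        have h1 := h 0 φ ψ
        simp only [zero_add] at h1
        have h2 := add_self_z (c φ)
        have h3 := add_self_z (c ψ)
        have h4 := add_self_z (c 0)
        show c (φ + ψ) + c 0 = c φ + c 0 + (c ψ + c 0)
        linear_combination h1 - h2 - h3 - h4 }
  let L : Du (Du V) := ℓ.toZModLinearMap 2
  have hL : ∀ φ, c φ = L φ + c 0 := by
    intro φ
    show c φ = c φ + c 0 + c 0
    rw [add_assoc, add_self_z, add_zero]
  obtain ⟨e, he⟩ := (Module.evalEquiv (ZMod 2) V).surjective L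
  refine ⟨e, fun φ => ?_⟩
  rw [hL φ, ← he]
  simp

lemma sum_sg_count (g : V → ZMod 2) (δ : ZMod 2) :
    sg δ * ∑ x : V, sg (g x) =
      2 * ((Finset.univ.filter (fun x : V => g x = δ)).card : ℤ) - Fintype.card V := by
  have h1 : sg δ * ∑ x : V, sg (g x) = ∑ x : V, (2 * (if g x = δ then (1 : ℤ) else 0) - 1) := by
    rw [Finset.mul_sum]
    refine Finset.sum_congr rfl fun x _ => ?_
    rcases z2 (g x) with h | h <;> rcases z2 δ with h' | h' <;> rw [h, h'] <;> simp
  rw [h1, Finset.sum_sub_distrib, ← Finset.mul_sum, Finset.sum_boole]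
  simp

theorem even_core (f : V → ZMod 2) (hf : HD f) (m : ℕ) (hn : Module.finrank (ZMod 2) V = 2 * m + 2)
    (hb : ∀ φ : Du V, |W f φ| < 2 ^ (m + 2)) :
    64 * ∑ φ : Du V, W f φ ^ 4 ≤ 127 * (2 ^ (2 * m + 2)) ^ 3 ∨
    ∃ (e : V) (δ : ZMod 2) (w : Du V → ℤ), e ≠ 0 ∧ (∀ φ, W f φ = 2 ^ m * w φ) ∧
      (∀ φ, φ e = δ → Odd (w φ)) ∧ (∀ φ, φ e ≠ δ → Even (w φ)) ∧
      27 * 2 ^ (2 * m + 2) < 32 * (Finset.univ.filter (fun x : V => Dv e f x = δ)).card := by
  have hcard : (Fintype.card V : ℤ) = 2 ^ (2 * m + 2) := by rw [card_V, hn]; push_cast; ring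
  have hcardD : (Fintype.card (Du V) : ℤ) = 2 ^ (2 * m + 2) := by rw [card_du]; exact hcard
  have hpars := parseval f
  set r : ℤ := 2 ^ m with hr
  have hrpos : 0 < r := by positivity
  set N : ℤ := 2 ^ (2 * m + 2) with hN
  have hNr : N = 4 * r ^ 2 := by rw [hN, hr]; ring
  have hNpos : 0 < N := by positivity
  have hw : ∀ φ, ∃ w : ℤ, W f φ = r * w := by
    intro φ
    have h := hf.w0 φ
    have : kap (Module.finrank (ZMod 2) V) = m := by rw [hn]; unfold kap; omega
    rw [this] at h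
    exact h
  choose w hw using hw
  have hwlt : ∀ φ, |w φ| < 4 := by
    intro φ
    have h := hb φ
    rw [hw, abs_mul, abs_of_pos hrpos] at h
    have : (2 : ℤ) ^ (m + 2) = r * 4 := by rw [hr]; ring
    rw [this] at h
    exact lt_of_mul_lt_mul_left h hrpos.le
  have hw2 : ∀ φ α β, (2 : ℤ) ∣ w φ + w (φ + α) + w (φ + β) + w (φ + α + β) := by
    intro φ α β
    have h := hf.w2 φ α β
    have h1 : r * 2 ∣ (4 : ℤ) * 2 ^ kap (Module.finrank (ZMod 2) V - 2) := by
      rw [hn, hr]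
      have h2 : (4 : ℤ) * 2 ^ kap (2 * m + 2 - 2) = 2 ^ (2 + kap (2 * m + 2 - 2)) := by
        rw [pow_add]; norm_num
      have h3 : (2 : ℤ) ^ m * 2 = 2 ^ (m + 1) := by rw [pow_succ]
      rw [h2, h3]
      apply pow_dvd_pow
      unfold kap; omega
    have h4 := h1.trans h
    simp only [hw, ← mul_add] at h4
    exact Int.dvd_of_mul_dvd_mul_left hrpos.ne' h4
  have hsum : ∑ φ : Du V, w φ ^ 2 = 4 * N := by
    have h1 : ∑ φ : Du V, W f φ ^ 2 = r ^ 2 * ∑ φ : Du V, w φ ^ 2 := by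
      rw [Finset.mul_sum]
      refine Finset.sum_congr rfl fun φ _ => ?_
      rw [hw]; ring
    rw [h1, hcard] at hpars
    have h2 : N ^ 2 = r ^ 2 * (4 * N) := by
      rw [sq N]; nth_rewrite 1 [hNr]; ring
    rw [h2] at hpars
    exact mul_left_cancel₀ (by positivity) hpars
  have h4eq : ∑ φ : Du V, W f φ ^ 4 = r ^ 4 * ∑ φ : Du V, w φ ^ 4 := by
    rw [Finset.mul_sum]
    refine Finset.sum_congr rfl fun φ _ => ?_
    rw [hw]; ring
  have hN3 : 127 * N ^ 3 = r ^ 4 * (2032 * N) := by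
    have : N ^ 3 = N * N ^ 2 := by ring
    rw [this]
    have : N ^ 2 = 16 * r ^ 4 := by rw [hNr]; ring
    rw [this]; ring
  obtain ⟨e, he⟩ := affine_repr (fun φ => (w φ : ZMod 2)) (by
    intro φ α β
    obtain ⟨u, hu⟩ := hw2 φ α β
    have h3 := congrArg (fun z : ℤ => (z : ZMod 2)) hu
    push_cast at h3
    have h4 : (2 : ZMod 2) = 0 := by decide
    show (w φ : ZMod 2) + (w (φ + α) : ZMod 2) + (w (φ + β) : ZMod 2) + (w (φ + α + β) : ZMod 2) = 0
    rw [h3, h4, zero_mul])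
  set δ : ZMod 2 := 1 + (w 0 : ZMod 2) with hδ
  have hodd : ∀ φ : Du V, φ e = δ → Odd (w φ) := by
    intro φ h
    have h1 : (w φ : ZMod 2) = φ e + (w 0 : ZMod 2) := he φ
    rw [h, hδ] at h1
    rw [← Int.not_even_iff_odd, ← ZMod.intCast_eq_zero_iff_even (n := w φ)]
    rw [h1, add_assoc, add_self_z, add_zero]; decide
  have heven : ∀ φ : Du V, φ e ≠ δ → Even (w φ) := by
    intro φ h
    have h1 : (w φ : ZMod 2) = φ e + (w 0 : ZMod 2) := he φ
    rw [← ZMod.intCast_eq_zero_iff_even]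
    rw [h1]
    have key : ∀ a c : ZMod 2, a ≠ 1 + c → a + c = 0 := by decide
    exact key _ _ h
  have hpt : ∀ φ : Du V, 2 * w φ ^ 4 = 8 * w φ ^ 2 + (6 * w φ ^ 2 - 9) * (1 + sg δ * sg (φ e)) := by
    intro φ
    have h1 := hwlt φ
    rw [abs_lt] at h1
    by_cases h : φ e = δ
    · have h2 := hodd φ h
      rw [h, sg_sq]
      obtain ⟨t, ht⟩ := h2
      have h3 : t = -2 ∨ t = -1 ∨ t = 0 ∨ t = 1 := by omega
      rcases h3 with h | h | h | h <;> rw [ht, h] <;> norm_num
    · have h2 := heven φ h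
      have h4 : 1 + sg δ * sg (φ e) = 0 := by
        have key : ∀ a c : ZMod 2, a ≠ c → (1 : ℤ) + (if c = 0 then 1 else -1) * (if a = 0 then 1 else -1) = 0 := by
          decide
        exact key _ _ h
      rw [h4]
      obtain ⟨t, ht⟩ := h2
      have h3 : t = -1 ∨ t = 0 ∨ t = 1 := by omega
      rcases h3 with h | h | h <;> rw [ht, h] <;> norm_num
  have hsum4 : 2 * ∑ φ : Du V, w φ ^ 4 = 8 * (4 * N) + (6 * (4 * N) - 9 * N) +
      sg δ * (∑ φ : Du V, 6 * (w φ ^ 2 * sg (φ e)) - 9 * ∑ φ : Du V, sg (φ e)) := by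
    rw [Finset.mul_sum, Finset.sum_congr rfl fun φ _ => hpt φ, Finset.sum_add_distrib, ← Finset.mul_sum, hsum]
    have h1 : ∀ φ : Du V, (6 * w φ ^ 2 - 9) * (1 + sg δ * sg (φ e)) =
        (6 * w φ ^ 2 - 9) + sg δ * (6 * (w φ ^ 2 * sg (φ e)) - 9 * sg (φ e)) := by
      intro φ; ring
    rw [Finset.sum_congr rfl fun φ _ => h1 φ, Finset.sum_add_distrib, Finset.sum_sub_distrib, ← Finset.mul_sum,
      hsum, ← Finset.mul_sum, Finset.sum_sub_distrib, ← Finset.mul_sum (a := (9 : ℤ))]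
    simp only [Finset.sum_const, Finset.card_univ, nsmul_eq_mul]
    rw [hcardD]; ring
  by_cases he0 : e = 0
  · -- constant parity
    left
    rw [h4eq, hN3, mul_left_comm]
    apply mul_le_mul_of_nonneg_left _ (by positivity)
    have h1 : ∀ φ : Du V, w φ ^ 4 ≤ 10 * w φ ^ 2 - 9 ∨ w φ ^ 4 ≤ 4 * w φ ^ 2 := by
      intro φ
      have h1 := hwlt φ
      rw [abs_lt] at h1
      rcases Int.even_or_odd (w φ) with ⟨t, ht⟩ | ⟨t, ht⟩
      · right
        have h3 : t = -1 ∨ t = 0 ∨ t = 1 := by omega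
        rcases h3 with h | h | h <;> rw [ht, h] <;> norm_num
      · left
        have h3 : t = -2 ∨ t = -1 ∨ t = 0 ∨ t = 1 := by omega
        rcases h3 with h | h | h | h <;> rw [ht, h] <;> norm_num
    by_cases hd : (0 : ZMod 2) = δ
    · -- all odd
      have h2 : ∀ φ : Du V, w φ ^ 4 ≤ 10 * w φ ^ 2 - 9 := by
        intro φ
        have ho := hodd φ (by rw [he0]; simpa using hd)
        have h1 := hwlt φ
        rw [abs_lt] at h1
        obtain ⟨t, ht⟩ := ho
        have h3 : t = -2 ∨ t = -1 ∨ t = 0 ∨ t = 1 := by omega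
        rcases h3 with h | h | h | h <;> rw [ht, h] <;> norm_num
      have h3 := Finset.sum_le_sum (fun φ (_ : φ ∈ (Finset.univ : Finset (Du V))) => h2 φ)
      rw [Finset.sum_sub_distrib, ← Finset.mul_sum, hsum] at h3
      simp only [Finset.sum_const, Finset.card_univ, nsmul_eq_mul] at h3
      rw [hcardD] at h3
      linarith
    · have h2 : ∀ φ : Du V, w φ ^ 4 ≤ 4 * w φ ^ 2 := by
        intro φ
        have ho := heven φ (by rw [he0]; simpa using hd)
        have h1 := hwlt φ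
        rw [abs_lt] at h1
        obtain ⟨t, ht⟩ := ho
        have h3 : t = -1 ∨ t = 0 ∨ t = 1 := by omega
        rcases h3 with h | h | h <;> rw [ht, h] <;> norm_num
      have h3 := Finset.sum_le_sum (fun φ (_ : φ ∈ (Finset.univ : Finset (Du V))) => h2 φ)
      rw [← Finset.mul_sum, hsum] at h3
      linarith
  · by_cases hbad : 27 * 2 ^ (2 * m + 2) < 32 * (Finset.univ.filter (fun x : V => Dv e f x = δ)).card
    · right
      exact ⟨e, δ, w, he0, hw, hodd, heven, hbad⟩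
    · left
      have hz : ∑ φ : Du V, sg (φ e) = 0 := by rw [sum_dual_sg, if_neg he0]
      have hp := parseval_sg f e
      have h1 : ∑ φ : Du V, W f φ ^ 2 * sg (φ e) = r ^ 2 * ∑ φ : Du V, w φ ^ 2 * sg (φ e) := by
        rw [Finset.mul_sum]
        refine Finset.sum_congr rfl fun φ _ => ?_
        rw [hw]; ring
      rw [h1, hcard, hNr] at hp
      have h2 : ∑ φ : Du V, w φ ^ 2 * sg (φ e) = 4 * ∑ x : V, sg (Dv e f x) := by
        have : r ^ 2 * ∑ φ : Du V, w φ ^ 2 * sg (φ e) = r ^ 2 * (4 * ∑ x : V, sg (Dv e f x)) := by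
          rw [hp]; ring
        exact mul_left_cancel₀ (by positivity) this
      have h3 := sum_sg_count (Dv e f) δ
      rw [← Finset.mul_sum, h2, hz] at hsum4
      rw [hcard] at h3
      have h4 : 2 * ∑ φ : Du V, w φ ^ 4 =
          23 * N + 48 * ((Finset.univ.filter (fun x : V => Dv e f x = δ)).card : ℤ) := by
        rw [hsum4]
        have : sg δ * (6 * (4 * ∑ x : V, sg (Dv e f x)) - 9 * 0) = 24 * (sg δ * ∑ x : V, sg (Dv e f x)) := by ring
        rw [this, h3]; ring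
      push Not at hbad
      have h5 : 32 * ((Finset.univ.filter (fun x : V => Dv e f x = δ)).card : ℤ) ≤ 27 * N := by
        rw [hN]; exact_mod_cast hbad
      rw [h4eq, hN3, mul_left_comm]
      apply mul_le_mul_of_nonneg_left _ (by positivity)
      linarith

end

end Pool.Agent.Work.MP_39d092_co.NL
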