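import Pool.Agent.Work.MP_39d092_co.NL.Moment

set_option autoImplicit false
open scoped BigOperators
open Matrix

namespace Pool.Agent.Work.MP_39d092_co.NL

section
variable {V : Type} [AddCommGroup V] [Module (ZMod 2) V]

lemma Deg.sum {ι : Type*} (s : Finset ι) (d : ℕ) (g : ι → V → ZMod 2) (h : ∀ i ∈ s, Deg d (g i)) :
    Deg d (fun x => ∑ i ∈ s, g i x) := by
  classical
  induction s using Finset.induction_on with
  | empty => simpa using Deg.zero (V := V) (d := d)
  | insert a s ha ih =>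
    have := Deg.add (h a (Finset.mem_insert_self a s)) (ih fun i hi => h i (Finset.mem_insert_of_mem hi))
    simpa [Finset.sum_insert ha] using this

lemma Deg.smul {d : ℕ} {f : V → ZMod 2} (hf : Deg d f) (c : ZMod 2) : Deg d (fun x => c * f x) := by
  rcases z2 c with rfl | rfl
  · simpa using Deg.zero (V := V) (d := d)
  · simpa using hf

end

lemma isAff_coord {n : ℕ} (i : Fin n) : IsAff (fun x : Fin n → ZMod 2 => x i) :=
  ⟨LinearMap.proj i, 0, fun x => by simp⟩

lemma deg_pow_mul {n d : ℕ} {f : (Fin n → ZMod 2) → ZMod 2} (hf : Deg d f) (i : Fin n) (k : ℕ) :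
    Deg (d + k) (fun x => x i ^ k * f x) := by
  induction k with
  | zero => simpa using hf
  | succ k ih =>
    have h := ih.mulAff (isAff_coord i)
    have h2 : (fun x : Fin n → ZMod 2 => x i ^ (k + 1) * f x) = fun x => x i * (x i ^ k * f x) := by
      funext x; ring
    rw [h2]; exact h

lemma deg_monomial {n : ℕ} (s : Fin n →₀ ℕ) (S : Finset (Fin n)) :
    Deg (∑ i ∈ S, s i) (fun x : Fin n → ZMod 2 => ∏ i ∈ S, x i ^ s i) := by
  classical
  induction S using Finset.induction_on with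
  | empty => simpa using Deg.const (V := Fin n → ZMod 2) 0 1
  | insert a S ha ih =>
    have h := deg_pow_mul ih a (s a)
    simp only [Finset.prod_insert ha, Finset.sum_insert ha]
    rw [add_comm (s a)]
    exact h

lemma deg_of_poly {n d : ℕ} (p : MvPolynomial (Fin n) (ZMod 2)) (hp : p.totalDegree ≤ d)
    (f : (Fin n → ZMod 2) → ZMod 2) (hf : ∀ x, MvPolynomial.eval x p = f x) : Deg d f := by
  have h1 : f = fun x => ∑ s ∈ p.support, p.coeff s * ∏ i, x i ^ s i := by
    funext x; rw [← hf, MvPolynomial.eval_eq']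
  rw [h1]
  apply Deg.sum
  intro s hs
  apply Deg.smul
  have h2 := deg_monomial s Finset.univ
  refine h2.mono ?_
  have h3 := MvPolynomial.le_totalDegree hs
  rw [Finsupp.sum_fintype _ _ (by simp)] at h3
  exact h3.trans hp

lemma deg_prod_aff {n : ℕ} (b : Fin n → ZMod 2) (S : Finset (Fin n)) :
    Deg S.card (fun x : Fin n → ZMod 2 => ∏ i ∈ S, (x i + b i)) := by
  classical
  induction S using Finset.induction_on with
  | empty => simpa using Deg.const (V := Fin n → ZMod 2) 0 1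
  | insert a S ha ih =>
    have h := ih.mulAff ((isAff_coord a).add (IsAff.const (b a)))
    simp only [Finset.prod_insert ha, Finset.card_insert_of_notMem ha]
    exact h

lemma deg_delta {n : ℕ} (b : Fin n → ZMod 2) (S : Finset (Fin n)) :
    Deg (S.card - 1) (fun x : Fin n → ZMod 2 => ∏ i ∈ S, (x i + b i) + ∏ i ∈ S, x i) := by
  classical
  induction S using Finset.induction_on with
  | empty =>
    have : (fun x : Fin n → ZMod 2 => ∏ i ∈ (∅ : Finset (Fin n)), (x i + b i) + ∏ i ∈ (∅ : Finset (Fin n)), x i) =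
        fun _ => 0 := by
      funext x; simp only [Finset.prod_empty]; decide
    rw [this]; exact Deg.zero
  | insert a S ha ih =>
    have h1 : (fun x : Fin n → ZMod 2 => ∏ i ∈ insert a S, (x i + b i) + ∏ i ∈ insert a S, x i) =
        fun x => x a * (∏ i ∈ S, (x i + b i) + ∏ i ∈ S, x i) + b a * ∏ i ∈ S, (x i + b i) := by
      funext x
      simp only [Finset.prod_insert ha]
      ring
    rw [h1, Finset.card_insert_of_notMem ha, Nat.add_sub_cancel]
    refine Deg.add ?_ ((deg_prod_aff b S).smul (b a))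
    rcases S.eq_empty_or_nonempty with rfl | hne
    · have : (fun x : Fin n → ZMod 2 => x a * (∏ i ∈ (∅ : Finset (Fin n)), (x i + b i) +
          ∏ i ∈ (∅ : Finset (Fin n)), x i)) = fun _ => 0 := by
        funext x
        simp only [Finset.prod_empty]
        have : (1 : ZMod 2) + 1 = 0 := by decide
        rw [this, mul_zero]
      rw [this]; exact Deg.zero
    · have h2 := ih.mulAff (isAff_coord a)
      have h3 : 1 ≤ S.card := Finset.card_pos.2 hne
      rw [Nat.sub_add_cancel h3] at h2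
      exact h2

lemma prod_delta {n : ℕ} (x a : Fin n → ZMod 2) :
    ∏ i, (x i + (a i + 1)) = if x = a then 1 else 0 := by
  have key : ∀ u v : ZMod 2, u + (v + 1) = if u = v then 1 else 0 := by decide
  simp only [key]
  split_ifs with h
  · subst h; simp
  · obtain ⟨i, hi⟩ := Function.ne_iff.1 h
    exact Finset.prod_eq_zero (Finset.mem_univ i) (by rw [if_neg hi])

lemma deg_of_sum_zero {n : ℕ} (f : (Fin n → ZMod 2) → ZMod 2) (h : ∑ x, f x = 0) : Deg (n - 1) f := by
  classical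
  have h1 : f = fun x => ∑ a : Fin n → ZMod 2, f a * (∏ i, (x i + (a i + 1)) + ∏ i, x i) := by
    funext x
    simp only [mul_add, Finset.sum_add_distrib]
    have h2 : ∀ a : Fin n → ZMod 2, f a * ∏ i, (x i + (a i + 1)) = if x = a then f a else 0 := by
      intro a
      rw [prod_delta]
      split_ifs <;> simp
    rw [Finset.sum_congr rfl fun a _ => h2 a, ← Finset.sum_mul, h]
    simp
  rw [h1]
  apply Deg.sum
  intro a _
  apply Deg.smul
  have h3 := deg_delta (fun i => a i + 1) (Finset.univ : Finset (Fin n))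
  simpa using h3

/-- every function of `n` variables has degree at most `n` -/
lemma deg_any {n : ℕ} (f : (Fin n → ZMod 2) → ZMod 2) : Deg n f := by
  classical
  have h1 : f = fun x => ∑ a : Fin n → ZMod 2, f a * ∏ i, (x i + (a i + 1)) := by
    funext x
    have h2 : ∀ a : Fin n → ZMod 2, f a * ∏ i, (x i + (a i + 1)) = if x = a then f a else 0 := by
      intro a
      rw [prod_delta]
      split_ifs <;> simp
    rw [Finset.sum_congr rfl fun a _ => h2 a]
    simp
  rw [h1]
  apply Deg.sum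
  intro a _
  apply Deg.smul
  have h3 := deg_prod_aff (fun i => a i + 1) (Finset.univ : Finset (Fin n))
  simpa using h3

/-- the case of eight pieces -/
lemma deg_of_core_two {V : Type} [AddCommGroup V] [Module (ZMod 2) V] {g : V → ZMod 2} (hg : Core 2 g) :
    Deg 2 g := by
  obtain ⟨q, L, h, hq, _, hgx⟩ := hg
  have h1 : Deg 2 (fun x => q x + h (L x + 0)) := Deg.add hq ((deg_any h).comp L 0)
  have h2 : g = fun x => q x + h (L x + 0) := by funext x; rw [hgx, add_zero]
  rw [h2]; exact h1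

/-! ### functionals and dot products -/

/-- the functional `x ↦ v ⬝ᵥ x` -/
def dotL {n : ℕ} (v : Fin n → ZMod 2) : Du (Fin n → ZMod 2) where
  toFun x := v ⬝ᵥ x
  map_add' x y := by simp [dotProduct_add]
  map_smul' c x := by simp [dotProduct_smul]

@[simp] lemma dotL_apply {n : ℕ} (v x : Fin n → ZMod 2) : dotL v x = v ⬝ᵥ x := rfl

lemma du_repr {n : ℕ} (ψ : Du (Fin n → ZMod 2)) : ∃ v, ψ = dotL v := by
  refine ⟨fun i => ψ (Pi.single i 1), ?_⟩
  apply LinearMap.ext
  intro x
  rw [LinearMap.pi_apply_eq_sum_univ ψ x, dotL_apply, dotProduct]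
  refine Finset.sum_congr rfl fun i _ => ?_
  rw [smul_eq_mul, mul_comm]
  congr 2
  funext j
  simp [Pi.single_apply, eq_comm]

lemma count_eq {n : ℕ} (f : (Fin n → ZMod 2) → ZMod 2) (a : Fin n → ZMod 2) (c : ZMod 2) :
    sg c * W f (dotL a) = 2 ^ n -
      2 * (((Finset.univ.filter (fun x : Fin n → ZMod 2 => f x ≠ a ⬝ᵥ x + c)).card : ℕ) : ℤ) := by
  classical
  have h1 : ∀ x : Fin n → ZMod 2, sg c * sg (f x + dotL a x) =
      1 - 2 * (if f x ≠ a ⬝ᵥ x + c then 1 else 0) := by
    intro x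
    rw [dotL_apply, ← sg_add]
    have key : ∀ u v w : ZMod 2, (if w + (u + v) = 0 then (1 : ℤ) else -1) =
        1 - 2 * (if u ≠ v + w then 1 else 0) := by decide
    exact key _ _ _
  unfold W
  rw [Finset.mul_sum, Finset.sum_congr rfl fun x _ => h1 x, Finset.sum_sub_distrib, ← Finset.mul_sum]
  congr 1
  · simp [ZMod.card]
  · congr 1
    rw [Finset.card_filter]
    push_cast
    rfl

/-- concrete form -/
theorem main_concrete {n : ℕ} (h2 : 2 ≤ n) (he : Even n) (F : (Fin n → ZMod 2) → (Fin n → ZMod 2))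
    (X : Finset (Fin n → ZMod 2)) (hX : 129 * X.card < 2 ^ n - 1)
    (hF : ∀ v : Fin n → ZMod 2, v ≠ 0 → v ∉ X → InU (fun x => v ⬝ᵥ F x) ∨ InP (fun x => v ⬝ᵥ F x) ∨
      InQ (fun x => v ⬝ᵥ F x)) :
    ∃ v : Fin n → ZMod 2, v ≠ 0 ∧ ∃ (a : Fin n → ZMod 2) (c : ZMod 2),
      (Finset.univ.filter (fun x : Fin n → ZMod 2 => v ⬝ᵥ F x ≠ a ⬝ᵥ x + c)).card ≤
        2 ^ (n - 1) - 2 ^ (n / 2) := by
  classical
  obtain ⟨m, hm⟩ : ∃ m, n = 2 * m + 2 := by
    obtain ⟨k, hk⟩ := he
    exact ⟨k - 1, by omega⟩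
  have hfr : Module.finrank (ZMod 2) (Fin n → ZMod 2) = 2 * m + 2 := by
    rw [Module.finrank_fin_fun]; exact hm
  obtain ⟨ψ, hψ, φ, hφ⟩ := main_abs F m hfr hfr (X.image dotL) (by
      have h1 : (X.image dotL).card ≤ X.card := Finset.card_image_le
      rw [← hm]; omega) (by
    intro ψ hψ hψX
    obtain ⟨v, rfl⟩ := du_repr ψ
    have hv : v ≠ 0 := by
      rintro rfl
      apply hψ
      apply LinearMap.ext
      intro x
      simp
    exact hF v hv (fun h => hψX (Finset.mem_image_of_mem _ h)))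
  obtain ⟨v, rfl⟩ := du_repr ψ
  obtain ⟨a, rfl⟩ := du_repr φ
  obtain ⟨c, hc⟩ : ∃ c : ZMod 2, (2 : ℤ) ^ (m + 2) ≤ sg c * W (fun x => v ⬝ᵥ F x) (dotL a) := by
    change (2 : ℤ) ^ (m + 2) ≤ |W (fun x => v ⬝ᵥ F x) (dotL a)| at hφ
    rcases le_or_gt 0 (W (fun x => v ⬝ᵥ F x) (dotL a)) with h | h
    · exact ⟨0, by rw [sg_zero, one_mul]; rwa [abs_of_nonneg h] at hφ⟩
    · exact ⟨1, by rw [sg_one]; rw [abs_of_neg h] at hφ; linarith⟩
  refine ⟨v, ?_, a, c, ?_⟩
  · rintro rfl
    apply hψ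
    apply LinearMap.ext
    intro x
    simp
  · have h3 := count_eq (fun x => v ⬝ᵥ F x) a c
    rw [h3] at hc
    set C := (Finset.univ.filter (fun x : Fin n → ZMod 2 => v ⬝ᵥ F x ≠ a ⬝ᵥ x + c)).card with hC
    have h6 : n - 1 = 2 * m + 1 := by omega
    have h7 : n / 2 = m + 1 := by omega
    rw [h6, h7]
    have h8 : (2 : ℤ) ^ n = 2 * 2 ^ (2 * m + 1) := by rw [hm]; ring
    have h9 : (2 : ℤ) ^ (m + 2) = 2 * 2 ^ (m + 1) := by ring
    rw [h8, h9] at hc
    have h10 : C + 2 ^ (m + 1) ≤ 2 ^ (2 * m + 1) := by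
      zify
      linarith
    omega

/-- the three kinds of piecewise functions -/
lemma class_of_pieces {V : Type} [AddCommGroup V] [Module (ZMod 2) V] (f : V → ZMod 2) (j : ℕ) (hj : j ≤ 3)
    (L : V →ₗ[ZMod 2] (Fin j → ZMod 2)) (hL : Function.Surjective L) (q : (Fin j → ZMod 2) → V → ZMod 2)
    (hq : ∀ c, Core (11 - 3 * j) (q c)) (hf : ∀ x, f x = q (L x) x) : InU f ∨ InP f ∨ InQ f := by
  have h1 : j = 0 ∨ j = 1 ∨ j = 2 ∨ j = 3 := by omega
  rcases h1 with rfl | rfl | rfl | rfl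
  · left
    obtain ⟨q', L', h', hq', hh', hx'⟩ := hq 0
    refine ⟨11, 3, L', h', q', Or.inr ⟨le_rfl, rfl⟩, hh', hq', fun x => ?_⟩
    have h2 : L x = 0 := Subsingleton.elim _ _
    rw [hf, h2, hx']
  · right; right
    exact ⟨1, 2, L, q, le_rfl, by norm_num, rfl, hL, hq, hf⟩
  · right; right
    exact ⟨2, 1, L, q, by norm_num, le_rfl, rfl, hL, hq, hf⟩
  · right; left
    exact ⟨L, q, hL, fun c => deg_of_core_two (hq c), hf⟩

/-- a polynomial of degree at most `d` in at most `c` variables is in the class, with `L = id` -/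
lemma InU.self {n : ℕ} {f : (Fin n → ZMod 2) → ZMod 2} (d : ℕ) (hcd : (n ≤ 7 ∧ d = 5) ∨ (n ≤ 11 ∧ d = 3))
    (hf : Deg d f) : InU f :=
  ⟨n, d, LinearMap.id, f, fun _ => 0, hcd, hf, Deg.zero, fun x => by simp⟩

end Pool.Agent.Work.MP_39d092_co.NL
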