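import Pool.Agent.Work.MP_39d092_co.NL.Defs

set_option autoImplicit false
open scoped BigOperators

namespace Pool.Agent.Work.MP_39d092_co.NL

section
variable {V : Type} [AddCommGroup V] [Module (ZMod 2) V] [Fintype V]

lemma card_V : Fintype.card V = 2 ^ Module.finrank (ZMod 2) V := by
  have := Module.card_eq_pow_finrank (K := ZMod 2) (V := V)
  simpa [ZMod.card] using this

lemma card_du : Fintype.card (Du V) = Fintype.card V := by
  have h1 := Module.card_eq_pow_finrank (K := ZMod 2) (V := Du V)
  have h2 := Module.card_eq_pow_finrank (K := ZMod 2) (V := V)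
  have h3 : Module.finrank (ZMod 2) (Du V) = Module.finrank (ZMod 2) V :=
    Subspace.dual_finrank_eq (K := ZMod 2) (V := V)
  rw [h1, h2, h3]

lemma exists_dual_one {x : V} (hx : x ≠ 0) : ∃ φ : Du V, φ x = 1 := by
  have h := mt (Module.forall_dual_apply_eq_zero_iff (ZMod 2) x).1 hx
  push Not at h
  obtain ⟨φ, hφ⟩ := h
  rcases z2 (φ x) with h0 | h1
  · exact absurd h0 hφ
  · exact ⟨φ, h1⟩

lemma exists_one {φ : Du V} (hφ : φ ≠ 0) : ∃ x, φ x = 1 := by
  by_contra h
  push Not at h
  apply hφ
  ext x
  rcases z2 (φ x) with h0 | h1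
  · simpa using h0
  · exact absurd h1 (h x)

open Classical in
lemma sum_sg_dual (φ : Du V) : ∑ x : V, sg (φ x) = if φ = 0 then (Fintype.card V : ℤ) else 0 := by
  classical
  split_ifs with h
  · subst h; simp
  · obtain ⟨a, ha⟩ := exists_one h
    have h1 : ∑ x : V, sg (φ x) = ∑ x : V, sg (φ (x + a)) :=
      (Fintype.sum_equiv (Equiv.addRight a) _ _ (fun x => rfl)).symm
    have h2 : ∑ x : V, sg (φ (x + a)) = - ∑ x : V, sg (φ x) := by
      rw [← Finset.sum_neg_distrib]
      refine Finset.sum_congr rfl fun x _ => ?_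
      rw [map_add, ha, sg_add]; simp
    linarith

open Classical in
lemma sum_dual_sg (x : V) : ∑ φ : Du V, sg (φ x) = if x = 0 then (Fintype.card V : ℤ) else 0 := by
  classical
  split_ifs with h
  · subst h; simp [card_du]
  · obtain ⟨a, ha⟩ := exists_dual_one h
    have h1 : ∑ φ : Du V, sg (φ x) = ∑ φ : Du V, sg ((φ + a) x) :=
      (Fintype.sum_equiv (Equiv.addRight a) _ _ (fun x => rfl)).symm
    have h2 : ∑ φ : Du V, sg ((φ + a) x) = - ∑ φ : Du V, sg (φ x) := by
      rw [← Finset.sum_neg_distrib]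
      refine Finset.sum_congr rfl fun φ _ => ?_
      rw [LinearMap.add_apply, ha, sg_add]; simp
    linarith

/-- correlation identity -/
lemma corr (f : V → ZMod 2) (α : Du V) (e : V) :
    ∑ φ : Du V, W f φ * W f (φ + α) * sg (φ e) =
      Fintype.card V * ∑ x : V, sg (f x + f (x + e) + α (x + e)) := by
  classical
  have h1 : ∀ φ : Du V, W f φ * W f (φ + α) * sg (φ e) =
      ∑ x : V, ∑ y : V, sg (f x + f y + α y) * sg (φ (x + y + e)) := by
    intro φ
    unfold W
    rw [Finset.sum_mul_sum, Finset.sum_mul]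
    refine Finset.sum_congr rfl fun x _ => ?_
    rw [Finset.sum_mul]
    refine Finset.sum_congr rfl fun y _ => ?_
    simp only [LinearMap.add_apply, map_add, sg_add]
    ring
  rw [Finset.sum_congr rfl fun φ _ => h1 φ, Finset.sum_comm, Finset.mul_sum]
  refine Finset.sum_congr rfl fun x _ => ?_
  rw [Finset.sum_comm]
  have h2 : ∀ y : V, ∑ φ : Du V, sg (f x + f y + α y) * sg (φ (x + y + e)) =
      if y = x + e then (Fintype.card V : ℤ) * sg (f x + f y + α y) else 0 := by
    intro y
    rw [← Finset.mul_sum, sum_dual_sg]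
    by_cases hy : y = x + e
    · have : x + y + e = 0 := by
        rw [hy]
        have h3 := add_self2 x
        have h4 := add_self2 e
        calc x + (x + e) + e = (x + x) + (e + e) := by abel
          _ = 0 := by rw [h3, h4, add_zero]
      rw [if_pos this, if_pos hy]; ring
    · have : x + y + e ≠ 0 := by
        intro h5
        apply hy
        have h3 := add_self2 x
        have h4 := add_self2 e
        calc y = (x + x) + (e + e) + y := by rw [h3, h4]; simp
          _ = (x + y + e) + (x + e) := by abel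
          _ = x + e := by rw [h5, zero_add]
      rw [if_neg this, if_neg hy, mul_zero]
  rw [Finset.sum_congr rfl fun y _ => h2 y]
  simp

/-- Parseval -/
lemma parseval (f : V → ZMod 2) : ∑ φ : Du V, W f φ ^ 2 = (Fintype.card V : ℤ) ^ 2 := by
  have h := corr f 0 0
  simp only [add_zero, map_zero, sg_zero, mul_one, LinearMap.zero_apply] at h
  have h2 : ∀ x : V, sg (f x + f x) = 1 := fun x => by rw [add_self_z, sg_zero]
  simp only [h2, Finset.sum_const, Finset.card_univ, nsmul_eq_mul, mul_one] at h
  calc ∑ φ : Du V, W f φ ^ 2 = ∑ φ : Du V, W f φ * W f φ := Finset.sum_congr rfl fun φ _ => by ring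
    _ = _ := by rw [h]; ring

lemma parseval_sg (f : V → ZMod 2) (e : V) :
    ∑ φ : Du V, W f φ ^ 2 * sg (φ e) = (Fintype.card V : ℤ) * ∑ x : V, sg (Dv e f x) := by
  have h := corr f 0 e
  simp only [add_zero, LinearMap.zero_apply] at h
  calc ∑ φ : Du V, W f φ ^ 2 * sg (φ e) = ∑ φ : Du V, W f φ * W f φ * sg (φ e) :=
        Finset.sum_congr rfl fun φ _ => by ring
    _ = _ := by
      rw [h]; congr 1
      refine Finset.sum_congr rfl fun x _ => ?_
      rw [Dv, add_comm]

lemma corr_zero (f : V → ZMod 2) {α : Du V} (hα : α ≠ 0) :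
    ∑ φ : Du V, W f φ * W f (φ + α) = 0 := by
  have h := corr f α 0
  simp only [map_zero, sg_zero, mul_one, add_zero, add_self_z, zero_add] at h
  rw [h, sum_sg_dual, if_neg hα, mul_zero]

end

end Pool.Agent.Work.MP_39d092_co.NL
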