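import Pool.Agent.Work.MP_39d092_co.NL.Even

set_option autoImplicit false
open scoped BigOperators

namespace Pool.Agent.Work.MP_39d092_co.NL

section
variable {V : Type} [AddCommGroup V] [Module (ZMod 2) V] [Fintype V]

/-- correlation identity for integer valued functions -/
lemma corrG (G : V → ℤ) (e : V) :
    ∑ φ : Du V, (∑ x : V, G x * sg (φ x)) ^ 2 * sg (φ e) =
      Fintype.card V * ∑ x : V, G x * G (x + e) := by
  classical
  have h1 : ∀ φ : Du V, (∑ x : V, G x * sg (φ x)) ^ 2 * sg (φ e) =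
      ∑ x : V, ∑ y : V, G x * G y * sg (φ (x + y + e)) := by
    intro φ
    rw [sq, Finset.sum_mul_sum, Finset.sum_mul]
    refine Finset.sum_congr rfl fun x _ => ?_
    rw [Finset.sum_mul]
    refine Finset.sum_congr rfl fun y _ => ?_
    simp only [map_add, sg_add]
    ring
  rw [Finset.sum_congr rfl fun φ _ => h1 φ, Finset.sum_comm, Finset.mul_sum]
  refine Finset.sum_congr rfl fun x _ => ?_
  rw [Finset.sum_comm]
  have h2 : ∀ y : V, ∑ φ : Du V, G x * G y * sg (φ (x + y + e)) =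
      if y = x + e then (Fintype.card V : ℤ) * (G x * G y) else 0 := by
    intro y
    rw [← Finset.mul_sum, sum_dual_sg]
    by_cases hy : y = x + e
    · have : x + y + e = 0 := by
        rw [hy]
        have h3 := add_self2 x
        have h4 := add_self2 e
        calc x + (x + e) + e = (x + x) + (e + e) := by abel
          _ = 0 := by rw [h3, h4, add_zero]
      rw [if_pos this, if_pos hy]; ring
    · have : x + y + e ≠ 0 := by
        intro h5
        apply hy
        have h3 := add_self2 x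
        have h4 := add_self2 e
        calc y = (x + x) + (e + e) + y := by rw [h3, h4]; simp
          _ = (x + y + e) + (x + e) := by abel
          _ = x + e := by rw [h5, zero_add]
      rw [if_neg this, if_neg hy, mul_zero]
  rw [Finset.sum_congr rfl fun y _ => h2 y]
  simp

/-- sum over the half space `α = c` -/
noncomputable def P (f : V → ZMod 2) (α : Du V) (c : ZMod 2) (φ : Du V) : ℤ :=
  ∑ x ∈ Finset.univ.filter (fun x : V => α x = c), sg (f x + φ x)

lemma P_eq (f : V → ZMod 2) (α : Du V) (c : ZMod 2) (φ : Du V) :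
    2 * P f α c φ = W f φ + sg c * W f (φ + α) := by
  unfold P W
  rw [Finset.sum_filter, Finset.mul_sum, Finset.mul_sum, ← Finset.sum_add_distrib]
  refine Finset.sum_congr rfl fun x _ => ?_
  simp only [LinearMap.add_apply]
  rw [show f x + (φ x + α x) = (f x + φ x) + α x by ring, sg_add _ (α x)]
  rcases z2 (α x) with h | h <;> rcases z2 c with h' | h' <;> rw [h, h'] <;> simp <;> ring

lemma P_sum (f : V → ZMod 2) (α : Du V) (c : ZMod 2) (φ : Du V) :
    P f α c φ = ∑ x : V, (if α x = c then sg (f x) else 0) * sg (φ x) := by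
  unfold P
  rw [Finset.sum_filter]
  refine Finset.sum_congr rfl fun x _ => ?_
  split_ifs with h
  · rw [sg_add]
  · simp

lemma half_card {α : Du V} (hα : α ≠ 0) (c : ZMod 2) :
    2 * ((Finset.univ.filter (fun x : V => α x = c)).card : ℤ) = Fintype.card V := by
  have h := sum_sg_count (fun x : V => α x) c
  rw [sum_sg_dual, if_neg hα, mul_zero] at h
  linarith

lemma P_sq_U (f : V → ZMod 2) {α : Du V} (hα : α ≠ 0) {e : V} (hαe : α e = 0) (c δ : ZMod 2) :
    ∑ φ ∈ Finset.univ.filter (fun φ : Du V => φ e = δ), P f α c φ ^ 2 =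
      Fintype.card V * ((Finset.univ.filter (fun x : V => α x = c ∧ Dv e f x = δ)).card : ℤ) := by
  classical
  have h0 := corrG (fun x => if α x = c then sg (f x) else 0) (0 : V)
  have h1 := corrG (fun x => if α x = c then sg (f x) else 0) e
  simp only [map_zero, sg_zero, mul_one, add_zero] at h0
  have e1 : ∑ φ ∈ Finset.univ.filter (fun φ : Du V => φ e = δ), P f α c φ ^ 2 * 2 =
      ∑ φ : Du V, (P f α c φ ^ 2 + sg δ * (P f α c φ ^ 2 * sg (φ e))) := by
    rw [Finset.sum_filter]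
    refine Finset.sum_congr rfl fun φ _ => ?_
    rcases z2 (φ e) with h | h <;> rcases z2 δ with h' | h' <;> rw [h, h'] <;> simp <;> ring
  have e2 : ∀ x : V, (if α x = c then sg (f x) else 0) * (if α x = c then sg (f x) else 0) =
      if α x = c then (1 : ℤ) else 0 := by
    intro x; split_ifs
    · exact sg_sq _
    · simp
  have e3 : ∀ x : V, (if α x = c then sg (f x) else 0) * (if α (x + e) = c then sg (f (x + e)) else 0) =
      if α x = c then sg (Dv e f x) else 0 := by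
    intro x
    rw [map_add, hαe, add_zero]
    split_ifs
    · rw [← sg_add, Dv, add_comm]
    · simp
  simp only [e2] at h0
  simp only [e3] at h1
  rw [← Finset.sum_mul, Finset.sum_add_distrib, ← Finset.mul_sum] at e1
  simp only [← P_sum] at h0 h1
  rw [h0, h1] at e1
  have e4 : sg δ * ∑ x : V, (if α x = c then sg (Dv e f x) else 0) + ∑ x : V, (if α x = c then (1 : ℤ) else 0) =
      2 * ((Finset.univ.filter (fun x : V => α x = c ∧ Dv e f x = δ)).card : ℤ) := by
    rw [Finset.mul_sum, ← Finset.sum_add_distrib, Finset.card_filter]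
    push_cast
    rw [Finset.mul_sum]
    refine Finset.sum_congr rfl fun x _ => ?_
    by_cases h : α x = c
    · rcases z2 (Dv e f x) with h1 | h1 <;> rcases z2 δ with h' | h' <;> simp [h, h1, h']
    · simp [h]
  have e5 : (∑ φ ∈ Finset.univ.filter (fun φ : Du V => φ e = δ), P f α c φ ^ 2) * 2 =
      (Fintype.card V * ((Finset.univ.filter (fun x : V => α x = c ∧ Dv e f x = δ)).card : ℤ)) * 2 := by
    rw [e1]
    calc (Fintype.card V : ℤ) * ∑ x : V, (if α x = c then (1 : ℤ) else 0) +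
          sg δ * (Fintype.card V * ∑ x : V, (if α x = c then sg (Dv e f x) else 0)) =
          Fintype.card V * (sg δ * ∑ x : V, (if α x = c then sg (Dv e f x) else 0) +
            ∑ x : V, (if α x = c then (1 : ℤ) else 0)) := by ring
      _ = _ := by rw [e4]; ring
  exact mul_right_cancel₀ (by norm_num) e5

theorem half_lemma (f : V → ZMod 2) (m : ℕ) (hn : Module.finrank (ZMod 2) V = 2 * m + 2)
    (hb : ∀ φ : Du V, |W f φ| < 2 ^ (m + 2)) (e : V) (he : e ≠ 0) (δ : ZMod 2) (w : Du V → ℤ)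
    (hw : ∀ φ, W f φ = 2 ^ m * w φ) (hodd : ∀ φ, φ e = δ → Odd (w φ))
    (α : Du V) (hα : α ≠ 0) (hαe : α e = 0) (c : ZMod 2)
    (h1 : ∀ x, α x = c → Dv e f x = δ)
    (h2 : 32 * (Finset.univ.filter (fun x : V => α x = c + 1 ∧ Dv e f x ≠ δ)).card ≤ 5 * 2 ^ (2 * m + 2))
    (hpar : ∀ φ ψ : Du V, φ e = δ → ψ e = δ → (2 : ℤ) * 2 ^ m ∣ P f α c φ + P f α c ψ) : False := by
  classical
  have hcard : (Fintype.card V : ℤ) = 2 ^ (2 * m + 2) := by rw [card_V, hn]; push_cast; ring
  set r : ℤ := 2 ^ m with hr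
  have hrpos : 0 < r := by positivity
  set N : ℤ := 2 ^ (2 * m + 2) with hN
  have hNr : N = 4 * r ^ 2 := by rw [hN, hr]; ring
  have hNpos : 0 < N := by positivity
  have hwlt : ∀ φ, |w φ| < 4 := by
    intro φ
    have h := hb φ
    rw [hw, abs_mul, abs_of_pos hrpos] at h
    have : (2 : ℤ) ^ (m + 2) = r * 4 := by rw [hr]; ring
    rw [this] at h
    exact lt_of_mul_lt_mul_left h hrpos.le
  set U := Finset.univ.filter (fun φ : Du V => φ e = δ) with hU
  have hUcard : 2 * (U.card : ℤ) = N := by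
    have h := half_card (V := Du V) (α := (Module.evalEquiv (ZMod 2) V e : Du (Du V))) (by
      intro h0
      apply he
      exact (LinearEquiv.map_eq_zero_iff _).1 h0) δ
    rw [card_du, hcard] at h
    rw [← h, hU]
    congr 2
  -- integers b1, b0 on U
  have hmemU : ∀ φ, φ ∈ U ↔ φ e = δ := by intro φ; simp [hU]
  have hUα : ∀ φ, φ e = δ → (φ + α) e = δ := by
    intro φ h; rw [LinearMap.add_apply, hαe, add_zero, h]
  have hb1 : ∀ φ, φ e = δ → ∃ b1 b0 : ℤ, P f α c φ = r * b1 ∧ P f α (c + 1) φ = r * b0 ∧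
      Odd (b1 + b0) ∧ |b1| + |b0| ≤ 3 := by
    intro φ hφ
    obtain ⟨s, hs⟩ := hodd φ hφ
    obtain ⟨t, ht⟩ := hodd (φ + α) (hUα φ hφ)
    have l1 := hwlt φ
    have l2 := hwlt (φ + α)
    rw [abs_lt] at l1 l2
    have p1 := P_eq f α c φ
    have p2 := P_eq f α (c + 1) φ
    rw [hw, hw] at p1 p2
    rcases z2 c with hc | hc
    · subst hc
      simp only [sg_zero, one_mul, zero_add, sg_one] at p1 p2
      refine ⟨s + t + 1, s - t, ?_, ?_, ⟨s, by ring⟩, ?_⟩
      · rw [hs, ht] at p1; linarith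
      · simp only [zero_add]; rw [hs, ht] at p2; linarith
      · rcases abs_cases (s + t + 1) with ⟨h3, _⟩ | ⟨h3, _⟩ <;> rcases abs_cases (s - t) with ⟨h4, _⟩ | ⟨h4, _⟩ <;>
          rw [h3, h4] <;> omega
    · subst hc
      have h11 : (1 : ZMod 2) + 1 = 0 := by decide
      simp only [sg_one, h11, sg_zero, one_mul] at p1 p2
      refine ⟨s - t, s + t + 1, ?_, ?_, ⟨s, by ring⟩, ?_⟩
      · rw [hs, ht] at p1; linarith
      · rw [h11]; rw [hs, ht] at p2; linarith
      · rcases abs_cases (s + t + 1) with ⟨h3, _⟩ | ⟨h3, _⟩ <;> rcases abs_cases (s - t) with ⟨h4, _⟩ | ⟨h4, _⟩ <;>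
          rw [h3, h4] <;> omega
  choose! b1 b0 hP1 hP0 hbodd hbabs using hb1
  have hS1 := P_sq_U f hα hαe c δ
  have hS0 := P_sq_U f hα hαe (c + 1) δ
  rw [← hU, hcard] at hS1 hS0
  have k1 : 2 * ((Finset.univ.filter (fun x : V => α x = c ∧ Dv e f x = δ)).card : ℤ) = N := by
    have h := half_card hα c
    rw [hcard] at h
    rw [← h]
    congr 2
    apply congrArg
    ext x
    simp only [Finset.mem_filter, Finset.mem_univ, true_and]
    exact ⟨fun h => h.1, fun h => ⟨h, h1 x h⟩⟩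
  have k0 : ((Finset.univ.filter (fun x : V => α x = c + 1 ∧ Dv e f x = δ)).card : ℤ) +
      ((Finset.univ.filter (fun x : V => α x = c + 1 ∧ Dv e f x ≠ δ)).card : ℤ) =
      ((Finset.univ.filter (fun x : V => α x = c + 1)).card : ℤ) := by
    have := Finset.card_filter_add_card_filter_not (s := Finset.univ.filter (fun x : V => α x = c + 1))
      (fun x => Dv e f x = δ)
    rw [Finset.filter_filter, Finset.filter_filter] at this
    exact_mod_cast this
  have k0' := half_card hα (c + 1)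
  rw [hcard] at k0'
  have h2' : 32 * ((Finset.univ.filter (fun x : V => α x = c + 1 ∧ Dv e f x ≠ δ)).card : ℤ) ≤ 5 * N := by
    rw [hN]; exact_mod_cast h2
  have T1 : ∑ φ ∈ U, b1 φ ^ 2 = 2 * N := by
    have h3 : ∑ φ ∈ U, P f α c φ ^ 2 = r ^ 2 * ∑ φ ∈ U, b1 φ ^ 2 := by
      rw [Finset.mul_sum]
      refine Finset.sum_congr rfl fun φ hφ => ?_
      rw [hP1 φ ((hmemU φ).1 hφ)]; ring
    rw [h3] at hS1
    have : r ^ 2 * ∑ φ ∈ U, b1 φ ^ 2 = r ^ 2 * (2 * N) := by
      rw [hS1]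
      have h4 : ((Finset.univ.filter (fun x : V => α x = c ∧ Dv e f x = δ)).card : ℤ) = 2 * r ^ 2 := by
        linarith
      rw [h4]; ring
    exact mul_left_cancel₀ (by positivity) this
  have T0 : 11 * N ≤ 8 * ∑ φ ∈ U, b0 φ ^ 2 := by
    have h3 : ∑ φ ∈ U, P f α (c + 1) φ ^ 2 = r ^ 2 * ∑ φ ∈ U, b0 φ ^ 2 := by
      rw [Finset.mul_sum]
      refine Finset.sum_congr rfl fun φ hφ => ?_
      rw [hP0 φ ((hmemU φ).1 hφ)]; ring
    rw [h3] at hS0
    have h5 : ∑ φ ∈ U, b0 φ ^ 2 =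
        4 * ((Finset.univ.filter (fun x : V => α x = c + 1 ∧ Dv e f x = δ)).card : ℤ) := by
      have : r ^ 2 * ∑ φ ∈ U, b0 φ ^ 2 =
          r ^ 2 * (4 * ((Finset.univ.filter (fun x : V => α x = c + 1 ∧ Dv e f x = δ)).card : ℤ)) := by
        rw [hS0, hNr]; ring
      exact mul_left_cancel₀ (by positivity) this
    rw [h5]
    linarith
  have parU : ∀ φ ∈ U, ∀ ψ ∈ U, (2 : ℤ) ∣ b1 φ + b1 ψ := by
    intro φ hφ ψ hψ
    have h3 := hpar φ ψ ((hmemU φ).1 hφ) ((hmemU ψ).1 hψ)
    rw [hP1 φ ((hmemU φ).1 hφ), hP1 ψ ((hmemU ψ).1 hψ), ← mul_add, mul_comm (2 : ℤ)] at h3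
    exact Int.dvd_of_mul_dvd_mul_left hrpos.ne' h3
  by_cases hev : ∃ φ ∈ U, Even (b1 φ)
  · obtain ⟨φ0, hφ0, hev0⟩ := hev
    have hall : ∀ φ ∈ U, b0 φ ^ 2 ≤ 9 - 2 * b1 φ ^ 2 := by
      intro φ hφ
      have h3 := (Int.dvd_add_right hev0.two_dvd).1 (parU φ0 hφ0 φ hφ)
      obtain ⟨t, ht⟩ := h3
      have h4 := hbabs φ ((hmemU φ).1 hφ)
      obtain ⟨s, hs⟩ := hbodd φ ((hmemU φ).1 hφ)
      have h5 : b0 φ = 2 * (s - t) + 1 := by linarith
      rw [ht, h5] at h4
      have h6 : t = -1 ∨ t = 0 ∨ t = 1 := by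
        rcases abs_cases (2 * t) with ⟨h7, _⟩ | ⟨h7, _⟩ <;>
          rcases abs_cases (2 * (s - t) + 1) with ⟨h8, _⟩ | ⟨h8, _⟩ <;> rw [h7, h8] at h4 <;> omega
      have h9 : |b0 φ| ≤ 3 - |2 * t| := by rw [h5]; linarith
      rcases h6 with h6 | h6 | h6
      · rw [ht, h6]; rw [h6] at h9; norm_num at h9; rw [abs_le] at h9; nlinarith
      · rw [ht, h6]; rw [h6] at h9; norm_num at h9; rw [abs_le] at h9; nlinarith
      · rw [ht, h6]; rw [h6] at h9; norm_num at h9; rw [abs_le] at h9; nlinarith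
    have h3 := Finset.sum_le_sum hall
    rw [Finset.sum_sub_distrib, ← Finset.mul_sum, T1] at h3
    simp only [Finset.sum_const, nsmul_eq_mul] at h3
    linarith
  · push Not at hev
    have hall : ∀ φ ∈ U, 2 * b0 φ ^ 2 ≤ 9 - b1 φ ^ 2 := by
      intro φ hφ
      have h3 := Int.not_even_iff_odd.1 (hev φ hφ)
      obtain ⟨t, ht⟩ := h3
      have h4 := hbabs φ ((hmemU φ).1 hφ)
      obtain ⟨s, hs⟩ := hbodd φ ((hmemU φ).1 hφ)
      have h5 : b0 φ = 2 * (s - t) := by linarith
      rw [ht, h5] at h4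
      have h6 : t = -2 ∨ t = -1 ∨ t = 0 ∨ t = 1 := by
        rcases abs_cases (2 * t + 1) with ⟨h7, _⟩ | ⟨h7, _⟩ <;>
          rcases abs_cases (2 * (s - t)) with ⟨h8, _⟩ | ⟨h8, _⟩ <;> rw [h7, h8] at h4 <;> omega
      have h9 : |b0 φ| ≤ 3 - |2 * t + 1| := by rw [h5]; linarith
      rcases h6 with h6 | h6 | h6 | h6
      · rw [ht, h6]; rw [h6] at h9; norm_num at h9; rw [h9]; norm_num
      · rw [ht, h6]; rw [h6] at h9; norm_num at h9; rw [abs_le] at h9; nlinarith
      · rw [ht, h6]; rw [h6] at h9; norm_num at h9; rw [abs_le] at h9; nlinarith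
      · rw [ht, h6]; rw [h6] at h9; norm_num at h9; rw [h9]; norm_num
    have h3 := Finset.sum_le_sum hall
    rw [← Finset.mul_sum, Finset.sum_sub_distrib, T1] at h3
    simp only [Finset.sum_const, nsmul_eq_mul] at h3
    linarith

end

end Pool.Agent.Work.MP_39d092_co.NL
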