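import Pool.Agent.Work.MP_39d092_co.NL.Reduce

set_option autoImplicit false
open scoped BigOperators

namespace Pool.Agent.Work.MP_39d092_co.NL

/-- quadratic plus (degree ≤ 5 in 7 linear forms) or (degree ≤ 3 in 11 linear forms) -/
def InU {V : Type} [AddCommGroup V] [Module (ZMod 2) V] (f : V → ZMod 2) : Prop :=
  ∃ (c d : ℕ) (L : V →ₗ[ZMod 2] (Fin c → ZMod 2)) (h : (Fin c → ZMod 2) → ZMod 2) (q : V → ZMod 2),
    ((c ≤ 7 ∧ d = 5) ∨ (c ≤ 11 ∧ d = 3)) ∧ Deg d h ∧ Deg 2 q ∧ ∀ x, f x = q x + h (L x)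

lemma InU.comp {V V' : Type} [AddCommGroup V] [Module (ZMod 2) V] [AddCommGroup V'] [Module (ZMod 2) V']
    {f : V → ZMod 2} (hf : InU f) (ι : V' →ₗ[ZMod 2] V) (b : V) : InU (fun x => f (ι x + b)) := by
  obtain ⟨c, d, L, h, q, hcd, hh, hq, hfx⟩ := hf
  refine ⟨c, d, L.comp ι, fun y => h (y + L b), fun x => q (ι x + b), hcd, ?_, hq.comp ι b, ?_⟩
  · exact hh.comp LinearMap.id (L b)
  · intro x; simp [hfx]

lemma InU.base {V : Type} [AddCommGroup V] [Module (ZMod 2) V] [Fintype V] {f : V → ZMod 2} (hf : InU f)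
    (hna : ∀ a : V, a ≠ 0 → ¬ IsAff (Dv a f)) :
    (Module.finrank (ZMod 2) V ≤ 7 ∧ Deg 5 f) ∨ (Module.finrank (ZMod 2) V ≤ 11 ∧ Deg 3 f) := by
  obtain ⟨c, d, L, h, q, hcd, hh, hq, hfx⟩ := hf
  have hker : LinearMap.ker L = ⊥ := by
    rw [LinearMap.ker_eq_bot']
    intro a ha
    by_contra ha0
    apply hna a ha0
    have h1 : Dv a f = Dv a q := by
      funext x
      simp only [Dv, hfx, map_add, ha, add_zero]
      have := add_self_z (h (L x))
      linear_combination this
    rw [h1]
    exact (hq.dv a).isAff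
  have hfr : Module.finrank (ZMod 2) V ≤ c := by
    have h1 := LinearMap.finrank_range_add_finrank_ker L
    have h2 : Module.finrank (ZMod 2) (LinearMap.range L) ≤ c := by
      have := Submodule.finrank_le (LinearMap.range L)
      simpa using this
    rw [hker, finrank_bot] at h1
    omega
  have hd2 : 2 ≤ d := by omega
  have hdeg : Deg d f := by
    have h1 : Deg d (fun x => q x + h (L x + 0)) := Deg.add (hq.mono hd2) (hh.comp L 0)
    have h2 : f = fun x => q x + h (L x + 0) := by funext x; rw [hfx, add_zero]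
    rw [h2]; exact h1
  rcases hcd with ⟨h1, rfl⟩ | ⟨h1, rfl⟩
  · left; exact ⟨by omega, hdeg⟩
  · right; exact ⟨by omega, hdeg⟩

lemma HD_of_low {V : Type} [AddCommGroup V] [Module (ZMod 2) V] [Fintype V] (f : V → ZMod 2)
    (hn : Module.finrank (ZMod 2) V ≤ 3) : HD f := by
  intro K φ
  have h1 := finrank_le_of_sub K
  have h2 : kap (Module.finrank (ZMod 2) K) = 0 := by unfold kap; omega
  rw [h2, pow_zero]
  exact one_dvd _

theorem main_ind : ∀ (n : ℕ) (V : Type) [AddCommGroup V] [Module (ZMod 2) V] [Fintype V],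
    Module.finrank (ZMod 2) V = n → ∀ f : V → ZMod 2, InU f →
      (∀ m, n = 2 * m + 2 → (∀ φ : Du V, |W f φ| < 2 ^ (m + 2)) →
        64 * ∑ φ : Du V, W f φ ^ 4 ≤ 127 * (2 ^ (2 * m + 2)) ^ 3) ∧
      (∀ m, n = 2 * m + 1 → ∃ φ : Du V, (2 : ℤ) ^ (m + 1) ≤ |W f φ|) := by
  intro n
  induction n using Nat.strong_induction_on with
  | _ n IH =>
    intro V _ _ _ hn f hf
    classical
    constructor
    · intro m hm hb
      rcases Nat.eq_zero_or_pos m with rfl | hmpos
      · exact even_small f (HD_of_low f (by omega)) 0 (by omega) (by omega) hb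
      obtain ⟨k, rfl⟩ : ∃ k, m = k + 1 := ⟨m - 1, by omega⟩
      by_cases hna : ∀ a : V, a ≠ 0 → ¬ IsAff (Dv a f)
      · rcases hf.base hna with ⟨h1, h2⟩ | ⟨h1, h2⟩
        · exact even_small f (HD_of_deg 5 (Or.inl ⟨rfl, h1⟩) h2) (k + 1) (by omega) (by omega) hb
        · exact even_cubic f (HD_of_deg 3 (Or.inr ⟨rfl, h1⟩) h2) h2 (k + 1) (by omega) hb hna
      · push Not at hna
        obtain ⟨a, ha, l, c, hc⟩ := hna
        by_cases hl : l = 0
        · exfalso
          obtain ⟨K, hK, hred⟩ := reduce_const f a ha c (by intro x; rw [hc x, hl]; simp)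
          have h1 := (IH _ (by omega) K rfl (fun y : K => f (K.subtype y + 0)) (hf.comp K.subtype 0)).2
            (k + 1) (by omega)
          obtain ⟨φ', hφ'⟩ := h1
          obtain ⟨φ, hφ⟩ := hred φ'
          have h2 := hb φ
          rw [hφ, abs_mul] at h2
          have h3 : |(2 : ℤ)| = 2 := by norm_num
          rw [h3] at h2
          have h4 : (2 : ℤ) ^ (k + 1 + 2) = 2 * 2 ^ (k + 1 + 1) := by ring
          rw [h4] at h2
          linarith
        · obtain ⟨K, b, hK, hred⟩ := reduce_aff f a ha l hl c hc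
          obtain ⟨hred1, hred2⟩ := @hred inferInstance
          have hbj : ∀ j : ZMod 2, ∀ φ' : Du K, |W (fun y : K => f (K.subtype y + j • b)) φ'| < 2 ^ (k + 2) := by
            intro j φ'
            obtain ⟨φ, hφ⟩ := hred1 j φ'
            have h2 := hb φ
            rw [hφ, abs_mul] at h2
            have h3 : |(2 : ℤ)| = 2 := by norm_num
            rw [h3] at h2
            have h4 : (2 : ℤ) ^ (k + 1 + 2) = 2 * 2 ^ (k + 2) := by ring
            rw [h4] at h2
            linarith
          have hj : ∀ j : ZMod 2, 64 * ∑ φ' : Du K, W (fun y : K => f (K.subtype y + j • b)) φ' ^ 4 ≤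
              127 * (2 ^ (2 * k + 2)) ^ 3 := by
            intro j
            exact (IH _ (by omega) K rfl (fun y : K => f (K.subtype y + j • b)) (hf.comp K.subtype (j • b))).1
              k (by omega) (hbj j)
          rw [hred2]
          have h0 := hj 0
          have h1 := hj 1
          have h5 : (127 : ℤ) * (2 ^ (2 * (k + 1) + 2)) ^ 3 = 64 * (127 * (2 ^ (2 * k + 2)) ^ 3) := by ring
          rw [h5]
          linarith
    · intro m hm
      rcases Nat.eq_zero_or_pos m with rfl | hmpos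
      · exact odd_bound f (HD_of_low f (by omega)) 0 (by omega)
      obtain ⟨k, rfl⟩ : ∃ k, m = k + 1 := ⟨m - 1, by omega⟩
      by_cases hna : ∀ a : V, a ≠ 0 → ¬ IsAff (Dv a f)
      · rcases hf.base hna with ⟨h1, h2⟩ | ⟨h1, h2⟩
        · exact odd_bound f (HD_of_deg 5 (Or.inl ⟨rfl, h1⟩) h2) (k + 1) (by omega)
        · exact odd_bound f (HD_of_deg 3 (Or.inr ⟨rfl, h1⟩) h2) (k + 1) (by omega)
      · push Not at hna
        obtain ⟨a, ha, l, c, hc⟩ := hna
        by_cases hl : l = 0
        · obtain ⟨K, hK, hred⟩ := reduce_const f a ha c (by intro x; rw [hc x, hl]; simp)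
          -- Parseval on K
          have hKfr : Module.finrank (ZMod 2) K = 2 * (k + 1) := by omega
          have hcardK : (Fintype.card K : ℤ) = 2 ^ (2 * (k + 1)) := by rw [card_V, hKfr]; push_cast; ring
          have hp := parseval (fun y : K => f (K.subtype y + 0))
          obtain ⟨φ', hφ'⟩ : ∃ φ' : Du K, (2 : ℤ) ^ (k + 1) ≤ |W (fun y : K => f (K.subtype y + 0)) φ'| := by
            by_contra hcon
            push Not at hcon
            have h1 : ∀ φ' : Du K, W (fun y : K => f (K.subtype y + 0)) φ' ^ 2 < (2 ^ (k + 1)) ^ 2 := by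
              intro φ'
              exact sq_lt_sq' (by have := abs_lt.1 (hcon φ'); linarith [this.1]) (abs_lt.1 (hcon φ')).2
            have h2 : ∑ φ' : Du K, W (fun y : K => f (K.subtype y + 0)) φ' ^ 2 <
                ∑ _φ' : Du K, ((2 : ℤ) ^ (k + 1)) ^ 2 :=
              Finset.sum_lt_sum_of_nonempty ⟨0, Finset.mem_univ _⟩ (fun φ' _ => h1 φ')
            rw [hp] at h2
            simp only [Finset.sum_const, Finset.card_univ, nsmul_eq_mul] at h2
            rw [card_du, hcardK] at h2
            have h3 : ((2 : ℤ) ^ (2 * (k + 1))) ^ 2 = 2 ^ (2 * (k + 1)) * (2 ^ (k + 1)) ^ 2 := by ring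
            rw [h3] at h2
            exact lt_irrefl _ h2
          obtain ⟨φ, hφ⟩ := hred φ'
          refine ⟨φ, ?_⟩
          rw [hφ, abs_mul]
          have h3 : |(2 : ℤ)| = 2 := by norm_num
          rw [h3]
          have h4 : (2 : ℤ) ^ (k + 1 + 1) = 2 * 2 ^ (k + 1) := by ring
          rw [h4]
          linarith
        · obtain ⟨K, b, hK, hred⟩ := reduce_aff f a ha l hl c hc
          obtain ⟨hred1, _⟩ := @hred inferInstance
          obtain ⟨φ', hφ'⟩ := (IH _ (by omega) K rfl (fun y : K => f (K.subtype y + (0 : ZMod 2) • b))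
            (hf.comp K.subtype ((0 : ZMod 2) • b))).2 k (by omega)
          obtain ⟨φ, hφ⟩ := hred1 0 φ'
          refine ⟨φ, ?_⟩
          rw [hφ, abs_mul]
          have h3 : |(2 : ℤ)| = 2 := by norm_num
          rw [h3]
          have h4 : (2 : ℤ) ^ (k + 1 + 1) = 2 * 2 ^ (k + 1) := by ring
          rw [h4]
          linarith

end Pool.Agent.Work.MP_39d092_co.NL
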