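import Pool.Agent.Work.MP_39d092_co.NL.PieceEven
import Pool.Agent.Work.MP_39d092_co.NL.CoreEven

set_option autoImplicit false
open scoped BigOperators

namespace Pool.Agent.Work.MP_39d092_co.NL

section
variable {V : Type} [AddCommGroup V] [Module (ZMod 2) V] [Fintype V]

lemma W_sq (f : V → ZMod 2) (φ : Du V) :
    W f φ ^ 2 = ∑ a : V, (∑ x : V, sg (f x + f (x + a))) * sg (φ a) := by
  unfold W
  rw [sq, Finset.sum_mul_sum]
  have h1 : ∀ x : V, ∑ y : V, sg (f x + φ x) * sg (f y + φ y) =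
      ∑ a : V, sg (f x + f (x + a)) * sg (φ a) := by
    intro x
    rw [← Equiv.sum_comp (Equiv.addLeft x) (fun y => sg (f x + φ x) * sg (f y + φ y))]
    refine Finset.sum_congr rfl fun a _ => ?_
    rw [← sg_add, ← sg_add]
    congr 1
    show f x + φ x + (f (x + a) + φ (x + a)) = _
    rw [map_add]
    have := add_self_z (φ x)
    linear_combination this
  rw [Finset.sum_congr rfl fun x _ => h1 x, Finset.sum_comm]
  refine Finset.sum_congr rfl fun a _ => ?_
  rw [Finset.sum_mul]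

lemma sum_W4 (f : V → ZMod 2) :
    ∑ φ : Du V, W f φ ^ 4 = Fintype.card V * ∑ a : V, (∑ x : V, sg (f x + f (x + a))) ^ 2 := by
  have h := corrG (fun a : V => ∑ x : V, sg (f x + f (x + a))) 0
  simp only [map_zero, sg_zero, mul_one, add_zero] at h
  calc ∑ φ : Du V, W f φ ^ 4 = ∑ φ : Du V, (W f φ ^ 2) ^ 2 := by
        refine Finset.sum_congr rfl fun φ _ => ?_; ring
    _ = ∑ φ : Du V, (∑ a : V, (∑ x : V, sg (f x + f (x + a))) * sg (φ a)) ^ 2 := by
        refine Finset.sum_congr rfl fun φ _ => ?_; rw [W_sq]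
    _ = _ := by
        rw [h]; congr 1
        refine Finset.sum_congr rfl fun a _ => ?_; ring

variable {V' : Type} [AddCommGroup V'] [Module (ZMod 2) V'] [Fintype V']

open Classical in
lemma sum_psi (F : V → V') (a : V) :
    ∑ ψ : Du V', (∑ x : V, sg (ψ (F x) + ψ (F (x + a)))) ^ 2 =
      Fintype.card V' * ((Finset.univ.filter (fun p : V × V =>
        F p.1 + F (p.1 + a) + (F p.2 + F (p.2 + a)) = 0)).card : ℤ) := by
  have h1 : ∀ ψ : Du V', (∑ x : V, sg (ψ (F x) + ψ (F (x + a)))) ^ 2 =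
      ∑ p : V × V, sg (ψ (F p.1 + F (p.1 + a) + (F p.2 + F (p.2 + a)))) := by
    intro ψ
    rw [sq, Finset.sum_mul_sum, Fintype.sum_prod_type]
    refine Finset.sum_congr rfl fun x _ => Finset.sum_congr rfl fun y _ => ?_
    rw [← sg_add]; simp only [map_add]
  rw [Finset.sum_congr rfl fun ψ _ => h1 ψ, Finset.sum_comm]
  simp only [sum_dual_sg]
  rw [Finset.card_filter, Nat.cast_sum, Finset.mul_sum]
  refine Finset.sum_congr rfl fun p _ => ?_
  split_ifs <;> simp

lemma count_ne (F : V → V') {a : V} (ha : a ≠ 0) [DecidablePred (fun p : V × V =>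
        F p.1 + F (p.1 + a) + (F p.2 + F (p.2 + a)) = 0)] :
    2 * Fintype.card V ≤ (Finset.univ.filter (fun p : V × V =>
        F p.1 + F (p.1 + a) + (F p.2 + F (p.2 + a)) = 0)).card := by
  classical
  have h1 : (Finset.univ.image (fun x : V => (x, x))) ∪ (Finset.univ.image (fun x : V => (x, x + a))) ⊆
      Finset.univ.filter (fun p : V × V => F p.1 + F (p.1 + a) + (F p.2 + F (p.2 + a)) = 0) := by
    intro p hp
    simp only [Finset.mem_union, Finset.mem_image, Finset.mem_univ, true_and, Finset.mem_filter] at hp ⊢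
    rcases hp with ⟨x, rfl⟩ | ⟨x, rfl⟩
    · exact add_self2 _
    · simp only
      rw [add_assoc x a a, add_self2, add_zero, add_comm (F (x + a)) (F x)]
      exact add_self2 _
  have h2 : Disjoint (Finset.univ.image (fun x : V => (x, x))) (Finset.univ.image (fun x : V => (x, x + a))) := by
    rw [Finset.disjoint_left]
    intro p hp hp'
    simp only [Finset.mem_image, Finset.mem_univ, true_and] at hp hp'
    obtain ⟨x, rfl⟩ := hp
    obtain ⟨y, hy⟩ := hp'
    rw [Prod.mk.injEq] at hy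
    obtain ⟨h3, h4⟩ := hy
    apply ha
    rw [h3] at h4
    simpa using h4
  have h3 := Finset.card_le_card h1
  rw [Finset.card_union_of_disjoint h2, Finset.card_image_of_injective _ (fun x y h => (Prod.mk.inj h).1),
    Finset.card_image_of_injective _ (fun x y h => (Prod.mk.inj h).1), Finset.card_univ] at h3
  omega

/-- the fourth moment inequality -/
theorem fourth_moment (F : V → V') :
    (Fintype.card V : ℤ) * Fintype.card V' * (3 * (Fintype.card V : ℤ) ^ 2 - 2 * Fintype.card V) ≤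
      ∑ ψ : Du V', ∑ φ : Du V, W (fun x => ψ (F x)) φ ^ 4 := by
  classical
  have h1 : ∑ ψ : Du V', ∑ φ : Du V, W (fun x => ψ (F x)) φ ^ 4 =
      Fintype.card V * ∑ a : V, ∑ ψ : Du V', (∑ x : V, sg (ψ (F x) + ψ (F (x + a)))) ^ 2 := by
    rw [Finset.sum_comm (γ := V), Finset.mul_sum]
    exact Finset.sum_congr rfl fun ψ _ => sum_W4 _
  have h2 : ∀ a : V, (Fintype.card V' : ℤ) *
      (if a = 0 then (Fintype.card V : ℤ) ^ 2 else 2 * (Fintype.card V : ℤ)) ≤
      ∑ ψ : Du V', (∑ x : V, sg (ψ (F x) + ψ (F (x + a)))) ^ 2 := by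
    intro a
    rw [sum_psi]
    apply mul_le_mul_of_nonneg_left _ (by positivity)
    split_ifs with ha
    · subst ha
      have h3 : (Finset.univ.filter (fun p : V × V => F p.1 + F (p.1 + 0) + (F p.2 + F (p.2 + 0)) = 0)) =
          Finset.univ := by
        apply Finset.filter_true_of_mem
        intro p _
        rw [add_zero, add_zero, add_self2, add_self2, add_zero]
      rw [h3, Finset.card_univ, Fintype.card_prod]
      push_cast; rw [sq]
    · have h3 := count_ne F ha
      exact_mod_cast h3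
  have h3 := Finset.sum_le_sum (fun a (_ : a ∈ (Finset.univ : Finset V)) => h2 a)
  rw [← Finset.mul_sum] at h3
  have h4 : ∑ a : V, (if a = 0 then (Fintype.card V : ℤ) ^ 2 else 2 * (Fintype.card V : ℤ)) =
      3 * (Fintype.card V : ℤ) ^ 2 - 2 * Fintype.card V := by
    have h5 : ∀ a : V, (if a = 0 then (Fintype.card V : ℤ) ^ 2 else 2 * (Fintype.card V : ℤ)) =
        2 * (Fintype.card V : ℤ) + (if a = 0 then (Fintype.card V : ℤ) ^ 2 - 2 * Fintype.card V else 0) := by
      intro a; split_ifs <;> ring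
    rw [Finset.sum_congr rfl fun a _ => h5 a, Finset.sum_add_distrib, Finset.sum_ite_eq' Finset.univ (0 : V)]
    simp only [Finset.sum_const, Finset.card_univ, nsmul_eq_mul, Finset.mem_univ, if_true]
    ring
  rw [h4] at h3
  rw [h1, mul_assoc]
  exact mul_le_mul_of_nonneg_left h3 (by positivity)

/-- a function all of whose components, up to a small number of exceptions, are in one of the classes has a large
Walsh coefficient -/
theorem main_abs (F : V → V') (m : ℕ) (hn : Module.finrank (ZMod 2) V = 2 * m + 2)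
    (hn' : Module.finrank (ZMod 2) V' = 2 * m + 2) (X : Finset (Du V'))
    (hX : 129 * X.card < 2 ^ (2 * m + 2) - 1)
    (hF : ∀ ψ : Du V', ψ ≠ 0 → ψ ∉ X → InU (fun x => ψ (F x)) ∨ InP (fun x => ψ (F x)) ∨
      InQ (fun x => ψ (F x))) :
    ∃ ψ : Du V', ψ ≠ 0 ∧ ∃ φ : Du V, (2 : ℤ) ^ (m + 2) ≤ |W (fun x => ψ (F x)) φ| := by
  classical
  by_contra hcon
  push Not at hcon
  have hcard : (Fintype.card V : ℤ) = 2 ^ (2 * m + 2) := by rw [card_V, hn]; push_cast; ring
  have hcard' : (Fintype.card V' : ℤ) = 2 ^ (2 * m + 2) := by rw [card_V, hn']; push_cast; ring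
  have h1 := fourth_moment F
  rw [hcard, hcard'] at h1
  have hX' : 129 * (X.card : ℤ) < 2 ^ (2 * m + 2) - 1 := by
    have h5 : 1 ≤ 2 ^ (2 * m + 2) := Nat.one_le_two_pow
    have h6 : 129 * X.card + 1 < 2 ^ (2 * m + 2) := by omega
    have h7 : 129 * (X.card : ℤ) + 1 < 2 ^ (2 * m + 2) := by exact_mod_cast h6
    linarith
  set N : ℤ := 2 ^ (2 * m + 2) with hN
  have hN4 : 4 ≤ N := by
    rw [hN]
    calc (4 : ℤ) = 2 ^ 2 := by norm_num
      _ ≤ 2 ^ (2 * m + 2) := pow_le_pow_right₀ (by norm_num) (by omega)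
  have h2 : ∀ ψ : Du V', ψ ≠ 0 → 64 * ∑ φ : Du V, W (fun x => ψ (F x)) φ ^ 4 ≤
      127 * N ^ 3 + (if ψ ∈ X then 129 * N ^ 3 else 0) := by
    intro ψ hψ
    by_cases hψX : ψ ∈ X
    · rw [if_pos hψX]
      have h5 : ∀ φ : Du V, W (fun x => ψ (F x)) φ ^ 4 ≤ 4 * N * W (fun x => ψ (F x)) φ ^ 2 := by
        intro φ
        have h6 := (hcon ψ hψ φ).le
        have h7 : W (fun x => ψ (F x)) φ ^ 2 ≤ (2 ^ (m + 2)) ^ 2 := sq_le_sq' (by
          have := (abs_le.1 h6).1; linarith) (abs_le.1 h6).2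
        have h8 : ((2 : ℤ) ^ (m + 2)) ^ 2 = 4 * N := by rw [hN]; ring
        rw [h8] at h7
        have h9 : 0 ≤ W (fun x => ψ (F x)) φ ^ 2 := sq_nonneg _
        calc W (fun x => ψ (F x)) φ ^ 4 = W (fun x => ψ (F x)) φ ^ 2 * W (fun x => ψ (F x)) φ ^ 2 := by ring
          _ ≤ _ := mul_le_mul_of_nonneg_right h7 h9
      have h6 := Finset.sum_le_sum (fun φ (_ : φ ∈ (Finset.univ : Finset (Du V))) => h5 φ)
      rw [← Finset.mul_sum, parseval, hcard] at h6
      have h7 : 4 * N * N ^ 2 = 4 * N ^ 3 := by ring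
      rw [h7] at h6
      linarith
    · rw [if_neg hψX, add_zero]
      rcases hF ψ hψ hψX with h | h | h
      · exact (main_ind (2 * m + 2) V hn _ h).1 m rfl (hcon ψ hψ)
      · exact even_piece _ h m hn (hcon ψ hψ)
      · exact even_pieceQ _ h m hn (hcon ψ hψ)
  have h0 : ∑ φ : Du V, W (fun x => (0 : Du V') (F x)) φ ^ 4 = N ^ 4 := by
    have : ∀ φ : Du V, W (fun x => (0 : Du V') (F x)) φ = if φ = 0 then (Fintype.card V : ℤ) else 0 := by
      intro φ
      rw [← sum_sg_dual]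
      unfold W
      refine Finset.sum_congr rfl fun x _ => ?_
      simp
    simp only [this]
    have h5 : ∀ φ : Du V, (if φ = 0 then (Fintype.card V : ℤ) else 0) ^ 4 =
        if φ = 0 then (Fintype.card V : ℤ) ^ 4 else 0 := by
      intro φ; split_ifs <;> simp
    rw [Finset.sum_congr rfl fun φ _ => h5 φ, Finset.sum_ite_eq' Finset.univ (0 : Du V)]
    simp [hcard]
  have h3 : ∑ ψ : Du V', ∑ φ : Du V, W (fun x => ψ (F x)) φ ^ 4 =
      N ^ 4 + ∑ ψ ∈ Finset.univ.erase (0 : Du V'), ∑ φ : Du V, W (fun x => ψ (F x)) φ ^ 4 := by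
    rw [← Finset.add_sum_erase Finset.univ _ (Finset.mem_univ (0 : Du V')), h0]
  have hcardE : ((Finset.univ.erase (0 : Du V')).card : ℤ) = N - 1 := by
    rw [Finset.card_erase_of_mem (Finset.mem_univ _), Finset.card_univ, card_du]
    have : 1 ≤ Fintype.card V' := Fintype.card_pos
    push_cast [Nat.cast_sub this]
    rw [hcard']
  have h4 : ∑ ψ ∈ Finset.univ.erase (0 : Du V'), 64 * ∑ φ : Du V, W (fun x => ψ (F x)) φ ^ 4 ≤
      ∑ ψ ∈ Finset.univ.erase (0 : Du V'), (127 * N ^ 3 + (if ψ ∈ X then 129 * N ^ 3 else 0)) :=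
    Finset.sum_le_sum (fun ψ hψ => h2 ψ (Finset.ne_of_mem_erase hψ))
  have h5 : ∑ ψ ∈ Finset.univ.erase (0 : Du V'), (if ψ ∈ X then 129 * N ^ 3 else 0) ≤
      (X.card : ℤ) * (129 * N ^ 3) := by
    calc ∑ ψ ∈ Finset.univ.erase (0 : Du V'), (if ψ ∈ X then 129 * N ^ 3 else 0) ≤
        ∑ ψ : Du V', (if ψ ∈ X then 129 * N ^ 3 else 0) := by
          apply Finset.sum_le_sum_of_subset_of_nonneg (Finset.erase_subset _ _)
          intro ψ _ _
          split_ifs <;> positivity
      _ = _ := by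
          rw [Finset.sum_ite_mem, Finset.univ_inter, Finset.sum_const, nsmul_eq_mul]
  rw [← Finset.mul_sum, Finset.sum_add_distrib, Finset.sum_const, nsmul_eq_mul, hcardE] at h4
  rw [h3] at h1
  have h6 : (X.card : ℤ) * (129 * N ^ 3) < (N - 1) * N ^ 3 := by
    have h7 : 0 < N ^ 3 := by positivity
    calc (X.card : ℤ) * (129 * N ^ 3) = (129 * (X.card : ℤ)) * N ^ 3 := by ring
      _ < _ := mul_lt_mul_of_pos_right hX' h7
  have h7 : N * N * (3 * N ^ 2 - 2 * N) = N ^ 4 + (N - 1) * (2 * N ^ 3) := by ring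
  rw [h7] at h1
  linarith

end

end Pool.Agent.Work.MP_39d092_co.NL
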