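import Pool.Agent.Work.MP_39d092_co.NL.Diff

set_option autoImplicit false
open scoped BigOperators

namespace Pool.Agent.Work.MP_39d092_co.NL

lemma no_sq_odd_pow (z : ℤ) (m : ℕ) : z ^ 2 ≠ 2 ^ (2 * m + 1) := by
  intro h
  have h1 : (z.natAbs) ^ 2 = 2 ^ (2 * m + 1) := by
    have : ((z.natAbs : ℤ)) ^ 2 = 2 ^ (2 * m + 1) := by rw [Int.natAbs_sq]; exact h
    exact_mod_cast this
  have h2 := congrArg (fun t => t.factorization 2) h1
  simp only [Nat.factorization_pow, Finsupp.smul_apply, smul_eq_mul] at h2
  rw [Nat.Prime.factorization_self Nat.prime_two] at h2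
  omega

section
variable {V : Type} [AddCommGroup V] [Module (ZMod 2) V] [Fintype V]

/-- a function on `Du V` whose second differences vanish is constant or balanced -/
lemma const_or_balanced (c : Du V → ZMod 2)
    (h : ∀ φ β γ, c φ + c (φ + β) + c (φ + γ) + c (φ + β + γ) = 0) :
    (∀ φ, c φ = c 0) ∨ ∑ φ : Du V, sg (c φ) = 0 := by
  let ℓ : Du V →+ ZMod 2 :=
    { toFun := fun φ => c φ + c 0
      map_zero' := add_self_z _
      map_add' := by
        intro φ ψ
        have h1 := h 0 φ ψ
        simp only [zero_add] at h1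
        have h2 := add_self_z (c φ)
        have h3 := add_self_z (c ψ)
        have h4 := add_self_z (c 0)
        show c (φ + ψ) + c 0 = c φ + c 0 + (c ψ + c 0)
        linear_combination h1 - h2 - h3 - h4 }
  let L : Du (Du V) := ℓ.toZModLinearMap 2
  have hL : ∀ φ, c φ = L φ + c 0 := by
    intro φ
    show c φ = c φ + c 0 + c 0
    rw [add_assoc, add_self_z, add_zero]
  by_cases h0 : L = 0
  · left
    intro φ
    rw [hL φ, h0]; simp
  · right
    have h1 : ∑ φ : Du V, sg (c φ) = (∑ φ : Du V, sg (L φ)) * sg (c 0) := by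
      rw [Finset.sum_mul]
      refine Finset.sum_congr rfl fun φ _ => ?_
      rw [hL φ, sg_add]
    rw [h1, sum_sg_dual, if_neg h0, zero_mul]

theorem odd_bound (f : V → ZMod 2) (hf : HD f) (m : ℕ) (hN : Module.finrank (ZMod 2) V = 2 * m + 1) :
    ∃ φ : Du V, (2 : ℤ) ^ (m + 1) ≤ |W f φ| := by
  by_contra hcon
  push Not at hcon
  have hcard : (Fintype.card V : ℤ) = 2 ^ (2 * m + 1) := by rw [card_V, hN]; push_cast; ring
  have hcardD : (Fintype.card (Du V) : ℤ) = 2 ^ (2 * m + 1) := by rw [card_du]; exact hcard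
  have hpars := parseval f
  rcases Nat.eq_zero_or_pos m with rfl | hm
  · -- dimension one
    have h2 : ∀ φ, (2 : ℤ) ∣ W f φ := by
      intro φ
      have h3 : (2 : ℤ) ∣ ∑ x : V, (sg (f x + φ x) - 1) := by
        apply Finset.dvd_sum
        intro x _
        rcases z2 (f x + φ x) with h | h <;> simp [h]
      rw [Finset.sum_sub_distrib] at h3
      simp only [Finset.sum_const, Finset.card_univ, nsmul_eq_mul, mul_one] at h3
      rw [hcard] at h3
      have : W f φ = (∑ x : V, sg (f x + φ x) - 2 ^ (2 * 0 + 1)) + 2 := by unfold W; ring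
      rw [this]
      exact dvd_add h3 (dvd_refl _)
    have h4 : ∀ φ, W f φ = 0 := by
      intro φ
      have h5 := hcon φ
      obtain ⟨t, ht⟩ := h2 φ
      rw [ht] at h5 ⊢
      rw [abs_lt] at h5
      simp at h5
      omega
    rw [hcard] at hpars
    simp [h4] at hpars
  · obtain ⟨k, rfl⟩ : ∃ k, m = k + 1 := ⟨m - 1, by omega⟩
    set r : ℤ := 2 ^ k with hr
    have hrpos : 0 < r := by positivity
    have hw : ∀ φ, ∃ w : ℤ, W f φ = r * w := by
      intro φ
      have h := hf.w0 φ
      have : kap (Module.finrank (ZMod 2) V) = k := by rw [hN]; unfold kap; omega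
      rw [this] at h
      exact h
    choose w hw using hw
    have hwlt : ∀ φ, |w φ| < 4 := by
      intro φ
      have h := hcon φ
      rw [hw, abs_mul, abs_of_pos hrpos] at h
      have : (2 : ℤ) ^ (k + 1 + 1) = r * 4 := by rw [hr]; ring
      rw [this] at h
      exact lt_of_mul_lt_mul_left h hrpos.le
    have hw1 : ∀ φ α, (2 : ℤ) ∣ w φ + w (φ + α) := by
      intro φ α
      have h := hf.w1 φ α
      have : kap (Module.finrank (ZMod 2) V - 1) = k := by rw [hN]; unfold kap; omega
      rw [this, hw, hw, ← mul_add, mul_comm] at h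
      exact Int.dvd_of_mul_dvd_mul_left hrpos.ne' h
    have hw3 : ∀ φ α β γ, (4 : ℤ) ∣ w φ + w (φ + α) + w (φ + β) + w (φ + α + β) +
        w (φ + γ) + w (φ + α + γ) + w (φ + β + γ) + w (φ + α + β + γ) := by
      intro φ α β γ
      have h := hf.w3 φ α β γ
      have h1 : r * 4 ∣ (8 : ℤ) * 2 ^ kap (Module.finrank (ZMod 2) V - 3) := by
        rw [hN, hr]
        have h2 : (8 : ℤ) * 2 ^ kap (2 * (k + 1) + 1 - 3) = 2 ^ (3 + kap (2 * (k + 1) + 1 - 3)) := by
          rw [pow_add]; norm_num
        have h3 : (2 : ℤ) ^ k * 4 = 2 ^ (k + 2) := by rw [pow_add]; norm_num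
        rw [h2, h3]
        apply pow_dvd_pow
        unfold kap; omega
      have h4 := h1.trans h
      simp only [hw, ← mul_add] at h4
      exact Int.dvd_of_mul_dvd_mul_left hrpos.ne' h4
    have hsum : ∑ φ : Du V, w φ ^ 2 = 8 * 2 ^ (2 * (k + 1) + 1) := by
      have h1 : ∑ φ : Du V, W f φ ^ 2 = r ^ 2 * ∑ φ : Du V, w φ ^ 2 := by
        rw [Finset.mul_sum]
        refine Finset.sum_congr rfl fun φ _ => ?_
        rw [hw]; ring
      rw [h1, hcard] at hpars
      have h2 : ((2 : ℤ) ^ (2 * (k + 1) + 1)) ^ 2 = r ^ 2 * (8 * 2 ^ (2 * (k + 1) + 1)) := by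
        rw [hr]; ring
      rw [h2] at hpars
      exact mul_left_cancel₀ (by positivity) hpars
    rcases Int.even_or_odd (w 0) with he | ho
    · -- all even
      have hall : ∀ φ, w φ ^ 2 ≤ 4 := by
        intro φ
        have h1 := hw1 0 φ
        rw [zero_add] at h1
        have h2 : (2 : ℤ) ∣ w φ := (Int.dvd_add_right he.two_dvd).1 h1
        obtain ⟨t, ht⟩ := h2
        have h3 := hwlt φ
        rw [ht] at h3 ⊢
        rw [abs_lt] at h3
        have h4 : -1 ≤ t := by omega
        have h5 : t ≤ 1 := by omega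
        nlinarith
      have h2 : ∑ φ : Du V, w φ ^ 2 ≤ ∑ _φ : Du V, (4 : ℤ) := Finset.sum_le_sum fun φ _ => hall φ
      simp only [Finset.sum_const, Finset.card_univ, nsmul_eq_mul] at h2
      rw [hsum, hcardD] at h2
      have : (0 : ℤ) < 2 ^ (2 * (k + 1) + 1) := by positivity
      linarith
    · -- all odd
      have hall : ∀ φ, ∃ t : ℤ, w φ = 1 + 2 * t := by
        intro φ
        have h1 := hw1 0 φ
        rw [zero_add] at h1
        obtain ⟨s, hs⟩ := ho
        obtain ⟨u, hu⟩ := h1
        exact ⟨u - s - 1, by omega⟩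
      choose t ht using hall
      set b : Du V → ZMod 2 := fun φ => (t φ : ZMod 2) with hb
      have hb3 : ∀ φ α β γ, b φ + b (φ + α) + b (φ + β) + b (φ + α + β) +
          b (φ + γ) + b (φ + α + γ) + b (φ + β + γ) + b (φ + α + β + γ) = 0 := by
        intro φ α β γ
        have h := hw3 φ α β γ
        simp only [ht] at h
        obtain ⟨u, hu⟩ := h
        have h2 : (t φ + t (φ + α) + t (φ + β) + t (φ + α + β) +
          t (φ + γ) + t (φ + α + γ) + t (φ + β + γ) + t (φ + α + β + γ)) = 2 * (u - 2) := by linarith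
        have h3 := congrArg (fun z : ℤ => (z : ZMod 2)) h2
        have h4 : (2 : ZMod 2) = 0 := by decide
        push_cast at h3
        simp only [hb]
        rw [h3, h4, zero_mul]
      have hcb : ∀ α, (∀ φ, b φ + b (φ + α) = b 0 + b (0 + α)) ∨ ∑ φ : Du V, sg (b φ + b (φ + α)) = 0 := by
        intro α
        apply const_or_balanced (fun φ => b φ + b (φ + α))
        intro φ β γ
        have h := hb3 φ α β γ
        have e1 : φ + β + α = φ + α + β := by abel
        have e2 : φ + γ + α = φ + α + γ := by abel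
        have e3 : φ + β + γ + α = φ + α + β + γ := by abel
        simp only [e1, e2, e3]
        linear_combination h
      -- some nonzero alpha is constant
      obtain ⟨α, hα0, hα⟩ : ∃ α : Du V, α ≠ 0 ∧ ∀ φ, b φ + b (φ + α) = b 0 + b (0 + α) := by
        by_contra hno
        push Not at hno
        have hz : ∀ α : Du V, α ≠ 0 → ∑ φ : Du V, sg (b φ + b (φ + α)) = 0 := by
          intro α hα
          rcases hcb α with h | h
          · obtain ⟨φ, hφ⟩ := hno α hα
            exact absurd (h φ) hφ
          · exact h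
        have hsq : (∑ φ : Du V, sg (b φ)) ^ 2 = 2 ^ (2 * (k + 1) + 1) := by
          rw [sq, Finset.sum_mul_sum]
          have h1 : ∑ φ : Du V, ∑ ψ : Du V, sg (b φ) * sg (b ψ) =
              ∑ φ : Du V, ∑ α : Du V, sg (b φ + b (φ + α)) := by
            refine Finset.sum_congr rfl fun φ _ => ?_
            rw [← Equiv.sum_comp (Equiv.addLeft φ) (fun ψ => sg (b φ) * sg (b ψ))]
            refine Finset.sum_congr rfl fun α _ => ?_
            rw [sg_add]; rfl
          rw [h1, Finset.sum_comm]
          classical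
          rw [Finset.sum_eq_single (0 : Du V)]
          · simp only [add_zero, add_self_z, sg_zero, Finset.sum_const, Finset.card_univ, nsmul_eq_mul, mul_one]
            exact hcardD
          · intro α _ hα; exact hz α hα
          · intro h; exact absurd (Finset.mem_univ _) h
        exact no_sq_odd_pow _ _ hsq
      -- final contradiction
      have hcorr : ∑ φ : Du V, w φ * w (φ + α) = 0 := by
        have h1 := corr_zero f hα0
        have h2 : ∑ φ : Du V, W f φ * W f (φ + α) = r ^ 2 * ∑ φ : Du V, w φ * w (φ + α) := by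
          rw [Finset.mul_sum]
          refine Finset.sum_congr rfl fun φ _ => ?_
          rw [hw, hw]; ring
        rw [h2] at h1
        rcases mul_eq_zero.1 h1 with h | h
        · exact absurd h (by positivity)
        · exact h
      have hτ : ∀ φ, sg (b φ) * w φ = 1 ∨ sg (b φ) * w φ = -3 := by
        intro φ
        have h1 := hwlt φ
        rw [abs_lt] at h1
        have h2 := ht φ
        have h3 : w φ = -3 ∨ w φ = -1 ∨ w φ = 1 ∨ w φ = 3 := by omega
        have h4 : t φ = -2 ∨ t φ = -1 ∨ t φ = 0 ∨ t φ = 1 := by omega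
        rcases h4 with h | h | h | h
        · have hb0 : b φ = 0 := by simp only [hb, h]; decide
          rw [hb0, h2, h]; right; simp
        · have hb0 : b φ = 1 := by simp only [hb, h]; decide
          rw [hb0, h2, h]; left; simp
        · have hb0 : b φ = 0 := by simp only [hb, h]; decide
          rw [hb0, h2, h]; left; simp
        · have hb0 : b φ = 1 := by simp only [hb, h]; decide
          rw [hb0, h2, h]; right; simp
      have hpt : ∀ φ, 3 * (w φ ^ 2 + w (φ + α) ^ 2) - 36 ≤
          2 * (sg (b 0 + b (0 + α)) * (w φ * w (φ + α))) := by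
        intro φ
        rw [← hα φ, sg_add]
        have e1 : sg (b φ) * sg (b (φ + α)) * (w φ * w (φ + α)) =
            (sg (b φ) * w φ) * (sg (b (φ + α)) * w (φ + α)) := by ring
        have e2 : w φ ^ 2 = (sg (b φ) * w φ) ^ 2 := by
          have := sg_sq (b φ)
          calc w φ ^ 2 = (sg (b φ) * sg (b φ)) * w φ ^ 2 := by rw [this, one_mul]
            _ = _ := by ring
        have e3 : w (φ + α) ^ 2 = (sg (b (φ + α)) * w (φ + α)) ^ 2 := by
          have := sg_sq (b (φ + α))
          calc w (φ + α) ^ 2 = (sg (b (φ + α)) * sg (b (φ + α))) * w (φ + α) ^ 2 := by rw [this, one_mul]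
            _ = _ := by ring
        rw [e1, e2, e3]
        rcases hτ φ with h | h <;> rcases hτ (φ + α) with h' | h' <;> rw [h, h'] <;> norm_num
      have hs := Finset.sum_le_sum (fun φ (_ : φ ∈ (Finset.univ : Finset (Du V))) => hpt φ)
      have h5 : ∑ φ : Du V, w (φ + α) ^ 2 = ∑ φ : Du V, w φ ^ 2 :=
        Fintype.sum_equiv (Equiv.addRight α) _ _ (fun x => rfl)
      rw [Finset.sum_sub_distrib, ← Finset.mul_sum, Finset.sum_add_distrib, h5, hsum, ← Finset.mul_sum,
        ← Finset.mul_sum, hcorr] at hs
      simp only [Finset.sum_const, Finset.card_univ, nsmul_eq_mul] at hs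
      rw [hcardD] at hs
      have : (0 : ℤ) < 2 ^ (2 * (k + 1) + 1) := by positivity
      linarith

end

end Pool.Agent.Work.MP_39d092_co.NL
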