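import Pool.Agent.Work.MP_39d092_co.NL.Induct

set_option autoImplicit false
open scoped BigOperators

namespace Pool.Agent.Work.MP_39d092_co.NL

/-- piecewise quadratic: quadratic on each coset of a subspace of codimension three -/
def InP {V : Type} [AddCommGroup V] [Module (ZMod 2) V] (f : V → ZMod 2) : Prop :=
  ∃ (L : V →ₗ[ZMod 2] (Fin 3 → ZMod 2)) (q : (Fin 3 → ZMod 2) → V → ZMod 2),
    Function.Surjective L ∧ (∀ c, Deg 2 (q c)) ∧ ∀ x, f x = q (L x) x

section
variable {V : Type} [AddCommGroup V] [Module (ZMod 2) V] [Fintype V]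

lemma flat_sum2 {g : V → ZMod 2} (hg : Deg 2 g) (l : List (V → ZMod 2)) (hl : ∀ g ∈ l, IsAff g) (k n : ℕ)
    (hlen : l.length ≤ k) (hn : n ≤ Module.finrank (ZMod 2) V) (P : V → Prop) [DecidablePred P]
    (hP : ∀ x, P x ↔ ∀ g ∈ l, g x = 1) :
    (2 : ℤ) ^ ((n - k + 1) / 2) ∣ ∑ x ∈ Finset.univ.filter P, sg (g x) := by
  classical
  by_cases hne : ∃ x0 : V, ∀ g ∈ l, g x0 = 1
  · obtain ⟨x0, hx0⟩ := hne
    obtain ⟨K, hK, hKx⟩ := flat_param l hl x0 hx0
    rw [sum_flat K x0 (fun x => sg (g x)) P (fun x => (hP x).trans (hKx x))]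
    have h2 := ax 2 (by norm_num) _ K rfl (fun y : K => g (K.subtype y + x0)) (hg.comp K.subtype x0)
    refine (pow_dvd_pow 2 ?_).trans h2
    omega
  · have : Finset.univ.filter P = ∅ := by
      apply Finset.filter_eq_empty_iff.2
      intro x _ hx
      exact hne ⟨x, (hP x).1 hx⟩
    rw [this]; simp

/-- the three affine conditions `L x = c` -/
lemma eq_iff_list (L : V →ₗ[ZMod 2] (Fin 3 → ZMod 2)) (c : Fin 3 → ZMod 2) (x : V) :
    L x = c ↔ ∀ g ∈ [fun x : V => L x 0 + (c 0 + 1), fun x : V => L x 1 + (c 1 + 1),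
      fun x : V => L x 2 + (c 2 + 1)], g x = 1 := by
  have key : ∀ a b : ZMod 2, a = b ↔ a + (b + 1) = 1 := by decide
  constructor
  · rintro rfl
    intro g hg
    simp only [List.mem_cons, List.not_mem_nil, or_false] at hg
    rcases hg with rfl | rfl | rfl <;> exact (key _ _).1 rfl
  · intro h
    have h0 := h _ (List.mem_cons_self)
    have h1 := h _ (List.mem_cons_of_mem _ List.mem_cons_self)
    have h2 := h _ (List.mem_cons_of_mem _ (List.mem_cons_of_mem _ List.mem_cons_self))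
    funext i
    fin_cases i
    · exact (key _ _).2 h0
    · exact (key _ _).2 h1
    · exact (key _ _).2 h2

lemma list_aff (L : V →ₗ[ZMod 2] (Fin 3 → ZMod 2)) (c : Fin 3 → ZMod 2) :
    ∀ g ∈ [fun x : V => L x 0 + (c 0 + 1), fun x : V => L x 1 + (c 1 + 1),
      fun x : V => L x 2 + (c 2 + 1)], IsAff g := by
  intro g hg
  simp only [List.mem_cons, List.not_mem_nil, or_false] at hg
  rcases hg with rfl | rfl | rfl
  · exact ⟨(LinearMap.proj 0).comp L, c 0 + 1, fun x => rfl⟩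
  · exact ⟨(LinearMap.proj 1).comp L, c 1 + 1, fun x => rfl⟩
  · exact ⟨(LinearMap.proj 2).comp L, c 2 + 1, fun x => rfl⟩

/-- sums over the pieces inside a flat given by a list `l'` of further affine conditions -/
lemma piece_sum {f : V → ZMod 2} (L : V →ₗ[ZMod 2] (Fin 3 → ZMod 2)) (q : (Fin 3 → ZMod 2) → V → ZMod 2)
    (hq : ∀ c, Deg 2 (q c)) (hf : ∀ x, f x = q (L x) x) (φ : Du V) (l' : List (V → ZMod 2))
    (hl' : ∀ g ∈ l', IsAff g) (R : (Fin 3 → ZMod 2) → Prop) [DecidablePred R] (P : V → Prop) [DecidablePred P]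
    (hP : ∀ x, P x ↔ R (L x) ∧ ∀ g ∈ l', g x = 1) (n k e : ℕ) (hn : n ≤ Module.finrank (ZMod 2) V)
    (hk : l'.length ≤ k) (he : e ≤ (n - (k + 3) + 1) / 2) :
    (2 : ℤ) ^ e ∣ ∑ x ∈ Finset.univ.filter P, sg (f x + φ x) := by
  classical
  have h1 : ∑ x ∈ Finset.univ.filter P, sg (f x + φ x) =
      ∑ c : Fin 3 → ZMod 2, ∑ x ∈ (Finset.univ.filter P).filter (fun x => L x = c), sg (f x + φ x) :=
    (Finset.sum_fiberwise _ _ _).symm
  rw [h1]
  apply Finset.dvd_sum
  intro c _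
  by_cases hR : R c
  · have h2 : ∑ x ∈ (Finset.univ.filter P).filter (fun x => L x = c), sg (f x + φ x) =
        ∑ x ∈ (Finset.univ.filter P).filter (fun x => L x = c), sg ((fun x => q c x + φ x) x) := by
      refine Finset.sum_congr rfl fun x hx => ?_
      rw [Finset.mem_filter] at hx
      rw [hf x, hx.2]
    rw [h2, Finset.filter_filter]
    refine (pow_dvd_pow 2 he).trans (flat_sum2 (Deg.add (hq c) (Deg.aff (by norm_num) ⟨φ, 0, by simp⟩))
      ([fun x : V => L x 0 + (c 0 + 1), fun x : V => L x 1 + (c 1 + 1),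
      fun x : V => L x 2 + (c 2 + 1)] ++ l') ?_ (k + 3) n ?_ hn _ ?_)
    · intro g hg
      rcases List.mem_append.1 hg with h | h
      · exact list_aff L c g h
      · exact hl' g h
    · simp only [List.length_append, List.length_cons, List.length_nil]; omega
    · intro x
      rw [List.forall_mem_append, ← eq_iff_list, hP]
      constructor
      · rintro ⟨⟨_, h3⟩, h4⟩; exact ⟨h4, h3⟩
      · rintro ⟨h3, h4⟩; exact ⟨⟨by rw [h3]; exact hR, h4⟩, h3⟩
  · have h2 : (Finset.univ.filter P).filter (fun x => L x = c) = ∅ := by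
      apply Finset.filter_eq_empty_iff.2
      intro x hx h3
      rw [Finset.mem_filter] at hx
      have h4 := ((hP x).1 hx.2).1
      rw [h3] at h4
      exact hR h4
    rw [h2]; simp

lemma InP.HD {f : V → ZMod 2} (hf : InP f) : HD f := by
  classical
  obtain ⟨L, q, _, hq, hfx⟩ := hf
  intro K φ
  have h3 : ∑ x ∈ Finset.univ.filter (fun x : V => x ∈ K), sg (f x + φ x) =
      ∑ y : K, sg (f (y.1 + 0) + φ (y.1 + 0)) :=
    sum_flat K 0 (fun x => sg (f x + φ x)) (fun x => x ∈ K) (by intro x; simp)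
  have h4 : (2 : ℤ) ^ kap (Module.finrank (ZMod 2) K) ∣
      ∑ x ∈ Finset.univ.filter (fun x : V => x ∈ K), sg (f x + φ x) := by
    rw [h3]
    have h5 := piece_sum (V := K) (f := fun y : K => f (K.subtype y + 0)) (L.comp K.subtype)
      (fun c y => q c (K.subtype y + 0)) (fun c => (hq c).comp K.subtype 0)
      (by intro x; simp [hfx]) (φ.comp K.subtype) [] (by simp) (fun _ => True) (fun _ => True) (by simp)
      (Module.finrank (ZMod 2) K) 0 (kap (Module.finrank (ZMod 2) K)) le_rfl (by simp) (by unfold kap; omega)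
    simpa using h5
  convert h4

lemma dvd_card4 (L : V →ₗ[ZMod 2] (Fin 3 → ZMod 2)) (c : Fin 3 → ZMod 2) (l : Du V) (d : ZMod 2) :
    (Fintype.card V : ℤ) ∣ 16 * ((Finset.univ.filter (fun x : V => L x = c ∧ l x = d)).card : ℤ) := by
  classical
  have hL : ∀ x, L x = c ↔ (L x 0 = c 0 ∧ L x 1 = c 1 ∧ L x 2 = c 2) := by
    intro x
    constructor
    · rintro rfl; simp
    · rintro ⟨h0, h1, h2⟩
      funext i; fin_cases i
      · exact h0
      · exact h1
      · exact h2
  let a0 : Du V := (LinearMap.proj 0).comp L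
  let a1 : Du V := (LinearMap.proj 1).comp L
  let a2 : Du V := (LinearMap.proj 2).comp L
  have h1 : 16 * ((Finset.univ.filter (fun x : V => L x = c ∧ l x = d)).card : ℤ) =
      ∑ x : V, (1 + sg (c 0) * sg (a0 x)) * (1 + sg (c 1) * sg (a1 x)) * (1 + sg (c 2) * sg (a2 x)) *
        (1 + sg d * sg (l x)) := by
    rw [Finset.card_filter]
    push_cast
    rw [Finset.mul_sum]
    refine Finset.sum_congr rfl fun x _ => ?_
    have key : ∀ a b : ZMod 2, (1 : ℤ) + sg b * sg a = if a = b then 2 else 0 := by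
      intro a b
      rcases z2 a with rfl | rfl <;> rcases z2 b with rfl | rfl <;> simp
    rw [key, key, key, key]
    have e0 : a0 x = L x 0 := rfl
    have e1 : a1 x = L x 1 := rfl
    have e2 : a2 x = L x 2 := rfl
    rw [e0, e1, e2]
    by_cases h0 : L x 0 = c 0 <;> by_cases h1 : L x 1 = c 1 <;> by_cases h2 : L x 2 = c 2 <;>
      by_cases h3 : l x = d <;> simp [hL, h0, h1, h2, h3]
  have h3 : ∀ φ : Du V, (Fintype.card V : ℤ) ∣ ∑ x : V, sg (φ x) := by
    intro φ
    rw [sum_sg_dual]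
    split_ifs
    · exact dvd_refl _
    · exact dvd_zero _
  rw [h1]
  have h4 : ∑ x : V, (1 + sg (c 0) * sg (a0 x)) * (1 + sg (c 1) * sg (a1 x)) * (1 + sg (c 2) * sg (a2 x)) *
        (1 + sg d * sg (l x)) =
      (∑ x : V, sg ((0 : Du V) x) + sg (c 0) * ∑ x : V, sg (a0 x) + sg (c 1) * ∑ x : V, sg (a1 x) +
        sg (c 2) * ∑ x : V, sg (a2 x) + sg (c 0) * sg (c 1) * ∑ x : V, sg ((a0 + a1) x) +
        sg (c 0) * sg (c 2) * ∑ x : V, sg ((a0 + a2) x) + sg (c 1) * sg (c 2) * ∑ x : V, sg ((a1 + a2) x) +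
        sg (c 0) * sg (c 1) * sg (c 2) * ∑ x : V, sg ((a0 + a1 + a2) x)) +
      sg d * (∑ x : V, sg (l x) + sg (c 0) * ∑ x : V, sg ((a0 + l) x) + sg (c 1) * ∑ x : V, sg ((a1 + l) x) +
        sg (c 2) * ∑ x : V, sg ((a2 + l) x) + sg (c 0) * sg (c 1) * ∑ x : V, sg ((a0 + a1 + l) x) +
        sg (c 0) * sg (c 2) * ∑ x : V, sg ((a0 + a2 + l) x) +
        sg (c 1) * sg (c 2) * ∑ x : V, sg ((a1 + a2 + l) x) +
        sg (c 0) * sg (c 1) * sg (c 2) * ∑ x : V, sg ((a0 + a1 + a2 + l) x)) := by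
    simp only [Finset.mul_sum, ← Finset.sum_add_distrib]
    refine Finset.sum_congr rfl fun x _ => ?_
    simp only [LinearMap.add_apply, LinearMap.zero_apply, sg_add, sg_zero]
    ring
  rw [h4]
  have := h3
  refine dvd_add ?_ (Dvd.dvd.mul_left ?_ _)
  · exact dvd_add (dvd_add (dvd_add (dvd_add (dvd_add (dvd_add (dvd_add (h3 _) ((h3 _).mul_left _))
      ((h3 _).mul_left _)) ((h3 _).mul_left _)) ((h3 _).mul_left _)) ((h3 _).mul_left _)) ((h3 _).mul_left _))
      ((h3 _).mul_left _)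
  · exact dvd_add (dvd_add (dvd_add (dvd_add (dvd_add (dvd_add (dvd_add (h3 _) ((h3 _).mul_left _))
      ((h3 _).mul_left _)) ((h3 _).mul_left _)) ((h3 _).mul_left _)) ((h3 _).mul_left _)) ((h3 _).mul_left _))
      ((h3 _).mul_left _)

end

end Pool.Agent.Work.MP_39d092_co.NL
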