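import Pool.Agent.Work.MP_39d092_co.NL.Piece

set_option autoImplicit false
open scoped BigOperators

namespace Pool.Agent.Work.MP_39d092_co.NL

section
variable {V : Type} [AddCommGroup V] [Module (ZMod 2) V] [Fintype V]

theorem even_piece (f : V → ZMod 2) (hf : InP f) (m : ℕ) (hn : Module.finrank (ZMod 2) V = 2 * m + 2)
    (hb : ∀ φ : Du V, |W f φ| < 2 ^ (m + 2)) :
    64 * ∑ φ : Du V, W f φ ^ 4 ≤ 127 * (2 ^ (2 * m + 2)) ^ 3 := by
  classical
  rcases even_core f hf.HD m hn hb with h | ⟨e, δ, w, he, hw, hodd, heven, hbad⟩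
  · exact h
  exfalso
  obtain ⟨L, q, hLs, hq, hfx⟩ := hf
  have hmpos : 1 ≤ m := by
    have h1 := LinearMap.finrank_range_add_finrank_ker L
    rw [LinearMap.range_eq_top.2 hLs, finrank_top, hn] at h1
    simp at h1
    omega
  obtain ⟨μ, hμ⟩ := exists_dual_one he
  have hrpos : (0 : ℤ) < 2 ^ m := by positivity
  have hcard : Fintype.card V = 2 ^ (2 * m + 2) := by rw [card_V, hn]
  -- step 1 : `L e = 0`
  have hLe : L e = 0 := by
    by_contra hne
    obtain ⟨i, hi⟩ : ∃ i, L e i ≠ 0 := by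
      by_contra hcon
      push Not at hcon
      exact hne (funext hcon)
    let α : Du V := (LinearMap.proj i).comp L
    have hαe : α e = 1 := by
      rcases z2 (L e i) with h | h
      · exact absurd h hi
      · exact h
    have hφe : (δ • μ) e = δ := by simp [hμ]
    have ho := hodd (δ • μ) hφe
    have hev := heven (δ • μ + α) (by
      rw [LinearMap.add_apply, hφe, hαe]
      have key : ∀ a : ZMod 2, a + 1 ≠ a := by decide
      exact key _)
    have h1 := P_eq f α 1 (δ • μ)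
    have h2 : (2 : ℤ) ^ m ∣ P f α 1 (δ • μ) := by
      unfold P
      refine piece_sum L q hq hfx (δ • μ) [] (by simp) (fun c => c i = 1) _ ?_ (2 * m + 2) 0 m (by omega)
        (by simp) (by omega)
      intro x
      simp [α]
    obtain ⟨t, ht⟩ := h2
    rw [hw, hw, ht, sg_one] at h1
    have h3 : w (δ • μ) - w (δ • μ + α) = 2 * t := by
      have h4 : (2 : ℤ) ^ m * (w (δ • μ) - w (δ • μ + α)) = 2 ^ m * (2 * t) := by linarith
      exact mul_left_cancel₀ hrpos.ne' h4
    obtain ⟨s, hs⟩ := ho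
    obtain ⟨u, hu⟩ := hev
    omega
  have hLxe : ∀ x, L (x + e) = L x := by intro x; rw [map_add, hLe, add_zero]
  -- exceptional sets
  have hDv : ∀ x, Dv e f x = Dv e (q (L x)) x := by
    intro x; simp only [Dv]; rw [hfx, hfx, hLxe]
  set Ex := Finset.univ.filter (fun x : V => Dv e f x ≠ δ) with hEx
  have htot : (Finset.univ.filter (fun x : V => Dv e f x = δ)).card + Ex.card = 2 ^ (2 * m + 2) := by
    rw [hEx, Finset.card_filter_add_card_filter_not, Finset.card_univ, card_V, hn]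
  let Ec : (Fin 3 → ZMod 2) → Finset V := fun c => Ex.filter (fun x => L x = c)
  have hEcdvd : ∀ c, (2 : ℕ) ^ (2 * m + 2) ∣ 16 * (Ec c).card := by
    intro c
    obtain ⟨l, d, hl⟩ := ((hq c).dv e).isAff
    have h1 := dvd_card4 L c l (δ + 1 + d)
    have h2 : Ec c = Finset.univ.filter (fun x : V => L x = c ∧ l x = δ + 1 + d) := by
      ext x
      simp only [Ec, hEx, Finset.mem_filter, Finset.mem_univ, true_and]
      constructor
      · rintro ⟨h3, h4⟩
        refine ⟨h4, ?_⟩
        rw [hDv, h4, hl] at h3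
        have key : ∀ a b c : ZMod 2, a + c ≠ b → a = b + 1 + c := by decide
        exact key _ _ _ h3
      · rintro ⟨h3, h4⟩
        refine ⟨?_, h3⟩
        rw [hDv, h3, hl, h4]
        have key : ∀ b c : ZMod 2, b + 1 + c + c ≠ b := by decide
        exact key _ _
    rw [← h2, hcard] at h1
    exact_mod_cast h1
  have hExsum : Ex.card = ∑ c : Fin 3 → ZMod 2, (Ec c).card :=
    Finset.card_eq_sum_card_fiberwise (fun x _ => Finset.mem_coe.2 (Finset.mem_univ (L x)))
  have hExdvd : (2 : ℕ) ^ (2 * m + 2) ∣ 16 * Ex.card := by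
    rw [hExsum, Finset.mul_sum]
    exact Finset.dvd_sum fun c _ => hEcdvd c
  have hNpos : 0 < 2 ^ (2 * m + 2) := by positivity
  obtain ⟨u, hu⟩ := hExdvd
  have hu2 : u ≤ 2 := by
    by_contra h3
    have h4 : 3 ≤ u := by omega
    have h5 : 2 ^ (2 * m + 2) * 3 ≤ 2 ^ (2 * m + 2) * u := Nat.mul_le_mul_left _ h4
    omega
  have hEx8 : 8 * Ex.card ≤ 2 ^ (2 * m + 2) := by
    have h5 : 2 ^ (2 * m + 2) * u ≤ 2 ^ (2 * m + 2) * 2 := Nat.mul_le_mul_left _ hu2
    omega
  -- at most two bad cosets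
  set C := Finset.univ.filter (fun c : Fin 3 → ZMod 2 => (Ec c).card ≠ 0) with hC
  have hCcard : C.card ≤ 2 := by
    have h1 : ∀ c ∈ C, 2 ^ (2 * m + 2) ≤ 16 * (Ec c).card := by
      intro c hc
      rw [hC, Finset.mem_filter] at hc
      exact Nat.le_of_dvd (by have := hc.2; omega) (hEcdvd c)
    have h2 : ∑ c ∈ C, 16 * (Ec c).card ≤ 16 * Ex.card := by
      rw [hExsum, Finset.mul_sum]
      exact Finset.sum_le_sum_of_subset (Finset.subset_univ _)
    have h3 : C.card * 2 ^ (2 * m + 2) ≤ ∑ c ∈ C, 16 * (Ec c).card := by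
      have := Finset.card_nsmul_le_sum C _ _ h1
      simpa using this
    have h4 : C.card * 2 ^ (2 * m + 2) ≤ 2 * 2 ^ (2 * m + 2) := by
      calc _ ≤ _ := h3
        _ ≤ 16 * Ex.card := h2
        _ = 2 ^ (2 * m + 2) * u := hu
        _ ≤ 2 ^ (2 * m + 2) * 2 := Nat.mul_le_mul_left _ hu2
        _ = _ := by ring
    exact Nat.le_of_mul_le_mul_right h4 hNpos
  obtain ⟨ℓ, c1, hℓ, hℓC⟩ : ∃ (ℓ : Du (Fin 3 → ZMod 2)) (c1 : Fin 3 → ZMod 2), ℓ ≠ 0 ∧ ∀ c ∈ C, ℓ c = ℓ c1 := by
    obtain ⟨c1, c2, hcc⟩ : ∃ c1 c2, C ⊆ {c1, c2} := by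
      rcases Nat.lt_or_ge C.card 1 with h | h
      · have : C = ∅ := Finset.card_eq_zero.1 (by omega)
        exact ⟨0, 0, by rw [this]; simp⟩
      · rcases Nat.lt_or_ge C.card 2 with h' | h'
        · obtain ⟨c, hc⟩ := Finset.card_eq_one.1 (by omega : C.card = 1)
          exact ⟨c, c, by rw [hc]; simp⟩
        · obtain ⟨c, c', _, hc⟩ := Finset.card_eq_two.1 (by omega : C.card = 2)
          exact ⟨c, c', by rw [hc]⟩
    have hS : Submodule.span (ZMod 2) ({c1 + c2} : Set (Fin 3 → ZMod 2)) < ⊤ := by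
      rw [lt_top_iff_ne_top]
      intro h
      have h1 := finrank_span_le_card (R := ZMod 2) ({c1 + c2} : Set (Fin 3 → ZMod 2))
      rw [h, finrank_top] at h1
      simp at h1
    obtain ⟨ℓ, hℓ, hle⟩ := Submodule.exists_le_ker_of_lt_top _ hS
    have h12 : ℓ (c1 + c2) = 0 := hle (Submodule.subset_span rfl)
    rw [map_add] at h12
    refine ⟨ℓ, c1, hℓ, ?_⟩
    intro c hc
    have h2 := hcc hc
    simp only [Finset.mem_insert, Finset.mem_singleton] at h2
    rcases h2 with rfl | rfl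
    · rfl
    · have key : ∀ a b : ZMod 2, a + b = 0 → b = a := by decide
      exact key _ _ h12
  let α : Du V := ℓ.comp L
  have hα : α ≠ 0 := by
    intro h0
    apply hℓ
    ext i
    obtain ⟨x, hx⟩ := hLs (Pi.single i 1)
    have h1 : α x = 0 := by rw [h0]; rfl
    have h2 : ℓ (Pi.single i 1) = 0 := by rw [← hx]; exact h1
    simpa using h2
  have hαe : α e = 0 := by show ℓ (L e) = 0; rw [hLe, map_zero]
  set c' : ZMod 2 := ℓ c1 + 1 with hc'
  have hαx : ∀ x, α x = c' → Dv e f x = δ := by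
    intro x hx
    by_contra hne
    have h1 : L x ∈ C := by
      rw [hC, Finset.mem_filter]
      refine ⟨Finset.mem_univ _, ?_⟩
      have h2 : x ∈ Ec (L x) := by simp [Ec, hEx, hne]
      exact (Finset.card_pos.2 ⟨x, h2⟩).ne'
    have h2 := hℓC _ h1
    have h3 : α x = ℓ c1 := h2
    rw [h3, hc'] at hx
    have key : ∀ a : ZMod 2, a ≠ a + 1 := by decide
    exact key _ hx
  refine half_lemma f m hn hb e he δ w hw hodd α hα hαe c' hαx ?_ ?_
  · have h1 : (Finset.univ.filter (fun x : V => α x = c' + 1 ∧ Dv e f x ≠ δ)).card ≤ Ex.card := by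
      apply Finset.card_le_card
      intro x hx
      simp only [Finset.mem_filter, Finset.mem_univ, true_and, hEx] at hx ⊢
      exact hx.2
    omega
  · intro φ ψ hφ hψ
    have hβe : (φ + ψ) e = 0 := by rw [LinearMap.add_apply, hφ, hψ, add_self_z]
    have hψeq : ψ = φ + (φ + ψ) := by rw [← add_assoc, add_self2, zero_add]
    have h1 := P_add f α c' φ (φ + ψ)
    rw [← hψeq] at h1
    rw [h1]
    have hfold := fold_sum (fun x : V => α x = c' ∧ (φ + ψ) x = 0) (fun x => sg (f x + φ x)) e μ hμ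
      (fun x hx => by
        refine ⟨by rw [map_add, hαe, add_zero]; exact hx.1, ?_⟩
        rw [map_add, hβe, add_zero]; exact hx.2)
      (fun x hx => by
        have h2 := hαx x hx.1
        have h3 : f (x + e) + φ (x + e) = (f x + φ x) + (δ + φ e) := by
          rw [map_add, ← h2, Dv]
          have h4 := add_self_z (f x)
          linear_combination -h4
        rw [h3, hφ, add_self_z, add_zero])
    rw [hfold]
    have h5 : (2 : ℤ) ^ (m - 1) ∣ ∑ x ∈ Finset.univ.filter (fun x : V => (α x = c' ∧ (φ + ψ) x = 0) ∧ μ x = 0),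
        sg (f x + φ x) := by
      refine piece_sum L q hq hfx φ [fun x => (φ + ψ) x + 1, fun x => μ x + 1] ?_ (fun c => ℓ c = c') _ ?_
        (2 * m + 2) 2 (m - 1) (by omega) (by simp) (by omega)
      · intro g hg
        simp only [List.mem_cons, List.not_mem_nil, or_false] at hg
        rcases hg with rfl | rfl
        · exact ⟨φ + ψ, 1, fun x => rfl⟩
        · exact ⟨μ, 1, fun x => rfl⟩
      · intro x
        have key : ∀ a : ZMod 2, a = 0 ↔ a + 1 = 1 := by decide
        simp only [List.mem_cons, List.not_mem_nil, or_false, forall_eq_or_imp, forall_eq]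
        rw [key ((φ + ψ) x), key (μ x)]
        constructor
        · rintro ⟨⟨h1, h2⟩, h3⟩; exact ⟨h1, h2, h3⟩
        · rintro ⟨h1, h2, h3⟩; exact ⟨⟨h1, h2⟩, h3⟩
    obtain ⟨t, ht⟩ := h5
    rw [ht]
    obtain ⟨k, rfl⟩ : ∃ k, m = k + 1 := ⟨m - 1, by omega⟩
    refine ⟨t, ?_⟩
    simp only [Nat.add_sub_cancel]
    ring

end

end Pool.Agent.Work.MP_39d092_co.NL
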