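import Pool.Agent.Work.MP_39d092_co.NL.Small

set_option autoImplicit false
open scoped BigOperators

namespace Pool.Agent.Work.MP_39d092_co.NL

section
variable {V : Type} [AddCommGroup V] [Module (ZMod 2) V] [Fintype V]

lemma finrank_ker_eq {μ : Du V} (hμ : μ ≠ 0) :
    Module.finrank (ZMod 2) ↥(LinearMap.ker μ) + 1 = Module.finrank (ZMod 2) V := by
  have h3 := LinearMap.finrank_range_add_finrank_ker μ
  have h4 : Module.finrank (ZMod 2) (LinearMap.range μ) = 1 := by
    have hr : LinearMap.range μ = ⊤ := by
      rw [LinearMap.range_eq_top]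
      obtain ⟨x, hx⟩ := exists_one hμ
      intro t
      exact ⟨t • x, by simp [hx]⟩
    rw [hr, finrank_top]; simp
  omega

lemma sum_sub (K : Submodule (ZMod 2) V) [Fintype K] (P : V → Prop) [DecidablePred P] (b : V)
    (hP : ∀ x, P x ↔ x + b ∈ K) (G : V → ℤ) :
    ∑ x ∈ Finset.univ.filter P, G x = ∑ y : K, G (y.1 + b) := sum_flat K b G P hP

/-- constant derivative -/
theorem reduce_const (f : V → ZMod 2) (a : V) (ha : a ≠ 0) (c : ZMod 2) (hc : ∀ x, Dv a f x = c) :
    ∃ (K : Submodule (ZMod 2) V), Module.finrank (ZMod 2) K + 1 = Module.finrank (ZMod 2) V ∧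
      ∀ [Fintype K], ∀ φ' : Du K, ∃ φ : Du V, W f φ = 2 * W (fun y : K => f (K.subtype y + 0)) φ' := by
  classical
  obtain ⟨μ, hμ⟩ := exists_dual_one ha
  have hμ0 : μ ≠ 0 := by rintro rfl; simp at hμ
  refine ⟨LinearMap.ker μ, finrank_ker_eq hμ0, ?_⟩
  intro _ φ'
  have hπ : ∀ x, x + μ x • a ∈ LinearMap.ker μ := by
    intro x
    rw [LinearMap.mem_ker, map_add, map_smul, hμ, smul_eq_mul, mul_one, add_self_z]
  let π : V →ₗ[ZMod 2] LinearMap.ker μ :=
    LinearMap.codRestrict (LinearMap.ker μ) (LinearMap.id + (LinearMap.toSpanSingleton (ZMod 2) V a).comp μ)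
      (by intro x; simpa using hπ x)
  have hπv : ∀ x, (π x : V) = x + μ x • a := by intro x; simp [π]
  let φ : Du V := φ'.comp π + c • μ
  have hφa : φ a = c := by
    have h1 : π a = 0 := by
      apply Subtype.ext
      rw [hπv, hμ, one_smul, add_self2]; rfl
    simp [φ, h1, hμ]
  have hφK : ∀ y : LinearMap.ker μ, φ y = φ' y := by
    intro y
    have h0 : μ y = 0 := y.2
    have h1 : π y = y := by
      apply Subtype.ext
      rw [hπv, h0, zero_smul, add_zero]
    simp [φ, h1, h0]
  refine ⟨φ, ?_⟩
  have h1 : W f φ = ∑ x ∈ Finset.univ.filter (fun _ : V => True), sg (f x + φ x) := by simp [W]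
  rw [h1, fold_sum (fun _ : V => True) (fun x => sg (f x + φ x)) a μ hμ (fun _ _ => trivial)]
  · congr 1
    rw [sum_sub (LinearMap.ker μ) _ 0 (by intro x; simp)]
    unfold W
    refine Finset.sum_congr rfl fun y _ => ?_
    rw [← hφK y]
    simp
  · intro x _
    have h2 : f (x + a) + φ (x + a) = (f x + φ x) + (c + φ a) := by
      rw [map_add, ← hc x, Dv]
      have h4 := add_self_z (f x)
      linear_combination -h4
    rw [h2, hφa, add_self_z, add_zero]

/-- nonconstant affine derivative -/
theorem reduce_aff (f : V → ZMod 2) (a : V) (ha : a ≠ 0) (l : Du V) (hl : l ≠ 0) (c : ZMod 2)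
    (hc : ∀ x, Dv a f x = l x + c) :
    ∃ (K : Submodule (ZMod 2) V) (b : V), Module.finrank (ZMod 2) K + 2 = Module.finrank (ZMod 2) V ∧
      ∀ [Fintype K],
        (∀ (j : ZMod 2) (φ' : Du K), ∃ φ : Du V, W f φ = 2 * W (fun y : K => f (K.subtype y + j • b)) φ') ∧
        ∑ φ : Du V, W f φ ^ 4 = 32 * (∑ φ' : Du K, W (fun y : K => f (K.subtype y + (0 : ZMod 2) • b)) φ' ^ 4 +
          ∑ φ' : Du K, W (fun y : K => f (K.subtype y + (1 : ZMod 2) • b)) φ' ^ 4) := by
  classical
  have hla : l a = 0 := by
    have h1 := hc a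
    have h2 := hc 0
    rw [map_zero, zero_add, Dv] at h2
    rw [Dv, add_self2] at h1
    rw [zero_add] at h2
    have h3 : l a + c = c := by rw [← h1, ← h2]; ring
    simpa using h3
  obtain ⟨μ, hμ⟩ := exists_dual_one ha
  have hμ0 : μ ≠ 0 := by rintro rfl; simp at hμ
  obtain ⟨b0, hb0⟩ := exists_one hl
  set b : V := b0 + μ b0 • a with hb
  have hlb : l b = 1 := by rw [hb, map_add, map_smul, hla, hb0]; simp
  have hμb : μ b = 0 := by rw [hb, map_add, map_smul, hμ, smul_eq_mul, mul_one, add_self_z]
  set K : Submodule (ZMod 2) V := LinearMap.ker l ⊓ LinearMap.ker μ with hK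
  have hfr : Module.finrank (ZMod 2) K + 2 = Module.finrank (ZMod 2) V := by
    have h1 := finrank_ker_eq hl
    -- restrict mu to ker l
    have h2 : Module.finrank (ZMod 2) (LinearMap.ker l) ≤ Module.finrank (ZMod 2) K + 1 :=
      finrank_inf_ker (LinearMap.ker l) μ
    have h3 : Module.finrank (ZMod 2) K < Module.finrank (ZMod 2) (LinearMap.ker l) := by
      apply Submodule.finrank_lt_finrank_of_lt
      refine lt_of_le_of_ne inf_le_left ?_
      intro h
      have : a ∈ K := by rw [h]; exact hla
      have h4 : μ a = 0 := (Submodule.mem_inf.1 this).2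
      rw [hμ] at h4
      exact absurd h4 (by decide)
    omega
  refine ⟨K, b, hfr, ?_⟩
  intro _
  -- the Walsh transform formula
  have hW : ∀ φ : Du V, W f φ = 2 * (sg ((c + φ a) * φ b) *
      W (fun y : K => f (K.subtype y + (c + φ a) • b)) (φ.comp K.subtype)) := by
    intro φ
    have h1 : W f φ = ∑ x ∈ Finset.univ.filter (fun x : V => l x = c + φ a), sg (f x + φ x) := by
      have h2 : W f φ * 2 = (∑ x ∈ Finset.univ.filter (fun x : V => l x = c + φ a), sg (f x + φ x)) * 2 := by
        have h3 : W f φ = ∑ x : V, sg (f (x + a) + φ (x + a)) :=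
          (Fintype.sum_equiv (Equiv.addRight a) _ _ (fun x => rfl)).symm
        calc W f φ * 2 = W f φ + W f φ := by ring
          _ = ∑ x : V, sg (f x + φ x) + ∑ x : V, sg (f (x + a) + φ (x + a)) := by rw [← h3]; rfl
          _ = _ := by
            rw [← Finset.sum_add_distrib, Finset.sum_filter, Finset.sum_mul]
            refine Finset.sum_congr rfl fun x _ => ?_
            have h4 : f (x + a) + φ (x + a) = (f x + φ x) + (l x + (c + φ a)) := by
              have h5 := hc x
              rw [Dv] at h5
              rw [map_add]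
              have h6 := add_self_z (f x)
              linear_combination h5 - h6
            rw [h4, sg_add (f x + φ x) (l x + (c + φ a))]
            have h11 : (1 : ZMod 2) + 1 = 0 := by decide
            rcases z2 (l x) with h | h <;> rcases z2 (c + φ a) with h' | h' <;> rw [h, h'] <;>
              simp only [add_zero, zero_add, h11, sg_zero, sg_one, if_true, if_false, zero_ne_one, one_ne_zero] <;> ring
      exact mul_right_cancel₀ (by norm_num) h2
    rw [h1, fold_sum (fun x : V => l x = c + φ a) (fun x => sg (f x + φ x)) a μ hμ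
      (fun x hx => by rw [map_add, hla, add_zero]; exact hx)]
    · congr 1
      rw [sum_sub K _ ((c + φ a) • b)]
      · unfold W
        rw [Finset.mul_sum]
        refine Finset.sum_congr rfl fun y _ => ?_
        rw [← sg_add]
        congr 1
        simp only [map_add, map_smul, smul_eq_mul, LinearMap.comp_apply, Submodule.subtype_apply]
        ring
      · intro x
        rw [hK, Submodule.mem_inf, LinearMap.mem_ker, LinearMap.mem_ker, map_add, map_add, map_smul, map_smul,
          hlb, hμb, smul_eq_mul, mul_one, smul_eq_mul, mul_zero, add_zero]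
        have key : ∀ u v : ZMod 2, u = v ↔ u + v = 0 := by decide
        rw [key (l x) (c + φ a)]
    · intro x hx
      have h4 : f (x + a) + φ (x + a) = (f x + φ x) + (l x + (c + φ a)) := by
        have h5 := hc x
        rw [Dv] at h5
        rw [map_add]
        have h6 := add_self_z (f x)
        linear_combination h5 - h6
      rw [h4, hx, add_self_z, add_zero]
  -- the projection and the bijection
  have hπ : ∀ x, x + μ x • a + l x • b ∈ K := by
    intro x
    rw [hK, Submodule.mem_inf, LinearMap.mem_ker, LinearMap.mem_ker]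
    simp only [map_add, map_smul, hla, hlb, hμ, hμb, smul_eq_mul, mul_zero, mul_one, add_zero, add_self_z, and_self]
  let π : V →ₗ[ZMod 2] K :=
    LinearMap.codRestrict K (LinearMap.id + (LinearMap.toSpanSingleton (ZMod 2) V a).comp μ +
      (LinearMap.toSpanSingleton (ZMod 2) V b).comp l)
      (by intro x; simpa using hπ x)
  have hπv : ∀ x, (π x : V) = x + μ x • a + l x • b := by intro x; simp [π]
  have hπa : π a = 0 := by
    apply Subtype.ext
    rw [hπv, hμ, hla, one_smul, zero_smul, add_zero, add_self2]; rfl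
  have hπb : π b = 0 := by
    apply Subtype.ext
    rw [hπv, hμb, hlb, one_smul, zero_smul, add_zero, add_self2]; rfl
  have hμK : ∀ y : K, μ y = 0 := fun y => (Submodule.mem_inf.1 y.2).2
  have hlK : ∀ y : K, l y = 0 := fun y => (Submodule.mem_inf.1 y.2).1
  have hπK : ∀ y : K, π y = y := by
    intro y
    apply Subtype.ext
    rw [hπv, hμK, hlK, zero_smul, zero_smul, add_zero, add_zero]
  let E : Du K × ZMod 2 × ZMod 2 ≃ Du V :=
    { toFun := fun p => p.1.comp π + p.2.1 • μ + p.2.2 • l
      invFun := fun φ => (φ.comp K.subtype, φ a, φ b)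
      left_inv := by
        rintro ⟨φ', i, k⟩
        refine Prod.ext ?_ (Prod.ext ?_ ?_)
        · ext y
          simp [hπK, hμK, hlK]
        · simp [hπa, hμ, hla]
        · simp [hπb, hμb, hlb]
      right_inv := by
        intro φ
        ext x
        simp only [LinearMap.add_apply, LinearMap.comp_apply, LinearMap.smul_apply, Submodule.subtype_apply,
          smul_eq_mul, hπv, map_add, map_smul]
        have h1 := add_self_z (μ x * φ a)
        have h2 := add_self_z (l x * φ b)
        linear_combination h1 + h2 }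
  have hEa : ∀ (φ' : Du K) (i k : ZMod 2), (E (φ', i, k)) a = i := by
    intro φ' i k
    have := congrArg (fun p => p.2.1) (E.left_inv (φ', i, k))
    exact this
  have hEb : ∀ (φ' : Du K) (i k : ZMod 2), (E (φ', i, k)) b = k := by
    intro φ' i k
    have := congrArg (fun p => p.2.2) (E.left_inv (φ', i, k))
    exact this
  have hEK : ∀ (φ' : Du K) (i k : ZMod 2), (E (φ', i, k)).comp K.subtype = φ' := by
    intro φ' i k
    have := congrArg (fun p => p.1) (E.left_inv (φ', i, k))
    exact this
  constructor
  · intro j φ'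
    refine ⟨E (φ', c + j, 0), ?_⟩
    rw [hW, hEa, hEb, hEK]
    have : c + (c + j) = j := by rw [← add_assoc, add_self_z, zero_add]
    rw [this]; simp
  · rw [← Equiv.sum_comp E (fun φ => W f φ ^ 4), Fintype.sum_prod_type]
    have h1 : ∀ φ' : Du K, ∑ q : ZMod 2 × ZMod 2, W f (E (φ', q)) ^ 4 =
        32 * (W (fun y : K => f (K.subtype y + (0 : ZMod 2) • b)) φ' ^ 4 +
          W (fun y : K => f (K.subtype y + (1 : ZMod 2) • b)) φ' ^ 4) := by
      intro φ'
      rw [Fintype.sum_prod_type]
      have h2 : ∀ i k : ZMod 2, W f (E (φ', i, k)) ^ 4 =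
          16 * W (fun y : K => f (K.subtype y + (c + i) • b)) φ' ^ 4 := by
        intro i k
        rw [hW, hEa, hEb, hEK]
        have h3 := sg_sq ((c + i) * k)
        have h4 : sg ((c + i) * k) ^ 4 = 1 := by
          calc sg ((c + i) * k) ^ 4 = (sg ((c + i) * k) * sg ((c + i) * k)) ^ 2 := by ring
            _ = 1 := by rw [h3]; norm_num
        calc (2 * (sg ((c + i) * k) * W (fun y : K => f (K.subtype y + (c + i) • b)) φ')) ^ 4 =
            16 * (sg ((c + i) * k) ^ 4 * W (fun y : K => f (K.subtype y + (c + i) • b)) φ' ^ 4) := by ring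
          _ = _ := by rw [h4, one_mul]
      simp only [h2, Finset.sum_const, Finset.card_univ, ZMod.card, nsmul_eq_mul]
      have huniv : (Finset.univ : Finset (ZMod 2)) = {0, 1} := by decide
      rw [huniv, Finset.sum_pair (by decide)]
      rcases z2 c with h | h
      · subst h; simp only [zero_add]; push_cast; ring
      · subst h
        have h11 : (1 : ZMod 2) + 1 = 0 := by decide
        simp only [add_zero, h11]; push_cast; ring
    rw [Finset.sum_congr rfl fun φ' _ => h1 φ', ← Finset.mul_sum, Finset.sum_add_distrib]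

end

end Pool.Agent.Work.MP_39d092_co.NL
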