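import Pool.Agent.Work.MP_39d092_co.NL.Half
import Pool.Agent.Work.MP_39d092_co.NL.Ax

set_option autoImplicit false
open scoped BigOperators

namespace Pool.Agent.Work.MP_39d092_co.NL

section
variable {V : Type} [AddCommGroup V] [Module (ZMod 2) V] [Fintype V]

lemma finrank_le_of_sub (K : Submodule (ZMod 2) V) : Module.finrank (ZMod 2) K ≤ Module.finrank (ZMod 2) V :=
  Submodule.finrank_le K

theorem HD_of_deg {f : V → ZMod 2} (d : ℕ)
    (hd : (d = 5 ∧ Module.finrank (ZMod 2) V ≤ 7) ∨ (d = 3 ∧ Module.finrank (ZMod 2) V ≤ 11))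
    (hf : Deg d f) : HD f := by
  classical
  intro K φ
  have hd1 : 1 ≤ d := by omega
  have h1 : Deg d (fun x => f x + φ x) := Deg.add hf (Deg.aff hd1 ⟨φ, 0, by simp⟩)
  have h2 := ax d hd1 _ K rfl (fun y : K => (fun x => f x + φ x) (K.subtype y + 0)) (h1.comp K.subtype 0)
  have h3 : ∑ x ∈ Finset.univ.filter (fun x : V => x ∈ K), sg (f x + φ x) =
      ∑ y : K, sg (f (y.1 + 0) + φ (y.1 + 0)) :=
    sum_flat K 0 (fun x => sg (f x + φ x)) (fun x => x ∈ K) (by intro x; simp)
  have h4 : (2 : ℤ) ^ kap (Module.finrank (ZMod 2) K) ∣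
      ∑ x ∈ Finset.univ.filter (fun x : V => x ∈ K), sg (f x + φ x) := by
    rw [h3]
    refine (pow_dvd_pow 2 ?_).trans h2
    have h5 := finrank_le_of_sub K
    unfold kap
    rcases hd with ⟨rfl, h⟩ | ⟨rfl, h⟩
    · omega
    · omega
  convert h4

lemma weight2 {g : V → ZMod 2} (hg : Deg 2 g) (δ : ZMod 2) (hne : ∃ x, g x ≠ δ) :
    4 * (Finset.univ.filter (fun x : V => g x = δ)).card ≤ 3 * Fintype.card V := by
  classical
  have htot : (Finset.univ.filter (fun x : V => g x = δ)).card +
      (Finset.univ.filter (fun x : V => g x ≠ δ)).card = Fintype.card V := by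
    rw [Finset.card_filter_add_card_filter_not]; rfl
  suffices h : Fintype.card V ≤ 4 * (Finset.univ.filter (fun x : V => g x ≠ δ)).card by omega
  by_cases hc : ∀ x, g x ≠ δ
  · have : (Finset.univ.filter (fun x : V => g x ≠ δ)) = Finset.univ := by
      ext x; simp [hc x]
    rw [this, Finset.card_univ]; omega
  · push Not at hc
    obtain ⟨x1, hx1⟩ := hc
    obtain ⟨x2, hx2⟩ := hne
    set a := x1 + x2 with ha
    obtain ⟨φ, c, hφ⟩ := (hg.dv a).isAff
    have hDne : Dv a g x2 = 1 := by
      have e1 : x2 + a = x1 := by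
        rw [ha, add_comm x1 x2, ← add_assoc, add_self2, zero_add]
      rw [Dv, e1, hx1]
      have key : ∀ a b : ZMod 2, b ≠ a → a + b = 1 := by decide
      exact key _ _ hx2
    -- the set where the derivative is 1 has at least half of the points
    have hhalf : Fintype.card V ≤ 2 * (Finset.univ.filter (fun x : V => Dv a g x = 1)).card := by
      by_cases h0 : φ = 0
      · have : ∀ x, Dv a g x = 1 := by
          intro x
          have h1 := hφ x
          have h2 := hφ x2
          rw [h0] at h1 h2
          simp only [LinearMap.zero_apply, zero_add] at h1 h2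
          rw [h1, ← h2, hDne]
        have h3 : (Finset.univ.filter (fun x : V => Dv a g x = 1)) = Finset.univ := by
          ext x; simp [this x]
        rw [h3, Finset.card_univ]; omega
      · have h1 := half_card h0 (1 + c)
        have h3 : (Finset.univ.filter (fun x : V => Dv a g x = 1)) =
            (Finset.univ.filter (fun x : V => φ x = 1 + c)) := by
          ext x
          simp only [Finset.mem_filter, Finset.mem_univ, true_and]
          rw [hφ x]
          have key : ∀ a b : ZMod 2, a + b = 1 ↔ a = 1 + b := by decide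
          exact key _ _
        rw [h3]
        have h4 : (Fintype.card V : ℤ) ≤ 2 * ((Finset.univ.filter (fun x : V => φ x = 1 + c)).card : ℤ) := by
          rw [h1]
        exact_mod_cast h4
    have hle : (Finset.univ.filter (fun x : V => Dv a g x = 1)).card ≤
        2 * (Finset.univ.filter (fun x : V => g x ≠ δ)).card := by
      have hsub : (Finset.univ.filter (fun x : V => Dv a g x = 1)) ⊆
          (Finset.univ.filter (fun x : V => g x ≠ δ)) ∪
            ((Finset.univ.filter (fun x : V => g x ≠ δ)).image (fun x => x + a)) := by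
        intro x hx
        simp only [Finset.mem_filter, Finset.mem_univ, true_and, Finset.mem_union, Finset.mem_image] at hx ⊢
        by_cases h : g x ≠ δ
        · left; exact h
        · right
          push Not at h
          refine ⟨x + a, ?_, by rw [add_assoc, add_self2, add_zero]⟩
          rw [Dv, h] at hx
          intro h2
          rw [h2, add_self_z] at hx
          exact absurd hx (by decide)
      calc _ ≤ _ := Finset.card_le_card hsub
        _ ≤ _ := Finset.card_union_le _ _
        _ ≤ _ := by
          have := Finset.card_image_le (s := Finset.univ.filter (fun x : V => g x ≠ δ)) (f := fun x => x + a)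
          omega
    omega

theorem even_cubic (f : V → ZMod 2) (hf : HD f) (hf3 : Deg 3 f) (m : ℕ)
    (hn : Module.finrank (ZMod 2) V = 2 * m + 2)
    (hb : ∀ φ : Du V, |W f φ| < 2 ^ (m + 2)) (hna : ∀ a : V, a ≠ 0 → ¬ IsAff (Dv a f)) :
    64 * ∑ φ : Du V, W f φ ^ 4 ≤ 127 * (2 ^ (2 * m + 2)) ^ 3 := by
  rcases even_core f hf m hn hb with h | ⟨e, δ, w, he, _, _, _, hbad⟩
  · exact h
  · exfalso
    have h1 := weight2 (hf3.dv e) δ (by
      by_contra hc
      push Not at hc
      exact hna e he ⟨0, δ, fun x => by simp [hc x]⟩)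
    rw [card_V, hn] at h1
    have : 0 < 2 ^ (2 * m + 2) := by positivity
    omega

/-- sums of signs have the parity of the number of terms -/
lemma sum_sg_parity (s : Finset V) (g : V → ZMod 2) : (2 : ℤ) ∣ ∑ x ∈ s, sg (g x) - (s.card : ℤ) := by
  have h : ∑ x ∈ s, sg (g x) - (s.card : ℤ) = ∑ x ∈ s, (sg (g x) - 1) := by
    rw [Finset.sum_sub_distrib]; simp
  rw [h]
  apply Finset.dvd_sum
  intro x _
  rcases z2 (g x) with h | h <;> simp [h]

lemma dvd_card3 (α β μ : Du V) (c : ZMod 2) :
    (Fintype.card V : ℤ) ∣
      8 * ((Finset.univ.filter (fun x : V => (α x = c ∧ β x = 0) ∧ μ x = 0)).card : ℤ) := by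
  have h1 : 8 * ((Finset.univ.filter (fun x : V => (α x = c ∧ β x = 0) ∧ μ x = 0)).card : ℤ) =
      ∑ x : V, (1 + sg c * sg (α x)) * (1 + sg (β x)) * (1 + sg (μ x)) := by
    rw [Finset.card_filter]
    push_cast
    rw [Finset.mul_sum]
    refine Finset.sum_congr rfl fun x _ => ?_
    rcases z2 (α x) with h | h <;> rcases z2 c with h' | h' <;> rcases z2 (β x) with h2 | h2 <;>
      rcases z2 (μ x) with h3 | h3 <;> rw [h, h', h2, h3] <;> simp
  have h2 : ∑ x : V, (1 + sg c * sg (α x)) * (1 + sg (β x)) * (1 + sg (μ x)) =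
      ∑ x : V, sg ((0 : Du V) x) + ∑ x : V, sg (β x) + ∑ x : V, sg (μ x) + ∑ x : V, sg ((β + μ) x) +
      sg c * (∑ x : V, sg (α x) + ∑ x : V, sg ((α + β) x) + ∑ x : V, sg ((α + μ) x) +
        ∑ x : V, sg ((α + β + μ) x)) := by
    simp only [← Finset.sum_add_distrib, Finset.mul_sum]
    refine Finset.sum_congr rfl fun x _ => ?_
    simp only [LinearMap.add_apply, LinearMap.zero_apply, sg_add, sg_zero]
    ring
  rw [h1, h2]
  have h3 : ∀ φ : Du V, (Fintype.card V : ℤ) ∣ ∑ x : V, sg (φ x) := by
    intro φ
    rw [sum_sg_dual]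
    split_ifs
    · exact dvd_refl _
    · exact dvd_zero _
  have := h3
  refine dvd_add (dvd_add (dvd_add (dvd_add (h3 _) (h3 _)) (h3 _)) (h3 _)) (Dvd.dvd.mul_left ?_ _)
  exact dvd_add (dvd_add (dvd_add (h3 _) (h3 _)) (h3 _)) (h3 _)

/-- sum over the half space at `φ` and `φ + β` -/
lemma P_add (f : V → ZMod 2) (α : Du V) (c : ZMod 2) (φ β : Du V) :
    P f α c φ + P f α c (φ + β) =
      2 * ∑ x ∈ Finset.univ.filter (fun x : V => α x = c ∧ β x = 0), sg (f x + φ x) := by
  unfold P
  rw [← Finset.sum_add_distrib, Finset.sum_filter, Finset.sum_filter, Finset.mul_sum]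
  refine Finset.sum_congr rfl fun x _ => ?_
  simp only [LinearMap.add_apply]
  rw [show f x + (φ x + β x) = (f x + φ x) + β x by ring, sg_add _ (β x)]
  by_cases h : α x = c
  · rcases z2 (β x) with h' | h' <;> simp [h, h'] <;> ring
  · simp [h]

/-- folding a sum over an `e`-invariant set on which the summand is `e`-invariant -/
lemma fold_sum (Q : V → Prop) [DecidablePred Q] (G : V → ℤ) (e : V) (μ : Du V) (hμ : μ e = 1)
    (hQ : ∀ x, Q x → Q (x + e)) (hG : ∀ x, Q x → G (x + e) = G x) :
    ∑ x ∈ Finset.univ.filter Q, G x = 2 * ∑ x ∈ Finset.univ.filter (fun x => Q x ∧ μ x = 0), G x := by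
  classical
  have h1 : ∑ x ∈ Finset.univ.filter Q, G x =
      ∑ x ∈ Finset.univ.filter (fun x => Q x ∧ μ x = 0), G x +
      ∑ x ∈ Finset.univ.filter (fun x => Q x ∧ ¬ μ x = 0), G x := by
    rw [← Finset.filter_filter, ← Finset.filter_filter, Finset.sum_filter_add_sum_filter_not]
  have h2 : ∑ x ∈ Finset.univ.filter (fun x => Q x ∧ ¬ μ x = 0), G x =
      ∑ x ∈ Finset.univ.filter (fun x => Q x ∧ μ x = 0), G x := by
    refine Finset.sum_bij (fun x _ => x + e) ?_ ?_ ?_ ?_
    · intro x hx
      simp only [Finset.mem_filter, Finset.mem_univ, true_and] at hx ⊢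
      refine ⟨hQ x hx.1, ?_⟩
      rw [map_add, hμ]
      have key : ∀ a : ZMod 2, a ≠ 0 → a + 1 = 0 := by decide
      exact key _ hx.2
    · intro x _ y _ h; exact add_right_cancel h
    · intro y hy
      simp only [Finset.mem_filter, Finset.mem_univ, true_and] at hy
      refine ⟨y + e, ?_, by rw [add_assoc, add_self2, add_zero]⟩
      simp only [Finset.mem_filter, Finset.mem_univ, true_and]
      refine ⟨hQ y hy.1, ?_⟩
      rw [map_add, hμ, hy.2]; decide
    · intro x hx
      simp only [Finset.mem_filter, Finset.mem_univ, true_and] at hx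
      exact (hG x hx.1).symm
  rw [h1, h2]; ring

/-- the case of dimension at most six -/
theorem even_small (f : V → ZMod 2) (hf : HD f) (m : ℕ) (hm : m ≤ 2)
    (hn : Module.finrank (ZMod 2) V = 2 * m + 2)
    (hb : ∀ φ : Du V, |W f φ| < 2 ^ (m + 2)) :
    64 * ∑ φ : Du V, W f φ ^ 4 ≤ 127 * (2 ^ (2 * m + 2)) ^ 3 := by
  classical
  rcases even_core f hf m hn hb with h | ⟨e, δ, w, he, hw, hodd, _, hbad⟩
  · exact h
  · exfalso
    obtain ⟨μ, hμ⟩ := exists_dual_one he
    set Ex := Finset.univ.filter (fun x : V => Dv e f x ≠ δ) with hEx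
    have htot : (Finset.univ.filter (fun x : V => Dv e f x = δ)).card + Ex.card = 2 ^ (2 * m + 2) := by
      rw [hEx, Finset.card_filter_add_card_filter_not, Finset.card_univ, card_V, hn]
    have hinv : ∀ x, Dv e f (x + e) = Dv e f x := by
      intro x
      rw [Dv, Dv, add_assoc, add_self2, add_zero, add_comm]
    -- exceptional set is even
    have hExfold := fold_sum (fun x : V => Dv e f x ≠ δ) (fun _ => (1 : ℤ)) e μ hμ
      (fun x hx => by rw [hinv]; exact hx) (fun _ _ => rfl)
    simp only [Finset.sum_const, nsmul_eq_mul, mul_one] at hExfold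
    set T0 := Finset.univ.filter (fun x : V => Dv e f x ≠ δ ∧ μ x = 0) with hT0
    have hEx2 : Ex.card = 2 * T0.card := by exact_mod_cast hExfold
    have hT0card : T0.card ≤ 4 ∧ (m ≤ 1 → T0.card ≤ 1) ∧ (m = 0 → T0.card = 0) := by
      have h1 : m = 0 ∨ m = 1 ∨ m = 2 := by omega
      rcases h1 with rfl | rfl | rfl <;> norm_num at hbad htot <;>
        exact ⟨by omega, fun _ => by omega, fun _ => by omega⟩
    -- choose the hyperplane
    obtain ⟨α, c, hα, hαe, hαx⟩ : ∃ (α : Du V) (c : ZMod 2), α ≠ 0 ∧ α e = 0 ∧ ∀ x, α x = c → Dv e f x = δ := by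
      by_cases hT : T0 = ∅
      · -- no exceptional points
        have hS : Submodule.span (ZMod 2) ({e} : Set V) < ⊤ := by
          rw [lt_top_iff_ne_top]
          intro h
          have h1 := finrank_span_singleton (K := ZMod 2) he
          rw [h, finrank_top, hn] at h1
          omega
        obtain ⟨α, hα, hle⟩ := Submodule.exists_le_ker_of_lt_top _ hS
        refine ⟨α, 0, hα, ?_, ?_⟩
        · exact hle (Submodule.subset_span rfl)
        · intro x _
          by_contra hx
          have : x ∈ Ex := by simp [hEx, hx]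
          have h2 : Ex.card = 0 := by rw [hEx2, hT]; simp
          rw [Finset.card_eq_zero] at h2
          rw [h2] at this
          simp at this
      · obtain ⟨x1, hx1⟩ := Finset.nonempty_iff_ne_empty.2 hT
        set S : Finset V := insert e ((T0.erase x1).image (fun x => x1 + x)) with hSdef
        have hScard : S.card ≤ T0.card := by
          calc S.card ≤ ((T0.erase x1).image (fun x => x1 + x)).card + 1 := Finset.card_insert_le _ _
            _ ≤ (T0.erase x1).card + 1 := by
              have := Finset.card_image_le (s := T0.erase x1) (f := fun x => x1 + x)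
              omega
            _ = T0.card := by rw [Finset.card_erase_of_mem hx1]; have := Finset.card_pos.2 ⟨x1, hx1⟩; omega
        have hS : Submodule.span (ZMod 2) (S : Set V) < ⊤ := by
          rw [lt_top_iff_ne_top]
          intro h
          have h1 := finrank_span_finset_le_card (R := ZMod 2) S
          rw [Set.finrank, h, finrank_top, hn] at h1
          have hpos := Finset.card_pos.2 ⟨x1, hx1⟩
          rcases hT0card with ⟨h4, h5, h6⟩
          by_cases hm1 : m ≤ 1
          · have := h5 hm1; omega
          · omega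
        obtain ⟨α, hα, hle⟩ := Submodule.exists_le_ker_of_lt_top _ hS
        have hαe : α e = 0 := hle (Submodule.subset_span (by simp [hSdef]))
        have hT0α : ∀ x ∈ T0, α x = α x1 := by
          intro x hx
          by_cases hxx : x = x1
          · rw [hxx]
          · have h1 : α (x1 + x) = 0 := hle (Submodule.subset_span (by
              simp only [hSdef, Finset.coe_insert, Finset.coe_image, Set.mem_insert_iff, Set.mem_image]
              right
              exact ⟨x, Finset.mem_coe.2 (Finset.mem_erase.2 ⟨hxx, hx⟩), rfl⟩))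
            rw [map_add] at h1
            have key : ∀ a b : ZMod 2, a + b = 0 → b = a := by decide
            exact key _ _ h1
        refine ⟨α, α x1 + 1, hα, hαe, ?_⟩
        intro x hx
        by_contra hne
        have hαx : α x = α x1 := by
          rcases z2 (μ x) with h | h
          · exact hT0α x (by simp [hT0, hne, h])
          · have h1 : x + e ∈ T0 := by
              simp only [hT0, Finset.mem_filter, Finset.mem_univ, true_and]
              refine ⟨by rw [hinv]; exact hne, ?_⟩
              rw [map_add, hμ, h]; decide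
            have h2 := hT0α _ h1
            rw [map_add, hαe, add_zero] at h2
            exact h2
        rw [hαx] at hx
        have key : ∀ a : ZMod 2, a ≠ a + 1 := by decide
        exact key _ hx
    refine half_lemma f m hn hb e he δ w hw hodd α hα hαe c hαx ?_ ?_
    · have h1 : (Finset.univ.filter (fun x : V => α x = c + 1 ∧ Dv e f x ≠ δ)).card ≤ Ex.card := by
        apply Finset.card_le_card
        intro x hx
        simp only [Finset.mem_filter, Finset.mem_univ, true_and, hEx] at hx ⊢
        exact hx.2
      have h2 : m = 0 ∨ m = 1 ∨ m = 2 := by omega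
      have h7 : 16 * T0.card ≤ 2 ^ (2 * m + 2) := by
        rcases hT0card with ⟨h4, h5, h6⟩
        rcases h2 with rfl | rfl | rfl
        · rw [h6 rfl]; norm_num
        · have h8 := h5 (le_refl 1)
          calc 16 * T0.card ≤ 16 * 1 := Nat.mul_le_mul_left _ h8
            _ = _ := by norm_num
        · calc 16 * T0.card ≤ 16 * 4 := Nat.mul_le_mul_left _ h4
            _ = _ := by norm_num
      omega
    · intro φ ψ hφ hψ
      have hβe : (φ + ψ) e = 0 := by rw [LinearMap.add_apply, hφ, hψ, add_self_z]
      have hψeq : ψ = φ + (φ + ψ) := by rw [← add_assoc, add_self2, zero_add]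
      have h1 := P_add f α c φ (φ + ψ)
      rw [← hψeq] at h1
      rw [h1]
      have hfold := fold_sum (fun x : V => α x = c ∧ (φ + ψ) x = 0) (fun x => sg (f x + φ x)) e μ hμ
        (fun x hx => by
          refine ⟨by rw [map_add, hαe, add_zero]; exact hx.1, ?_⟩
          rw [map_add, hβe, add_zero]; exact hx.2)
        (fun x hx => by
          have h2 := hαx x hx.1
          have h3 : f (x + e) + φ (x + e) = (f x + φ x) + (δ + φ e) := by
            rw [map_add, ← h2, Dv]
            have h4 := add_self_z (f x)
            linear_combination -h4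
          rw [h3, hφ, add_self_z, add_zero])
      rw [hfold]
      have hpar := sum_sg_parity (Finset.univ.filter (fun x : V => (α x = c ∧ (φ + ψ) x = 0) ∧ μ x = 0))
        (fun x => f x + φ x)
      have h2 : m = 0 ∨ m = 1 ∨ m = 2 := by omega
      rcases h2 with rfl | rfl | rfl
      · norm_num
      · refine ⟨∑ x ∈ Finset.univ.filter (fun x : V => (α x = c ∧ (φ + ψ) x = 0) ∧ μ x = 0), sg (f x + φ x), by ring⟩
      · have h5 := dvd_card3 α (φ + ψ) μ c
        have h64 : ((Fintype.card V : ℕ) : ℤ) = 64 := by rw [card_V, hn]; norm_num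
        rw [h64] at h5
        obtain ⟨t, ht⟩ := h5
        obtain ⟨s, hs⟩ := hpar
        have h6 : ∑ x ∈ Finset.univ.filter (fun x : V => (α x = c ∧ (φ + ψ) x = 0) ∧ μ x = 0), sg (f x + φ x) =
            2 * (s + 4 * t) := by linarith
        rw [h6]
        exact ⟨s + 4 * t, by ring⟩

end

end Pool.Agent.Work.MP_39d092_co.NL
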